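import Mathlib

/-!
# Coefficient fields of local rings with nilpotent maximal ideal

Helper file (seat helper42).  Every field extension of a perfect field is formally smooth, hence a
local ring with nilpotent maximal ideal containing a perfect field has a coefficient field.
-/

set_option autoImplicit false
set_option linter.unusedSectionVars false

namespace H42

open MvPolynomial Algebra

/-- Every extension of a perfect field is formally smooth. -/
theorem formallySmooth_of_perfect (K L : Type*) [Field K] [Field L] [Algebra K L]
    [PerfectField K] : Algebra.FormallySmooth K L := by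
  classical
  refine ⟨inferInstance, ?_⟩
  let P : Generators K L L := Generators.self K L
  change Subsingleton P.toExtension.H1Cotangent
  rw [P.toExtension.subsingleton_h1Cotangent]
  rw [← LinearMap.ker_eq_bot, LinearMap.ker_eq_bot']
  intro x hx
  obtain ⟨f, rfl⟩ := Extension.Cotangent.mk_surjective x
  rw [Extension.Cotangent.mk_eq_zero_iff]
  -- the polynomial `f`
  let g : MvPolynomial L K := f.val
  have hgker : aeval (fun y : L => y) g = 0 := by
    have h1 : f.val ∈ P.ker := f.2
    rw [Generators.ker_eq_ker_aeval_val] at h1
    exact h1
  have hgd : ∀ y : L, aeval (fun y : L => y) (pderiv y g) = 0 := by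
    intro y
    rw [Extension.cotangentComplex_mk] at hx
    have h1 := P.cotangentSpaceBasis_repr_one_tmul f.val y
    rw [hx, map_zero] at h1
    exact h1.symm
  -- the finitely generated subfield
  let L' : IntermediateField K L := IntermediateField.adjoin K (g.vars : Set L)
  have hL' : Algebra.EssFiniteType K L' := by
    rw [IntermediateField.essFiniteType_iff]
    exact ⟨g.vars, rfl⟩
  have hsm : Algebra.FormallySmooth K L' := inferInstance
  let P' : Generators K L' L' := Generators.self K L'
  have hvars : (g.vars : Set L) ⊆ Set.range (fun y : L' => (y : L)) := by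
    intro y hy
    exact ⟨⟨y, IntermediateField.subset_adjoin K _ hy⟩, rfl⟩
  obtain ⟨g', hg'⟩ := exists_rename_eq_of_vars_subset_range g (fun y : L' => (y : L))
    Subtype.val_injective hvars
  -- evaluation of renamed polynomials
  have hev : ∀ q : MvPolynomial L' K, aeval (fun y : L => y) (rename (fun y : L' => (y : L)) q)
      = ((aeval (fun y : L' => y) q : L') : L) := by
    intro q
    rw [aeval_rename]
    have := MvPolynomial.comp_aeval_apply (f := fun y : L' => y) (IntermediateField.val L') q
    exact this.symm
  have hg'ker : aeval (fun y : L' => y) g' = 0 := by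
    have := hev g'
    rw [hg', hgker] at this
    exact_mod_cast this.symm
  have hg'd : ∀ y : L', aeval (fun y : L' => y) (pderiv y g') = 0 := by
    intro y
    have h1 := hev (pderiv y g')
    rw [← pderiv_rename Subtype.val_injective, hg', hgd] at h1
    exact_mod_cast h1.symm
  have hmem : g' ∈ P'.ker := by
    rw [Generators.ker_eq_ker_aeval_val]
    exact hg'ker
  -- injectivity of the cotangent complex of `L'`
  have hinj : Function.Injective P'.toExtension.cotangentComplex := by
    rw [← P'.toExtension.subsingleton_h1Cotangent]
    exact hsm.subsingleton_h1Cotangent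
  have h0 : P'.toExtension.cotangentComplex (Extension.Cotangent.mk ⟨g', hmem⟩) = 0 := by
    apply P'.cotangentSpaceBasis.repr.injective
    refine Finsupp.ext (fun y => ?_)
    rw [Extension.cotangentComplex_mk, map_zero]
    exact (P'.cotangentSpaceBasis_repr_one_tmul g' y).trans (hg'd y)
  have h1 : (Extension.Cotangent.mk ⟨g', hmem⟩ : P'.toExtension.Cotangent) = 0 := by
    apply hinj
    rw [h0, map_zero]
  rw [Extension.Cotangent.mk_eq_zero_iff] at h1
  -- transfer to `L`
  have h2 : P'.ker ≤ Ideal.comap
      (rename (fun y : L' => (y : L)) : MvPolynomial L' K →ₐ[K] MvPolynomial L K) P.ker := by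
    intro q hq
    rw [Ideal.mem_comap, Generators.ker_eq_ker_aeval_val]
    rw [Generators.ker_eq_ker_aeval_val] at hq
    have h3 : aeval (fun y : L' => y) q = 0 := hq
    have h4 := hev q
    rw [h3] at h4
    exact h4
  have h5 : g ∈ P.ker ^ 2 := by
    have h6 := ((Ideal.pow_right_mono h2 2).trans (Ideal.le_comap_pow _ 2)) h1
    have h7 : rename (fun y : L' => (y : L)) g' ∈ P.ker ^ 2 := h6
    rwa [hg'] at h7
  exact h5

open IsLocalRing in
/-- A local algebra over a perfect field with nilpotent maximal ideal has a coefficient field. -/
theorem exists_coeff_field (K A : Type*) [Field K] [PerfectField K] [CommRing A] [IsLocalRing A]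
    [Algebra K A] (h : IsNilpotent (maximalIdeal A)) :
    ∃ s : ResidueField A →+* A, ∀ x, residue A (s x) = x := by
  have := formallySmooth_of_perfect K (ResidueField A)
  obtain ⟨f, hf⟩ := Algebra.FormallySmooth.exists_lift (R := K) (A := ResidueField A)
    (maximalIdeal A) h (AlgHom.id K (ResidueField A))
  refine ⟨f.toRingHom, fun x => ?_⟩
  exact AlgHom.congr_fun hf x

end H42
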