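import Mathlib

/-!
# Noetherian selection and semicontinuity along sequences

Helper file (seat helper42).  `P` is a finitely generated algebra of functions on the index set
`ℕ`; families of vectors/linear maps whose coordinates lie in `P` behave like algebraic families.
-/

set_option autoImplicit false
set_option linter.unusedSectionVars false

namespace H42

section Select

variable {κ : Type*} [Field κ]

/-- Noetherian selection: for a finitely generated algebra `P` of functions on `ℕ` there is an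
index `m` lying in the closure of the later indices. -/
theorem exists_selection (P : Subalgebra κ (ℕ → κ)) (hP : P.FG) :
    ∃ m : ℕ, ∀ F ∈ P, F m ≠ 0 → ∃ j, m < j ∧ F j ≠ 0 := by
  classical
  have hnoeth : IsNoetherianRing P := by
    have : Algebra.FiniteType κ P := (Subalgebra.fg_iff_finiteType P).mp hP
    exact Algebra.FiniteType.isNoetherianRing κ P
  let I : ℕ →o Ideal P :=
    { toFun := fun m =>
        { carrier := {F | ∀ j, m ≤ j → (F : ℕ → κ) j = 0}
          add_mem' := by
            intro a b ha hb j hj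
            simp only [Set.mem_ofPred_eq] at ha hb
            simp [ha j hj, hb j hj]
          zero_mem' := by intro j _; simp
          smul_mem' := by
            intro c a ha j hj
            simp only [Set.mem_ofPred_eq] at ha
            simp [ha j hj] }
      monotone' := by
        intro a b hab F hF j hj
        exact hF j (hab.trans hj) }
  obtain ⟨m, hm⟩ := monotone_stabilizes_iff_noetherian.mpr hnoeth I
  refine ⟨m, fun F hF hFm => ?_⟩
  by_contra hcon
  push Not at hcon
  have h1 : (⟨F, hF⟩ : P) ∈ I (m+1) := by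
    intro j hj
    exact hcon j hj
  rw [← hm (m+1) (Nat.le_succ m)] at h1
  exact hFm (h1 m le_rfl)

end Select

section Fam

variable {κ : Type*} [Field κ]

/-- A family of vectors all of whose coordinates lie in `P`. -/
def PFam (P : Subalgebra κ (ℕ → κ)) {W : Type*} [AddCommGroup W] [Module κ W] (w : ℕ → W) : Prop :=
  ∀ l : W →ₗ[κ] κ, (fun j => l (w j)) ∈ P

variable {P : Subalgebra κ (ℕ → κ)} {W E : Type*} [AddCommGroup W] [Module κ W]
  [AddCommGroup E] [Module κ E]

lemma PFam.const (w : W) : PFam P (fun _ => w) := by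
  intro l
  exact P.algebraMap_mem (l w)

lemma PFam.add {v w : ℕ → W} (hv : PFam P v) (hw : PFam P w) : PFam P (fun j => v j + w j) := by
  intro l
  have := P.add_mem (hv l) (hw l)
  convert this using 1
  ext j; simp

lemma PFam.sub {v w : ℕ → W} (hv : PFam P v) (hw : PFam P w) : PFam P (fun j => v j - w j) := by
  intro l
  have := P.sub_mem (hv l) (hw l)
  convert this using 1
  ext j; simp

lemma PFam.smul {F : ℕ → κ} {w : ℕ → W} (hF : F ∈ P) (hw : PFam P w) :
    PFam P (fun j => F j • w j) := by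
  intro l
  have := P.mul_mem hF (hw l)
  convert this using 1
  ext j; simp

lemma PFam.map (f : W →ₗ[κ] E) {w : ℕ → W} (hw : PFam P w) : PFam P (fun j => f (w j)) := by
  intro l
  exact hw (l ∘ₗ f)

lemma PFam.sum {ι : Type*} (s : Finset ι) {w : ι → ℕ → W} (hw : ∀ i ∈ s, PFam P (w i)) :
    PFam P (fun j => ∑ i ∈ s, w i j) := by
  intro l
  have : (fun j => l (∑ i ∈ s, w i j)) = ∑ i ∈ s, (fun j => l (w i j)) := by
    ext j; simp
  rw [this]
  exact P.sum_mem (fun i hi => hw i hi l)

/-- Families in a finite product are tested coordinatewise. -/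
lemma PFam.of_basis {ι : Type*} [Finite ι] (b : Module.Basis ι κ W) {w : ℕ → W}
    (h : ∀ i, (fun j => b.repr (w j) i) ∈ P) : PFam P w := by
  classical
  cases nonempty_fintype ι
  intro l
  have : (fun j => l (w j)) = ∑ i, (l (b i)) • (fun j => b.repr (w j) i) := by
    ext j
    have h1 : l (w j) = l (∑ i, b.repr (w j) i • b i) := by rw [b.sum_repr (w j)]
    rw [h1, map_sum]
    simp [mul_comm]
  rw [this]
  exact P.sum_mem (fun i _ => P.smul_mem (h i) _)

/-- Determinant of a square matrix with entries in `P` is in `P`. -/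
lemma det_mem {n : Type*} [Fintype n] [DecidableEq n] (M : ℕ → Matrix n n κ)
    (hM : ∀ a b, (fun j => M j a b) ∈ P) : (fun j => (M j).det) ∈ P := by
  have : (fun j => (M j).det) =
      ∑ σ : Equiv.Perm n, ((Equiv.Perm.sign σ : ℤ) : κ) • ∏ i, (fun j => M j (σ i) i) := by
    ext j
    simp only [Matrix.det_apply, Finset.sum_apply, Pi.smul_apply, Finset.prod_apply]
    refine Finset.sum_congr rfl (fun σ _ => ?_)
    rw [Units.smul_def, zsmul_eq_mul, smul_eq_mul]
  rw [this]
  exact P.sum_mem (fun σ _ => P.smul_mem (P.prod_mem (fun i _ => hM _ _)) _)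

/-- Entries of the adjugate of a matrix with entries in `P` are in `P`. -/
lemma adjugate_mem {n : Type*} [Fintype n] [DecidableEq n] (M : ℕ → Matrix n n κ)
    (hM : ∀ a b, (fun j => M j a b) ∈ P) (a b : n) : (fun j => (M j).adjugate a b) ∈ P := by
  simp only [Matrix.adjugate_apply]
  refine det_mem _ (fun c d => ?_)
  by_cases hcd : c = b
  · subst hcd
    simp only [Matrix.updateRow_self]
    exact P.algebraMap_mem _
  · simp only [Matrix.updateRow_ne hcd]
    exact hM c d

end Fam

section Rank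

variable {κ : Type*} [Field κ] {W E : Type*} [AddCommGroup W] [Module κ W]
  [AddCommGroup E] [Module κ E] [Module.Finite κ W] [Module.Finite κ E]

lemma exists_LR (θ : W →ₗ[κ] E) :
    ∃ (R : (Fin (Module.finrank κ (LinearMap.range θ)) → κ) →ₗ[κ] W)
      (L : E →ₗ[κ] (Fin (Module.finrank κ (LinearMap.range θ)) → κ)),
      L ∘ₗ θ ∘ₗ R = LinearMap.id := by
  classical
  set ρ := Module.finrank κ (LinearMap.range θ)
  let b : Module.Basis (Fin ρ) κ (LinearMap.range θ) := Module.finBasis κ (LinearMap.range θ)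
  have hpre : ∀ l, ∃ w : W, θ w = b l := fun l => (b l).2
  choose r hr using hpre
  let R : (Fin ρ → κ) →ₗ[κ] W := (Pi.basisFun κ (Fin ρ)).constr κ r
  have hinj : Function.Injective (θ ∘ₗ R) := by
    rw [← LinearMap.ker_eq_bot, LinearMap.ker_eq_bot']
    intro v hv
    have h1 : (θ ∘ₗ R) v = ((LinearMap.range θ).subtype) (b.equivFun.symm v) := by
      rw [LinearMap.comp_apply, Module.Basis.equivFun_symm_apply]
      simp only [R, Module.Basis.constr_apply_fintype, map_sum, map_smul, hr]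
      rfl
    rw [h1] at hv
    have h2 : b.equivFun.symm v = 0 := by
      apply (LinearMap.range θ).subtype_injective
      rw [hv, map_zero]
    exact (LinearEquiv.map_eq_zero_iff _).mp h2
  obtain ⟨L, hL⟩ := LinearMap.exists_leftInverse_of_injective (θ ∘ₗ R)
    (LinearMap.ker_eq_bot.mpr hinj)
  exact ⟨R, L, hL⟩

lemma bij_of_det {ρ : ℕ} (f : (Fin ρ → κ) →ₗ[κ] (Fin ρ → κ))
    (h : (LinearMap.toMatrix' f).det ≠ 0) : Function.Bijective f := by
  have h1 : IsUnit (LinearMap.det f) := by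
    rw [← LinearMap.det_toMatrix']
    exact isUnit_iff_ne_zero.mpr h
  rw [← LinearMap.isUnit_iff_isUnit_det] at h1
  exact (Module.End.isUnit_iff f).mp h1

lemma rank_le_of_bijective {ρ : ℕ} (θ : W →ₗ[κ] E) (R : (Fin ρ → κ) →ₗ[κ] W)
    (L : E →ₗ[κ] (Fin ρ → κ)) (h : (LinearMap.toMatrix' (L ∘ₗ θ ∘ₗ R)).det ≠ 0) :
    ρ ≤ Module.finrank κ (LinearMap.range (L ∘ₗ θ)) := by
  have h2 := bij_of_det _ h
  have h3 : LinearMap.range (L ∘ₗ θ) = ⊤ := by
    rw [LinearMap.range_eq_top]
    intro y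
    obtain ⟨x, hx⟩ := h2.2 y
    exact ⟨R x, hx⟩
  rw [h3, finrank_top]
  simp

lemma rank_comp_le (θ : W →ₗ[κ] E) {ρ : ℕ} (L : E →ₗ[κ] (Fin ρ → κ)) :
    Module.finrank κ (LinearMap.range (L ∘ₗ θ)) ≤ Module.finrank κ (LinearMap.range θ) := by
  rw [LinearMap.range_comp]
  exact Submodule.finrank_map_le _ _

/-- kernels agree when ranks agree -/
lemma ker_eq_of_rank (θ : W →ₗ[κ] E) {ρ : ℕ} (L : E →ₗ[κ] (Fin ρ → κ))
    (h : Module.finrank κ (LinearMap.range θ) ≤ Module.finrank κ (LinearMap.range (L ∘ₗ θ))) :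
    LinearMap.ker (L ∘ₗ θ) = LinearMap.ker θ := by
  symm
  apply Submodule.eq_of_le_of_finrank_le
  · intro x hx
    simp only [LinearMap.mem_ker, LinearMap.comp_apply] at hx ⊢
    rw [hx, map_zero]
  · have h1 := LinearMap.finrank_range_add_finrank_ker θ
    have h2 := LinearMap.finrank_range_add_finrank_ker (L ∘ₗ θ)
    omega

end Rank

section Semicont

variable {κ : Type*} [Field κ] {P : Subalgebra κ (ℕ → κ)}
  {W E : Type*} [AddCommGroup W] [Module κ W]
  [AddCommGroup E] [Module κ E] [Module.Finite κ W] [Module.Finite κ E]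

/-- Lower semicontinuity of the rank. -/
lemma exists_rank_ge (Θ : ℕ → (W →ₗ[κ] E)) (hΘ : ∀ w, PFam P (fun j => Θ j w)) (m : ℕ) :
    ∃ F ∈ P, F m ≠ 0 ∧ ∀ j, F j ≠ 0 →
      Module.finrank κ (LinearMap.range (Θ m)) ≤ Module.finrank κ (LinearMap.range (Θ j)) := by
  classical
  obtain ⟨R, L, hLR⟩ := exists_LR (Θ m)
  refine ⟨fun j => (LinearMap.toMatrix' (L ∘ₗ Θ j ∘ₗ R)).det, ?_, ?_, ?_⟩
  · refine det_mem _ (fun a b => ?_)
    simp only [LinearMap.toMatrix'_apply, LinearMap.comp_apply]
    exact hΘ (R _) ((LinearMap.proj a) ∘ₗ L)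
  · simp only [hLR]
    simp
  · intro j hj
    exact (rank_le_of_bijective (Θ j) R L hj).trans (rank_comp_le (Θ j) L)

/-- Continuity of kernels of constant rank: an element `u₀` of the kernel at `m` with `D u₀ ≠ 0`
can be moved to nearby indices at which the rank does not go up. -/
lemma exists_ker_elt (Θ : ℕ → (W →ₗ[κ] E)) (hΘ : ∀ w, PFam P (fun j => Θ j w)) (m : ℕ)
    (u₀ : W) (hu₀ : Θ m u₀ = 0) (D : W → κ)
    (hD : ∀ w : ℕ → W, PFam P w → (fun j => D (w j)) ∈ P) (hD0 : D u₀ ≠ 0) :
    ∃ F ∈ P, F m ≠ 0 ∧ ∀ j, F j ≠ 0 →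
      Module.finrank κ (LinearMap.range (Θ j)) ≤ Module.finrank κ (LinearMap.range (Θ m)) →
      ∃ u, Θ j u = 0 ∧ D u ≠ 0 := by
  classical
  obtain ⟨R, L, hLR⟩ := exists_LR (Θ m)
  set Δ : ℕ → Matrix _ _ κ := fun j => LinearMap.toMatrix' (L ∘ₗ Θ j ∘ₗ R) with hΔ
  have hΔmem : ∀ a b, (fun j => Δ j a b) ∈ P := by
    intro a b
    simp only [hΔ, LinearMap.toMatrix'_apply, LinearMap.comp_apply]
    exact hΘ (R _) ((LinearMap.proj a) ∘ₗ L)
  have hdet : (fun j => (Δ j).det) ∈ P := det_mem _ hΔmem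
  -- the moving solution
  let w : ℕ → W := fun j => (Δ j).det • u₀ - R ((Δ j).adjugate.mulVec (L (Θ j u₀)))
  have hw : PFam P w := by
    refine PFam.sub (PFam.smul hdet (PFam.const u₀)) (PFam.map R ?_)
    refine PFam.of_basis (Pi.basisFun κ _) (fun i => ?_)
    simp only [Pi.basisFun_repr, Matrix.mulVec, dotProduct]
    have : (fun j => ∑ k, (Δ j).adjugate i k * L (Θ j u₀) k) =
        ∑ k, (fun j => (Δ j).adjugate i k) * (fun j => L (Θ j u₀) k) := by
      ext j; simp
    rw [this]
    refine P.sum_mem (fun k _ => P.mul_mem (adjugate_mem _ hΔmem i k) ?_)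
    exact hΘ u₀ ((LinearMap.proj k) ∘ₗ L)
  have hwm : w m = u₀ := by
    simp only [w, hΔ, hLR, hu₀, map_zero, Matrix.mulVec_zero]
    simp
  have hwker : ∀ j, (L ∘ₗ Θ j) (w j) = 0 := by
    intro j
    have h1 : (L ∘ₗ Θ j) (R ((Δ j).adjugate.mulVec (L (Θ j u₀)))) =
        (Δ j).mulVec ((Δ j).adjugate.mulVec (L (Θ j u₀))) := by
      have := LinearMap.toMatrix'_mulVec (L ∘ₗ Θ j ∘ₗ R) ((Δ j).adjugate.mulVec (L (Θ j u₀)))
      rw [this]
      rfl
    simp only [w, map_sub, map_smul]
    rw [h1, Matrix.mulVec_mulVec, Matrix.mul_adjugate, Matrix.smul_mulVec, Matrix.one_mulVec]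
    simp
  refine ⟨fun j => (Δ j).det * D (w j), P.mul_mem hdet (hD w hw), ?_, ?_⟩
  · show (Δ m).det * D (w m) ≠ 0
    rw [hwm]
    refine mul_ne_zero ?_ hD0
    simp only [hΔ, hLR]
    simp
  · intro j hj hrank
    have hj1 : (Δ j).det ≠ 0 := left_ne_zero_of_mul hj
    have hj2 : D (w j) ≠ 0 := right_ne_zero_of_mul hj
    refine ⟨w j, ?_, hj2⟩
    have h2 := rank_le_of_bijective (Θ j) R L hj1
    have h3 := ker_eq_of_rank (Θ j) L (hrank.trans h2)
    have h4 : w j ∈ LinearMap.ker (L ∘ₗ Θ j) := hwker j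
    rw [h3] at h4
    exact h4

end Semicont

end H42
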