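import Mathlib
import Pool.Agent.H42.Select

/-!
# Sequences of matrix representations

Helper file (seat helper42).
-/

set_option autoImplicit false
set_option linter.unusedSectionVars false

namespace H42

section

variable {κ A : Type*} [Field κ] [Ring A] [Algebra κ A] {r : ℕ}

/-- `U ↦ (a ↦ σ a * U - U * ρ a)` -/
def d0 (σ ρ : A →ₗ[κ] Matrix (Fin r) (Fin r) κ) :
    Matrix (Fin r) (Fin r) κ →ₗ[κ] (A →ₗ[κ] Matrix (Fin r) (Fin r) κ) where
  toFun U :=
    { toFun := fun a => σ a * U - U * ρ a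
      map_add' := by intro a b; simp only [map_add, add_mul, mul_add]; abel
      map_smul' := by
        intro c a
        simp only [map_smul, RingHom.id_apply, smul_mul_assoc, mul_smul_comm, smul_sub] }
  map_add' := by
    intro U V; ext1 a
    simp only [LinearMap.coe_mk, AddHom.coe_mk, LinearMap.add_apply, mul_add, add_mul]; abel
  map_smul' := by
    intro c U; ext1 a
    simp only [LinearMap.coe_mk, AddHom.coe_mk, LinearMap.smul_apply, RingHom.id_apply,
      mul_smul_comm, smul_mul_assoc, smul_sub]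

@[simp] lemma d0_apply (σ ρ : A →ₗ[κ] Matrix (Fin r) (Fin r) κ) (U : Matrix (Fin r) (Fin r) κ)
    (a : A) : d0 σ ρ U a = σ a * U - U * ρ a := rfl

/-- `D ↦ ((a, b) ↦ σ a * D b - D (a * b) + D a * ρ b)` -/
def d1 (σ ρ : A →ₗ[κ] Matrix (Fin r) (Fin r) κ) :
    (A →ₗ[κ] Matrix (Fin r) (Fin r) κ) →ₗ[κ] (A →ₗ[κ] A →ₗ[κ] Matrix (Fin r) (Fin r) κ) where
  toFun D :=
    { toFun := fun a =>
        { toFun := fun b => σ a * D b - D (a * b) + D a * ρ b
          map_add' := by intro b c; simp only [map_add, mul_add]; abel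
          map_smul' := by
            intro c b
            simp only [map_smul, RingHom.id_apply, mul_smul_comm, smul_sub, smul_add] }
      map_add' := by
        intro a b; ext1 c
        simp only [LinearMap.coe_mk, AddHom.coe_mk, LinearMap.add_apply, map_add, add_mul]; abel
      map_smul' := by
        intro c a; ext1 b
        simp only [LinearMap.coe_mk, AddHom.coe_mk, LinearMap.smul_apply, RingHom.id_apply,
          map_smul, smul_mul_assoc, smul_sub, smul_add] }
  map_add' := by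
    intro D D'; ext1 a; ext1 b
    simp only [LinearMap.coe_mk, AddHom.coe_mk, LinearMap.add_apply, mul_add, add_mul]; abel
  map_smul' := by
    intro c D; ext1 a; ext1 b
    simp only [LinearMap.coe_mk, AddHom.coe_mk, LinearMap.smul_apply, RingHom.id_apply,
      mul_smul_comm, smul_mul_assoc, smul_sub, smul_add]

@[simp] lemma d1_apply (σ ρ : A →ₗ[κ] Matrix (Fin r) (Fin r) κ)
    (D : A →ₗ[κ] Matrix (Fin r) (Fin r) κ) (a b : A) :
    d1 σ ρ D a b = σ a * D b - D (a * b) + D a * ρ b := rfl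

/-- left multiplication part of `d0`, linear in `σ`. -/
def t0 (U : Matrix (Fin r) (Fin r) κ) :
    (A →ₗ[κ] Matrix (Fin r) (Fin r) κ) →ₗ[κ] (A →ₗ[κ] Matrix (Fin r) (Fin r) κ) where
  toFun σ :=
    { toFun := fun a => σ a * U
      map_add' := by intro a b; simp only [map_add, add_mul]
      map_smul' := by
        intro c a; simp only [map_smul, RingHom.id_apply, smul_mul_assoc] }
  map_add' := by
    intro σ τ; ext1 a
    simp only [LinearMap.coe_mk, AddHom.coe_mk, LinearMap.add_apply, add_mul]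
  map_smul' := by
    intro c σ; ext1 a
    simp only [LinearMap.coe_mk, AddHom.coe_mk, LinearMap.smul_apply, RingHom.id_apply,
      smul_mul_assoc]

/-- left multiplication part of `d1`, linear in `σ`. -/
def t1 (D : A →ₗ[κ] Matrix (Fin r) (Fin r) κ) :
    (A →ₗ[κ] Matrix (Fin r) (Fin r) κ) →ₗ[κ] (A →ₗ[κ] A →ₗ[κ] Matrix (Fin r) (Fin r) κ) where
  toFun σ :=
    { toFun := fun a =>
        { toFun := fun b => σ a * D b
          map_add' := by intro b c; simp only [map_add, mul_add]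
          map_smul' := by
            intro c b; simp only [map_smul, RingHom.id_apply, mul_smul_comm] }
      map_add' := by
        intro a b; ext1 c
        simp only [LinearMap.coe_mk, AddHom.coe_mk, LinearMap.add_apply, map_add, add_mul]
      map_smul' := by
        intro c a; ext1 b
        simp only [LinearMap.coe_mk, AddHom.coe_mk, LinearMap.smul_apply, RingHom.id_apply,
          map_smul, smul_mul_assoc] }
  map_add' := by
    intro σ τ; ext1 a; ext1 b
    simp only [LinearMap.coe_mk, AddHom.coe_mk, LinearMap.add_apply, add_mul]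
  map_smul' := by
    intro c σ; ext1 a; ext1 b
    simp only [LinearMap.coe_mk, AddHom.coe_mk, LinearMap.smul_apply, RingHom.id_apply,
      smul_mul_assoc]

variable [Module.Finite κ A]

/-- The finitely generated algebra of functions generated by the matrix coefficients. -/
lemma exists_alg (ρ : ℕ → (A →ₗ[κ] Matrix (Fin r) (Fin r) κ)) :
    ∃ P : Subalgebra κ (ℕ → κ), P.FG ∧ PFam P ρ := by
  classical
  let b := Module.finBasis κ (A →ₗ[κ] Matrix (Fin r) (Fin r) κ)
  refine ⟨Algebra.adjoin κ (Set.range (fun i => fun j => b.repr (ρ j) i)), ?_, ?_⟩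
  · refine ⟨(Set.finite_range (fun i => fun j => b.repr (ρ j) i)).toFinset, ?_⟩
    rw [Set.Finite.coe_toFinset]
  · refine PFam.of_basis b (fun i => ?_)
    exact Algebra.subset_adjoin ⟨i, rfl⟩

lemma det_PFam {P : Subalgebra κ (ℕ → κ)} (w : ℕ → Matrix (Fin r) (Fin r) κ) (hw : PFam P w) :
    (fun j => (w j).det) ∈ P := by
  refine det_mem w (fun a b => ?_)
  exact hw (Matrix.entryLinearMap κ κ a b)

/-- If `dim Hom (ρ i, ρ j) ≥ dim End (ρ i)` for all `i < j`, then two members of the sequence are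
isomorphic. -/
theorem exists_iso_of_hom_ge (ρ : ℕ → (A →ₗ[κ] Matrix (Fin r) (Fin r) κ))
    (h : ∀ i j, i < j → Module.finrank κ (LinearMap.ker (d0 (ρ i) (ρ i))) ≤
      Module.finrank κ (LinearMap.ker (d0 (ρ j) (ρ i)))) :
    ∃ i j, i < j ∧ ∃ U : Matrix (Fin r) (Fin r) κ, (∀ a, ρ j a * U = U * ρ i a) ∧ U.det ≠ 0 := by
  classical
  obtain ⟨P, hPfg, hP⟩ := exists_alg ρ
  obtain ⟨m, hm⟩ := exists_selection P hPfg
  have hΘ : ∀ U, PFam P (fun j => d0 (ρ j) (ρ m) U) := by
    intro U
    have h1 : (fun j => d0 (ρ j) (ρ m) U) = fun j => t0 U (ρ j) - (t0 U (ρ m) - d0 (ρ m) (ρ m) U) := by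
      ext j a : 2
      simp [t0]
    rw [h1]
    exact PFam.sub (PFam.map _ hP) (PFam.const _)
  obtain ⟨F, hFP, hFm, hF⟩ := exists_ker_elt (fun j => d0 (ρ j) (ρ m)) hΘ m 1
    (by ext1 a; simp) Matrix.det (fun w hw => det_PFam w hw) (by simp)
  obtain ⟨j, hmj, hFj⟩ := hm F hFP hFm
  obtain ⟨U, hU, hdet⟩ := hF j hFj (by
    have h1 := LinearMap.finrank_range_add_finrank_ker (d0 (ρ j) (ρ m))
    have h2 := LinearMap.finrank_range_add_finrank_ker (d0 (ρ m) (ρ m))
    have h3 := h m j hmj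
    omega)
  refine ⟨m, j, hmj, U, fun a => ?_, hdet⟩
  have := LinearMap.congr_fun hU a
  simpa [sub_eq_zero] using this

omit [Module.Finite κ A] in
lemma rank_nullity {W E : Type*} [AddCommGroup W] [Module κ W] [AddCommGroup E] [Module κ E]
    [Module.Finite κ W] (f : W →ₗ[κ] E) :
    Module.finrank κ (LinearMap.range f) + Module.finrank κ (LinearMap.ker f) =
      Module.finrank κ W :=
  LinearMap.finrank_range_add_finrank_ker f

/-- Rigid representations: among infinitely many of the same dimension two are isomorphic. -/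
theorem exists_iso_of_rigid (ρ : ℕ → (A →ₗ[κ] Matrix (Fin r) (Fin r) κ))
    (hmul : ∀ i a b, ρ i (a * b) = ρ i a * ρ i b)
    (h : ∀ i, ∀ D : A →ₗ[κ] Matrix (Fin r) (Fin r) κ,
      (∀ a b, D (a * b) = ρ i a * D b + D a * ρ i b) →
      ∃ U, ∀ a, D a = ρ i a * U - U * ρ i a) :
    ∃ i j, i < j ∧ ∃ U : Matrix (Fin r) (Fin r) κ, (∀ a, ρ j a * U = U * ρ i a) ∧ U.det ≠ 0 := by
  classical
  obtain ⟨P, hPfg, hP⟩ := exists_alg ρ
  obtain ⟨m, hm⟩ := exists_selection P hPfg
  have hΘ : ∀ U, PFam P (fun j => d0 (ρ j) (ρ m) U) := by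
    intro U
    have h1 : (fun j => d0 (ρ j) (ρ m) U) = fun j => t0 U (ρ j) - (t0 U (ρ m) - d0 (ρ m) (ρ m) U) := by
      ext j a : 2
      simp [t0]
    rw [h1]
    exact PFam.sub (PFam.map _ hP) (PFam.const _)
  have hΘ1 : ∀ D, PFam P (fun j => d1 (ρ j) (ρ m) D) := by
    intro D
    have h1 : (fun j => d1 (ρ j) (ρ m) D) =
        fun j => t1 D (ρ j) - (t1 D (ρ m) - d1 (ρ m) (ρ m) D) := by
      ext j a b : 3
      simp [t1]
      abel
    rw [h1]
    exact PFam.sub (PFam.map _ hP) (PFam.const _)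
  obtain ⟨F, hFP, hFm, hF⟩ := exists_ker_elt (fun j => d0 (ρ j) (ρ m)) hΘ m 1
    (by ext1 a; simp) Matrix.det (fun w hw => det_PFam w hw) (by simp)
  obtain ⟨G, hGP, hGm, hG⟩ := exists_rank_ge (P := P)
    (W := A →ₗ[κ] Matrix (Fin r) (Fin r) κ) (E := A →ₗ[κ] A →ₗ[κ] Matrix (Fin r) (Fin r) κ)
    (fun j => d1 (ρ j) (ρ m)) hΘ1 m
  obtain ⟨j, hmj, hFGj⟩ := hm (F * G) (P.mul_mem hFP hGP) (mul_ne_zero hFm hGm)
  have hFj : F j ≠ 0 := left_ne_zero_of_mul hFGj
  have hGj : G j ≠ 0 := right_ne_zero_of_mul hFGj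
  -- d1 ∘ d0 = 0
  have hcomp : ∀ j, LinearMap.range (d0 (ρ j) (ρ m)) ≤ LinearMap.ker (d1 (ρ j) (ρ m)) := by
    rintro j _ ⟨U, rfl⟩
    rw [LinearMap.mem_ker]
    ext1 a; ext1 b
    simp only [d1_apply, d0_apply, hmul, LinearMap.zero_apply, mul_sub, sub_mul, mul_assoc]
    abel
  have hexact : LinearMap.ker (d1 (ρ m) (ρ m)) ≤ LinearMap.range (d0 (ρ m) (ρ m)) := by
    intro D hD
    obtain ⟨U, hU⟩ := h m D (fun a b => by
      have := LinearMap.congr_fun (LinearMap.congr_fun (LinearMap.mem_ker.mp hD) a) b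
      simp only [d1_apply, LinearMap.zero_apply] at this
      have h2 : D (a * b) = ρ m a * D b + D a * ρ m b := by
        rw [← sub_eq_zero]
        rw [← neg_eq_zero, ← this]
        abel
      exact h2)
    exact ⟨U, by ext1 a; simp [hU a]⟩
  obtain ⟨U, hU, hdet⟩ := hF j hFj (by
    have h1 := rank_nullity (W := A →ₗ[κ] Matrix (Fin r) (Fin r) κ)
      (E := A →ₗ[κ] A →ₗ[κ] Matrix (Fin r) (Fin r) κ) (d1 (ρ j) (ρ m))
    have h2 := rank_nullity (W := A →ₗ[κ] Matrix (Fin r) (Fin r) κ)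
      (E := A →ₗ[κ] A →ₗ[κ] Matrix (Fin r) (Fin r) κ) (d1 (ρ m) (ρ m))
    have h3 := Submodule.finrank_mono (hcomp j)
    have h4 := Submodule.finrank_mono hexact
    have h5 := hG j hGj
    omega)
  refine ⟨m, j, hmj, U, fun a => ?_, hdet⟩
  have := LinearMap.congr_fun hU a
  simpa [sub_eq_zero] using this

end

end H42
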