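import Mathlib
import Pool.Agent.H42.Rep

/-!
# Sequences of modules over a finite-dimensional algebra

Helper file (seat helper42).
-/

set_option autoImplicit false
set_option linter.unusedSectionVars false

namespace H42

universe u

/-- Extension property: with respect to some finite free presentation `A^n → V`, every
homomorphism from the kernel to `V` extends to `A^n`.  (Equivalent to `Ext¹(V, V) = 0`.) -/
def EP (A : Type*) (V : Type*) [CommRing A] [AddCommGroup V] [Module A V] : Prop :=
  ∃ (n : ℕ) (π : (Fin n → A) →ₗ[A] V), Function.Surjective π ∧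
    ∀ φ : LinearMap.ker π →ₗ[A] V, ∃ ψ : (Fin n → A) →ₗ[A] V, ∀ x : LinearMap.ker π, ψ x = φ x

section

variable {κ A : Type*} [Field κ] [CommRing A] [Algebra κ A]

/-- Cocycles are coboundaries on modules with the extension property. -/
lemma EP.cocycle {V : Type*} [AddCommGroup V] [Module A V] [Module κ V] [IsScalarTower κ A V]
    (h : EP A V) (D : A →ₗ[κ] (V →ₗ[κ] V))
    (hD : ∀ a b v, D (a * b) v = a • D b v + D a (b • v)) :
    ∃ U : V →ₗ[κ] V, ∀ a v, D a v = a • U v - U (a • v) := by
  classical
  obtain ⟨n, π, hπ, hext⟩ := h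
  -- the map `μ`
  let e : Fin n → (Fin n → A) := fun s => Pi.single s 1
  have hD1 : ∀ v, D 1 v = 0 := by
    intro v
    have := hD 1 1 v
    simp only [mul_one, one_smul] at this
    simpa using this
  let μ : (Fin n → A) →ₗ[κ] V :=
    { toFun := fun x => ∑ s, D (x s) (π (e s))
      map_add' := by
        intro x y
        simp [Finset.sum_add_distrib]
      map_smul' := by
        intro c x
        simp [Finset.smul_sum] }
  have hμ : ∀ (a : A) (x : Fin n → A), μ (a • x) = a • μ x + D a (π x) := by
    intro a x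
    have hx : π x = ∑ s, x s • π (e s) := by
      conv_lhs => rw [pi_eq_sum_univ' x]
      simp only [map_sum, map_smul]
      refine Finset.sum_congr rfl (fun s _ => ?_)
      congr 2
    simp only [μ, LinearMap.coe_mk, AddHom.coe_mk, Pi.smul_apply, smul_eq_mul, hD,
      Finset.sum_add_distrib, Finset.smul_sum]
    rw [hx, map_sum]
  -- restriction to the kernel is `A`-linear
  let φ : LinearMap.ker π →ₗ[A] V :=
    { toFun := fun x => μ x
      map_add' := by intro x y; simp
      map_smul' := by
        intro a x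
        have h1 : π (x : Fin n → A) = 0 := x.2
        simp [hμ, h1] }
  obtain ⟨ψ, hψ⟩ := hext φ
  -- factor `μ - ψ` through `π`
  let δ : (Fin n → A) →ₗ[κ] V := μ - ψ.restrictScalars κ
  have hδ : ∀ x y, π x = π y → δ x = δ y := by
    intro x y hxy
    have h1 : x - y ∈ LinearMap.ker π := by simp [LinearMap.mem_ker, hxy]
    have h2 := hψ ⟨x - y, h1⟩
    have h3 : δ (x - y) = 0 := by
      simp only [δ, LinearMap.sub_apply, LinearMap.restrictScalars_apply]
      rw [h2]
      simp [φ]
    rw [map_sub, sub_eq_zero] at h3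
    exact h3
  let σ : V → (Fin n → A) := Function.surjInv hπ
  have hσ : ∀ v, π (σ v) = v := Function.surjInv_eq hπ
  let U : V →ₗ[κ] V :=
    { toFun := fun v => δ (σ v)
      map_add' := by
        intro v w
        rw [← map_add]
        exact hδ _ _ (by simp [hσ])
      map_smul' := by
        intro c v
        rw [RingHom.id_apply, ← map_smul]
        refine hδ _ _ ?_
        have : π (c • σ v) = c • π (σ v) := by
          rw [← LinearMap.restrictScalars_apply κ π, map_smul]; rfl
        rw [this, hσ, hσ] }
  have hU : ∀ x, U (π x) = δ x := fun x => hδ _ _ (by rw [hσ])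
  refine ⟨-U, fun a v => ?_⟩
  obtain ⟨x, rfl⟩ := hπ v
  have h1 : a • π x = π (a • x) := by simp
  simp only [LinearMap.neg_apply]
  rw [h1, hU, hU]
  simp only [δ, LinearMap.sub_apply, LinearMap.restrictScalars_apply, hμ, map_smul]
  simp only [smul_neg, smul_sub]
  abel

end

section Seq

variable {κ A : Type*} [Field κ] [CommRing A] [Algebra κ A] [Module.Finite κ A]
variable {r : ℕ} (N : ℕ → Type u) [∀ i, AddCommGroup (N i)] [∀ i, Module A (N i)]
  [∀ i, Module κ (N i)] [∀ i, IsScalarTower κ A (N i)]

/-- matrix of the action -/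
noncomputable def act {V : Type*} [AddCommGroup V] [Module A V] [Module κ V]
    [IsScalarTower κ A V] (b : Module.Basis (Fin r) κ V) : A →ₗ[κ] Matrix (Fin r) (Fin r) κ :=
  (LinearMap.toMatrix b b).toLinearMap ∘ₗ (Algebra.lsmul κ κ V).toLinearMap

lemma act_mul {V : Type*} [AddCommGroup V] [Module A V] [Module κ V]
    [IsScalarTower κ A V] (b : Module.Basis (Fin r) κ V) (a a' : A) :
    act b (a * a') = act b a * act (κ := κ) b a' := by
  simp only [act, LinearMap.comp_apply, AlgHom.toLinearMap_apply, map_mul,
    LinearEquiv.coe_coe, LinearMap.toMatrix_mul]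

lemma toLin_act {V : Type*} [AddCommGroup V] [Module A V] [Module κ V]
    [IsScalarTower κ A V] (b : Module.Basis (Fin r) κ V) (a : A) (v : V) :
    Matrix.toLin b b (act (κ := κ) b a) v = a • v := by
  simp [act]

/-- intertwining matrices are module homomorphisms -/
lemma toLin_smul {V W : Type*} [AddCommGroup V] [Module A V] [Module κ V]
    [IsScalarTower κ A V] [AddCommGroup W] [Module A W] [Module κ W] [IsScalarTower κ A W]
    (b : Module.Basis (Fin r) κ V) (c : Module.Basis (Fin r) κ W) (U : Matrix (Fin r) (Fin r) κ)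
    (a : A) (h : act (κ := κ) c a * U = U * act (κ := κ) b a) (v : V) :
    Matrix.toLin b c U (a • v) = a • Matrix.toLin b c U v := by
  rw [← toLin_act (κ := κ) b a v, ← toLin_act (κ := κ) c a]
  rw [← LinearMap.comp_apply, ← LinearMap.comp_apply, ← Matrix.toLin_mul, ← Matrix.toLin_mul, h]

lemma mul_toMatrix {V W : Type*} [AddCommGroup V] [Module A V] [Module κ V]
    [IsScalarTower κ A V] [AddCommGroup W] [Module A W] [Module κ W] [IsScalarTower κ A W]
    (b : Module.Basis (Fin r) κ V) (c : Module.Basis (Fin r) κ W) (f : V →ₗ[κ] W)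
    (a : A) (h : ∀ v, f (a • v) = a • f v) :
    act (κ := κ) c a * LinearMap.toMatrix b c f = LinearMap.toMatrix b c f * act (κ := κ) b a := by
  simp only [act, LinearMap.comp_apply, AlgHom.toLinearMap_apply, LinearEquiv.coe_coe]
  rw [← LinearMap.toMatrix_comp, ← LinearMap.toMatrix_comp]
  congr 1
  ext v
  simp [h]

/-- homomorphism spaces -/
noncomputable def kerEquiv {V W : Type*} [AddCommGroup V] [Module A V] [Module κ V]
    [IsScalarTower κ A V] [AddCommGroup W] [Module A W] [Module κ W] [IsScalarTower κ A W]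
    (b : Module.Basis (Fin r) κ V) (c : Module.Basis (Fin r) κ W) :
    (V →ₗ[A] W) ≃ₗ[κ] LinearMap.ker (d0 (act (A := A) (κ := κ) c) (act (κ := κ) b)) where
  toFun f := ⟨LinearMap.toMatrix b c (f.restrictScalars κ), by
    rw [LinearMap.mem_ker]
    ext1 a
    simp only [d0_apply, LinearMap.zero_apply]
    rw [mul_toMatrix b c _ a (by simp), sub_self]⟩
  map_add' f g := by
    apply Subtype.ext
    simp only [Submodule.coe_add]
    rw [← map_add]
    rfl
  map_smul' s f := by
    apply Subtype.ext
    simp only [Submodule.coe_smul, RingHom.id_apply]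
    rw [← map_smul]
    rfl
  invFun U :=
    { toFun := Matrix.toLin b c U.1
      map_add' := by intro x y; simp
      map_smul' := by
        intro a x
        refine toLin_smul b c U.1 a ?_ x
        have h1 : d0 (act (A := A) (κ := κ) c) (act (κ := κ) b) U.1 a = 0 := by
          rw [LinearMap.mem_ker.mp U.2]; rfl
        exact sub_eq_zero.mp h1 }
  left_inv f := by
    ext v
    simp
  right_inv U := by
    apply Subtype.ext
    change LinearMap.toMatrix b c _ = _
    conv_rhs => rw [← LinearMap.toMatrix_toLin b c U.1]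
    rfl

/-- invertible intertwiners give isomorphisms -/
lemma nonempty_equiv {V W : Type*} [AddCommGroup V] [Module A V] [Module κ V]
    [IsScalarTower κ A V] [AddCommGroup W] [Module A W] [Module κ W] [IsScalarTower κ A W]
    (b : Module.Basis (Fin r) κ V) (c : Module.Basis (Fin r) κ W) (U : Matrix (Fin r) (Fin r) κ)
    (h : ∀ a : A, act (κ := κ) c a * U = U * act (κ := κ) b a) (hU : U.det ≠ 0) :
    Nonempty (V ≃ₗ[A] W) := by
  let f : V →ₗ[A] W :=
    { toFun := Matrix.toLin b c U
      map_add' := by intro x y; simp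
      map_smul' := fun a x => toLin_smul b c U a (h a) x }
  have hbij : Function.Bijective (Matrix.toLin b c U) := by
    have hu : IsUnit (LinearMap.toMatrix b c (Matrix.toLin b c U)).det := by
      rw [LinearMap.toMatrix_toLin]
      exact isUnit_iff_ne_zero.mpr hU
    have := (LinearEquiv.ofIsUnitDet hu).bijective
    exact this
  exact ⟨LinearEquiv.ofBijective f hbij⟩

/-- III.a : if `dim Hom (N i, N j) ≥ dim End (N i)` for all `i < j`, two members are isomorphic. -/
theorem exists_equiv_of_hom_ge [∀ i, Module.Finite κ (N i)]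
    (hr : ∀ i, Module.finrank κ (N i) = r)
    (h : ∀ i j, i < j → Module.finrank κ (N i →ₗ[A] N i) ≤ Module.finrank κ (N i →ₗ[A] N j)) :
    ∃ i j, i < j ∧ Nonempty (N i ≃ₗ[A] N j) := by
  let b : ∀ i, Module.Basis (Fin r) κ (N i) := fun i => Module.finBasisOfFinrankEq κ (N i) (hr i)
  obtain ⟨i, j, hij, U, hU, hdet⟩ := exists_iso_of_hom_ge
    (fun i => act (A := A) (κ := κ) (b i)) (fun i j hij => by
      rw [← (kerEquiv (A := A) (b i) (b i)).finrank_eq, ← (kerEquiv (A := A) (b i) (b j)).finrank_eq]
      exact h i j hij)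
  exact ⟨i, j, hij, nonempty_equiv (b i) (b j) U hU hdet⟩

/-- III.b : among infinitely many rigid modules of the same dimension, two are isomorphic. -/
theorem exists_equiv_of_EP [∀ i, Module.Finite κ (N i)]
    (hr : ∀ i, Module.finrank κ (N i) = r) (h : ∀ i, EP A (N i)) :
    ∃ i j, i < j ∧ Nonempty (N i ≃ₗ[A] N j) := by
  let b : ∀ i, Module.Basis (Fin r) κ (N i) := fun i => Module.finBasisOfFinrankEq κ (N i) (hr i)
  obtain ⟨i, j, hij, U, hU, hdet⟩ := exists_iso_of_rigid
    (fun i => act (A := A) (κ := κ) (b i)) (fun i a a' => act_mul (b i) a a') (fun i D hD => by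
      let D' : A →ₗ[κ] (N i →ₗ[κ] N i) := (Matrix.toLin (b i) (b i)).toLinearMap ∘ₗ D
      obtain ⟨U, hU⟩ := (h i).cocycle D' (by
        intro a a' v
        simp only [D', LinearMap.comp_apply, LinearEquiv.coe_coe]
        rw [hD, map_add, LinearMap.add_apply, Matrix.toLin_mul (b i) (b i) (b i),
          Matrix.toLin_mul (b i) (b i) (b i), LinearMap.comp_apply, LinearMap.comp_apply,
          toLin_act, toLin_act])
      refine ⟨LinearMap.toMatrix (b i) (b i) U, fun a => ?_⟩
      have h1 : D' a = (Matrix.toLin (b i) (b i) (act (κ := κ) (b i) a)) ∘ₗ U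
          - U ∘ₗ (Matrix.toLin (b i) (b i) (act (κ := κ) (b i) a)) := by
        ext v
        simp only [LinearMap.sub_apply, LinearMap.comp_apply, toLin_act]
        exact hU a v
      have h2 : D a = LinearMap.toMatrix (b i) (b i) (D' a) := by
        simp [D']
      rw [h2, h1, map_sub, LinearMap.toMatrix_comp (b i) (b i) (b i),
        LinearMap.toMatrix_comp (b i) (b i) (b i), LinearMap.toMatrix_toLin])
  exact ⟨i, j, hij, nonempty_equiv (b i) (b j) U hU hdet⟩

end Seq

end H42
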