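import Mathlib
import Pool.Agent.H42.ModSeq
import Pool.Agent.H42.CoeffField

/-!
# Sequences of modules over an Artinian local ring containing a field

Helper file (seat helper42).
-/

set_option autoImplicit false
set_option linter.unusedSectionVars false

namespace H42

universe u v

open IsLocalRing

section Length

variable (κ A : Type*) [Field κ] [CommRing A] [IsLocalRing A] [Algebra κ A]

lemma length_coeff (hs : Function.Surjective ((residue A).comp (algebraMap κ A)))
    (M : Type*) [AddCommGroup M] [Module A M] [Module κ M] [IsScalarTower κ A M] :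
    Module.length κ M = Module.length A M := by
  have hloc : IsLocalHom (algebraMap κ A) := inferInstance
  rw [IsLocalRing.length_restrictScalars κ A M]
  have hsurj : Function.Surjective (algebraMap (ResidueField κ) (ResidueField A)) := by
    intro y
    obtain ⟨x, hx⟩ := hs y
    refine ⟨residue κ x, ?_⟩
    rw [← hx]
    rfl
  have h1 : Module.length (ResidueField κ) (ResidueField A) = 1 := by
    rw [Module.length_eq_of_surjective (R := ResidueField A) hsurj]
    exact Module.length_eq_one _ _
  rw [h1, mul_one]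

lemma finite_coeff (hs : Function.Surjective ((residue A).comp (algebraMap κ A)))
    (M : Type*) [AddCommGroup M] [Module A M] [Module κ M] [IsScalarTower κ A M]
    (hM : Module.length A M ≠ ⊤) : Module.Finite κ M := by
  rw [← length_coeff κ A hs M, Module.length_ne_top_iff,
    isFiniteLength_iff_isNoetherian_isArtinian] at hM
  have := hM.1
  infer_instance

lemma finrank_coeff (hs : Function.Surjective ((residue A).comp (algebraMap κ A)))
    (M : Type*) [AddCommGroup M] [Module A M] [Module κ M] [IsScalarTower κ A M]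
    (hM : Module.length A M ≠ ⊤) : (Module.finrank κ M : ℕ∞) = Module.length A M := by
  have := finite_coeff κ A hs M hM
  rw [← length_coeff κ A hs M, Module.length_eq_finrank]

end Length

/-- A ring contains a field. -/
def HasField (A : Type*) [CommRing A] : Prop :=
  ∃ K : Subring A, IsField K

lemma HasField.exists_perfect {A : Type*} [CommRing A] [Nontrivial A] (h : HasField A) :
    (Nonempty (Algebra ℚ A)) ∨ ∃ p : ℕ, ∃ _ : Fact p.Prime, Nonempty (Algebra (ZMod p) A) := by
  obtain ⟨K, hK⟩ := h
  let _ : Field K := hK.toField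
  obtain ⟨p, hp⟩ := CharP.exists K
  rcases CharP.char_is_prime_or_zero K p with hp' | hp'
  · right
    have : Fact p.Prime := ⟨hp'⟩
    let _ : Algebra (ZMod p) K := ZMod.algebra K p
    exact ⟨p, ⟨hp'⟩, ⟨(K.subtype.comp (algebraMap (ZMod p) K)).toAlgebra⟩⟩
  · left
    subst hp'
    have : CharZero K := CharP.charP_to_charZero K
    let _ : Algebra ℚ K := DivisionRing.toRatAlgebra
    exact ⟨(K.subtype.comp (algebraMap ℚ K)).toAlgebra⟩

lemma HasField.exists_coeff {A : Type*} [CommRing A] [IsLocalRing A] (h : HasField A)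
    (hn : IsNilpotent (maximalIdeal A)) :
    ∃ s : ResidueField A →+* A, ∀ x, residue A (s x) = x := by
  rcases h.exists_perfect with ⟨⟨hQ⟩⟩ | ⟨p, hp, ⟨hF⟩⟩
  · exact exists_coeff_field ℚ A hn
  · exact exists_coeff_field (ZMod p) A hn

/-- An infinite sequence of naturals bounded by `b` has a constant subsequence. -/
lemma exists_const_subseq {α : Type*} [Finite α] (c : ℕ → α) :
    ∃ (a : α) (φ : ℕ → ℕ), StrictMono φ ∧ ∀ i, c (φ i) = a := by
  obtain ⟨a, ha⟩ := Finite.exists_infinite_fiber c
  have hinf : (c ⁻¹' {a}).Infinite := Set.infinite_coe_iff.mp ha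
  refine ⟨a, Nat.nth (fun n => c n = a), Nat.nth_strictMono hinf, fun i => ?_⟩
  exact Nat.nth_mem_of_infinite hinf i

section Art

variable {A : Type v} [CommRing A] [IsLocalRing A] [IsArtinianRing A]

/-- Among infinitely many rigid modules of bounded length over an Artinian local ring containing a
field, two are isomorphic. -/
theorem exists_equiv_of_EP_art (hA : HasField A) (N : ℕ → Type u) [∀ i, AddCommGroup (N i)]
    [∀ i, Module A (N i)] (b : ℕ) (hb : ∀ i, Module.length A (N i) ≤ b)
    (hEP : ∀ i, EP A (N i)) : ∃ i j, i < j ∧ Nonempty (N i ≃ₗ[A] N j) := by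
  classical
  have hn : IsNilpotent (maximalIdeal A) :=
    (isArtinianRing_iff_isNilpotent_maximalIdeal A).mp inferInstance
  obtain ⟨s, hs⟩ := hA.exists_coeff hn
  let κ := ResidueField A
  let _ : Algebra κ A := s.toAlgebra
  have hsurj : Function.Surjective ((residue A).comp (algebraMap κ A)) := by
    intro x
    exact ⟨x, hs x⟩
  let hmod : ∀ i, Module κ (N i) := fun i => Module.compHom (N i) s
  have htower : ∀ i, IsScalarTower κ A (N i) := fun i =>
    { smul_assoc := fun x y z => by
        rw [Algebra.smul_def, mul_smul]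
        rfl }
  have hAfin : Module.Finite κ A := finite_coeff κ A hsurj A Module.length_ne_top
  have hne : ∀ i, Module.length A (N i) ≠ ⊤ := fun i =>
    ne_top_of_le_ne_top (ENat.natCast_ne_top b) (hb i)
  have hNfin : ∀ i, Module.Finite κ (N i) := fun i => finite_coeff κ A hsurj (N i) (hne i)
  have hfr : ∀ i, Module.finrank κ (N i) < b + 1 := fun i => by
    have h1 := finrank_coeff κ A hsurj (N i) (hne i)
    have h2 := hb i
    rw [← h1] at h2
    exact Nat.lt_succ_of_le (by exact_mod_cast h2)
  obtain ⟨r, φ, hφ, hr⟩ := exists_const_subseq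
    (fun i => (⟨Module.finrank κ (N i), hfr i⟩ : Fin (b + 1)))
  obtain ⟨i, j, hij, ⟨e⟩⟩ := exists_equiv_of_EP (κ := κ) (A := A) (r := r) (fun i => N (φ i))
    (fun i => congrArg Fin.val (hr i)) (fun i => hEP (φ i))
  exact ⟨φ i, φ j, hφ hij, ⟨e⟩⟩

/-- If `length Hom (N i, N i) ≤ length Hom (N i, N j)` for all `i < j` then two of the modules are
isomorphic. -/
theorem exists_equiv_of_hom_art (hA : HasField A) (N : ℕ → Type u) [∀ i, AddCommGroup (N i)]
    [∀ i, Module A (N i)] (b : ℕ) (hb : ∀ i, Module.length A (N i) ≤ b)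
    (h : ∀ i j, i < j → Module.length A (N i →ₗ[A] N i) ≤ Module.length A (N i →ₗ[A] N j)) :
    ∃ i j, i < j ∧ Nonempty (N i ≃ₗ[A] N j) := by
  classical
  have hn : IsNilpotent (maximalIdeal A) :=
    (isArtinianRing_iff_isNilpotent_maximalIdeal A).mp inferInstance
  obtain ⟨s, hs⟩ := hA.exists_coeff hn
  let κ := ResidueField A
  let _ : Algebra κ A := s.toAlgebra
  have hsurj : Function.Surjective ((residue A).comp (algebraMap κ A)) := by
    intro x
    exact ⟨x, hs x⟩
  let hmod : ∀ i, Module κ (N i) := fun i => Module.compHom (N i) s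
  have htower : ∀ i, IsScalarTower κ A (N i) := fun i =>
    { smul_assoc := fun x y z => by
        rw [Algebra.smul_def, mul_smul]
        rfl }
  have hAfin : Module.Finite κ A := finite_coeff κ A hsurj A Module.length_ne_top
  have hne : ∀ i, Module.length A (N i) ≠ ⊤ := fun i =>
    ne_top_of_le_ne_top (ENat.natCast_ne_top b) (hb i)
  have hNfin : ∀ i, Module.Finite κ (N i) := fun i => finite_coeff κ A hsurj (N i) (hne i)
  have hfr : ∀ i, Module.finrank κ (N i) < b + 1 := fun i => by
    have h1 := finrank_coeff κ A hsurj (N i) (hne i)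
    have h2 := hb i
    rw [← h1] at h2
    exact Nat.lt_succ_of_le (by exact_mod_cast h2)
  have hHfin : ∀ i j, Module.Finite κ (N i →ₗ[A] N j) := fun i j =>
    Module.Finite.of_injective (LinearMap.restrictScalarsₗ κ A (N i) (N j) κ)
      (LinearMap.restrictScalars_injective κ)
  have hHlen : ∀ i j, (Module.finrank κ (N i →ₗ[A] N j) : ℕ∞)
      = Module.length A (N i →ₗ[A] N j) := fun i j => by
    have h1 := length_coeff κ A hsurj (N i →ₗ[A] N j)
    rw [← h1, Module.length_eq_finrank]
  obtain ⟨r, φ, hφ, hr⟩ := exists_const_subseq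
    (fun i => (⟨Module.finrank κ (N i), hfr i⟩ : Fin (b + 1)))
  obtain ⟨i, j, hij, ⟨e⟩⟩ := exists_equiv_of_hom_ge (κ := κ) (A := A) (r := r)
    (fun i => N (φ i))
    (fun i => congrArg Fin.val (hr i)) (fun i j hij => by
      have h1 := h (φ i) (φ j) (hφ hij)
      rw [← hHlen, ← hHlen] at h1
      exact_mod_cast h1)
  exact ⟨φ i, φ j, hφ hij, ⟨e⟩⟩

end Art

end H42
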