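import Mathlib
import Pool.Agent.H42.ArtSeq

/-!
# Rings containing a field

Helper file (seat helper42).
-/

set_option autoImplicit false
set_option linter.unusedSectionVars false

namespace H42

open IsLocalRing

universe u v

lemma HasField.of_ringHom {K A : Type*} [Field K] [CommRing A] [Nontrivial A] (f : K →+* A) :
    HasField A := by
  refine ⟨f.range, ?_⟩
  have e : K ≃+* f.range := RingEquiv.ofBijective f.rangeRestrict
    ⟨fun a b h => f.injective (congrArg Subtype.val h), f.rangeRestrict_surjective⟩
  exact MulEquiv.isField (Field.toIsField K) e.symm.toMulEquiv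

lemma HasField.map {A B : Type*} [CommRing A] [CommRing B] [Nontrivial B] (h : HasField A)
    (f : A →+* B) : HasField B := by
  obtain ⟨K, hK⟩ := h
  let _ : Field K := hK.toField
  exact HasField.of_ringHom (f.comp K.subtype)

lemma HasField.of_natCast_eq_zero {A : Type*} [CommRing A] [Nontrivial A] (p : ℕ) (hp : p.Prime)
    (h : (p : A) = 0) : HasField A := by
  have : Fact p.Prime := ⟨hp⟩
  have h1 : ringChar A ∣ p := ringChar.dvd h
  have h2 : ringChar A = p := by
    rcases (Nat.dvd_prime hp).mp h1 with h2 | h2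
    · exact absurd h2 (CharP.ringChar_ne_one)
    · exact h2
  have h3 : CharP A p := by
    rw [← h2]
    exact ringChar.charP A
  exact HasField.of_ringHom (ZMod.castHom (dvd_refl p) A)

lemma isUnit_natCast_of_not_dvd {R : Type*} [CommRing R] [IsLocalRing R] (p : ℕ) (hp : p.Prime)
    (hpm : (p : R) ∈ maximalIdeal R) (m : ℕ) (hm : ¬ p ∣ m) : IsUnit (m : R) := by
  by_contra hcon
  have h1 : (m : R) ∈ maximalIdeal R := hcon
  have h2 : IsCoprime (p : ℤ) (m : ℤ) := by
    rw [Nat.isCoprime_iff_coprime]
    exact (Nat.Prime.coprime_iff_not_dvd hp).mpr hm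
  obtain ⟨a, b, hab⟩ := h2
  have h3 : (a : R) * (p : R) + (b : R) * (m : R) = 1 := by
    have := congrArg (Int.cast : ℤ → R) hab
    push_cast at this
    exact this
  have h4 : (1 : R) ∈ maximalIdeal R := by
    rw [← h3]
    exact Ideal.add_mem _ (Ideal.mul_mem_left _ _ hpm) (Ideal.mul_mem_left _ _ h1)
  exact (Ideal.ne_top_iff_one _).mp (IsLocalRing.maximalIdeal.isMaximal R).ne_top h4

lemma HasField.of_isUnit_natCast {A : Type*} [CommRing A] [Nontrivial A]
    (h : ∀ n : ℕ, n ≠ 0 → IsUnit (n : A)) : HasField A := by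
  have h1 : ∀ y : nonZeroDivisors ℤ, IsUnit (Int.castRingHom A y) := by
    intro y
    have hy : (y : ℤ) ≠ 0 := nonZeroDivisors.ne_zero y.2
    have h2 : IsUnit (((y : ℤ).natAbs : ℕ) : A) := h _ (Int.natAbs_ne_zero.mpr hy)
    rcases Int.natAbs_eq (y : ℤ) with h3 | h3
    · have h4 : (Int.castRingHom A y) = (((y : ℤ).natAbs : ℕ) : A) := by
        conv_lhs => rw [h3]
        simp
      rw [h4]; exact h2
    · have h4 : (Int.castRingHom A y) = -(((y : ℤ).natAbs : ℕ) : A) := by
        conv_lhs => rw [h3]
        simp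
      rw [h4]; exact h2.neg
  exact HasField.of_ringHom (IsLocalization.lift (M := nonZeroDivisors ℤ) (S := ℚ) h1)

/-- If `p` is in the maximal ideal and becomes a unit in `A`, then `A` contains a field. -/
lemma HasField.of_isUnit_prime {R A : Type*} [CommRing R] [IsLocalRing R] [CommRing A]
    [Nontrivial A] [Algebra R A] (p : ℕ) (hp : p.Prime) (hpm : (p : R) ∈ maximalIdeal R)
    (hu : IsUnit (p : A)) : HasField A := by
  refine HasField.of_isUnit_natCast (fun n hn => ?_)
  obtain ⟨e, m, hm, rfl⟩ := Nat.exists_eq_pow_mul_and_not_dvd hn p hp.ne_one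
  push_cast
  refine (hu.pow e).mul ?_
  have h1 := (isUnit_natCast_of_not_dvd p hp hpm m hm).map (algebraMap R A)
  rwa [map_natCast] at h1

/-- A local ring which is a domain contains a field, or a prime number lies in the maximal ideal
and is a nonzerodivisor. -/
lemma domain_cases (R : Type*) [CommRing R] [IsLocalRing R] [IsDomain R] :
    HasField R ∨ ∃ p : ℕ, p.Prime ∧ (p : R) ∈ maximalIdeal R ∧ (p : R) ∈ nonZeroDivisors R := by
  obtain ⟨p, hp⟩ := CharP.exists (ResidueField R)
  rcases CharP.char_is_prime_or_zero (ResidueField R) p with hpp | hp0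
  · have h1 : (p : R) ∈ maximalIdeal R := by
      rw [← residue_eq_zero_iff, map_natCast]
      exact CharP.cast_eq_zero _ p
    by_cases h0 : (p : R) = 0
    · exact Or.inl (HasField.of_natCast_eq_zero p hpp h0)
    · exact Or.inr ⟨p, hpp, h1, mem_nonZeroDivisors_of_ne_zero h0⟩
  · left
    subst hp0
    have hchar : CharZero (ResidueField R) := CharP.charP_to_charZero _
    refine HasField.of_isUnit_natCast (fun n hn => ?_)
    by_contra hcon
    have h1 : (n : R) ∈ maximalIdeal R := hcon
    rw [← residue_eq_zero_iff, map_natCast] at h1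
    exact hn (Nat.cast_eq_zero.mp h1)

end H42
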