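import Mathlib
import Pool.Agent.H42.ModSeq

/-!
# Rigid modules and the extension property

Helper file (seat helper42).
-/

set_option autoImplicit false
set_option linter.unusedSectionVars false

namespace H42

universe u

/-- A finite module all of whose self-extensions split has the extension property. -/
theorem EP.of_split {R : Type u} [CommRing R] (M : Type u) [AddCommGroup M] [Module R M]
    [Module.Finite R M]
    (h : ∀ (E : Type u) [AddCommGroup E] [Module R E] (f : M →ₗ[R] E) (g : E →ₗ[R] M),
      Function.Injective f → Function.Surjective g → LinearMap.range f = LinearMap.ker g →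
      ∃ s : M →ₗ[R] E, g ∘ₗ s = LinearMap.id) : EP R M := by
  classical
  obtain ⟨n, π, hπ⟩ := Module.Finite.exists_fin' R M
  refine ⟨n, π, hπ, fun φ => ?_⟩
  -- the pushout
  let T : LinearMap.ker π →ₗ[R] (M × (Fin n → R)) :=
    φ.prod (-(LinearMap.ker π).subtype)
  let E := (M × (Fin n → R)) ⧸ LinearMap.range T
  let q : (M × (Fin n → R)) →ₗ[R] E := (LinearMap.range T).mkQ
  let f : M →ₗ[R] E := q ∘ₗ LinearMap.inl R M (Fin n → R)
  let g : E →ₗ[R] M := (LinearMap.range T).liftQ (π ∘ₗ LinearMap.snd R M (Fin n → R)) (by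
    rintro _ ⟨w, rfl⟩
    have : π (w : Fin n → R) = 0 := w.2
    simp [T, this])
  have hgq : ∀ y, g (q y) = π y.2 := fun y => rfl
  have hf : Function.Injective f := by
    rw [← LinearMap.ker_eq_bot, LinearMap.ker_eq_bot']
    intro m hm
    have h1 : ((m, 0) : M × (Fin n → R)) ∈ LinearMap.range T := by
      rw [← Submodule.Quotient.mk_eq_zero]
      exact hm
    obtain ⟨w, hw⟩ := h1
    have hw1 : φ w = m := congrArg Prod.fst hw
    have hw2 : -(w : Fin n → R) = 0 := congrArg Prod.snd hw
    have hw3 : w = 0 := by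
      apply Subtype.ext
      simpa using hw2
    rw [← hw1, hw3, map_zero]
  have hg : Function.Surjective g := by
    intro m
    obtain ⟨x, hx⟩ := hπ m
    exact ⟨q (0, x), by rw [hgq]; exact hx⟩
  -- key relation
  have hrel : ∀ w : LinearMap.ker π, q (0, (w : Fin n → R)) = f (φ w) := by
    intro w
    have h1 : T (-w) ∈ LinearMap.range T := ⟨_, rfl⟩
    have h2 : q (T (-w)) = 0 := by
      simp only [q]
      rw [Submodule.mkQ_apply, Submodule.Quotient.mk_eq_zero]
      exact h1
    have h3 : T (-w) = (0, (w : Fin n → R)) - (φ w, 0) := by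
      simp [T]
    rw [h3, map_sub, sub_eq_zero] at h2
    exact h2
  have hrange : LinearMap.range f = LinearMap.ker g := by
    apply le_antisymm
    · rintro _ ⟨m, rfl⟩
      rw [LinearMap.mem_ker]
      simp only [f, LinearMap.comp_apply, LinearMap.inl_apply]
      rw [hgq]
      simp
    · intro y hy
      obtain ⟨⟨m, x⟩, rfl⟩ := Submodule.mkQ_surjective _ y
      have hx : π x = 0 := hy
      refine ⟨m + φ ⟨x, hx⟩, ?_⟩
      rw [map_add, ← hrel ⟨x, hx⟩]
      simp only [f, LinearMap.comp_apply, LinearMap.inl_apply]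
      rw [← map_add]
      simp only [q, Prod.mk_add_mk, add_zero, zero_add]
  obtain ⟨s, hs⟩ := h E f g hf hg hrange
  -- the difference
  have hdiff : ∀ x : Fin n → R, s (π x) - q (0, x) ∈ LinearMap.range f := by
    intro x
    rw [hrange, LinearMap.mem_ker, map_sub, hgq]
    have := LinearMap.congr_fun hs (π x)
    simp only [LinearMap.comp_apply, LinearMap.id_apply] at this
    rw [this, sub_self]
  let e : M ≃ₗ[R] LinearMap.range f := LinearEquiv.ofInjective f hf
  let D : (Fin n → R) →ₗ[R] LinearMap.range f :=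
    LinearMap.codRestrict (LinearMap.range f) (s ∘ₗ π - q ∘ₗ LinearMap.inr R M (Fin n → R)) (by
      intro x
      exact hdiff x)
  let ψ : (Fin n → R) →ₗ[R] M := e.symm.toLinearMap ∘ₗ D
  have hψ : ∀ x, f (ψ x) = s (π x) - q (0, x) := by
    intro x
    have h1 : (e (e.symm (D x)) : E) = D x := by rw [e.apply_symm_apply]
    exact h1
  refine ⟨-ψ, fun x => ?_⟩
  apply hf
  have hx : π (x : Fin n → R) = 0 := x.2
  rw [LinearMap.neg_apply, map_neg, hψ, hx, map_zero, hrel, zero_sub, neg_neg]

section Lift

variable {R : Type*} [CommRing R] {M : Type*} [AddCommGroup M] [Module R M]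

/-- Endomorphisms of a rigid module modulo a regular element lift. -/
theorem EP.exists_lift (h : EP R M) (x : R) (hx : IsSMulRegular M x) (I : Submodule R M)
    (hmem : ∀ m : M, m ∈ I ↔ ∃ m', x • m' = m) (g : M →ₗ[R] M ⧸ I) :
    ∃ φ : M →ₗ[R] M, ∀ m, I.mkQ (φ m) = g m := by
  classical
  obtain ⟨n, π, hπ, hext⟩ := h
  obtain ⟨G, hG⟩ := Module.projective_lifting_property I.mkQ (g ∘ₗ π) (Submodule.mkQ_surjective I)
  have hG' : ∀ y, I.mkQ (G y) = g (π y) := fun y => LinearMap.congr_fun hG y
  have hker : ∀ w : LinearMap.ker π, ∃ m', x • m' = G w := by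
    intro w
    rw [← hmem, ← Submodule.Quotient.mk_eq_zero, ← Submodule.mkQ_apply, hG']
    have : π (w : Fin n → R) = 0 := w.2
    rw [this, map_zero]
  choose τ hτ using hker
  let T : LinearMap.ker π →ₗ[R] M :=
    { toFun := τ
      map_add' := by
        intro a b
        apply hx
        change x • τ (a + b) = x • (τ a + τ b)
        rw [smul_add, hτ, hτ, hτ]
        simp
      map_smul' := by
        intro c a
        apply hx
        change x • τ (c • a) = x • (c • τ a)
        rw [hτ, smul_comm x c, hτ]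
        simp }
  obtain ⟨ψ, hψ⟩ := hext T
  let δ : (Fin n → R) →ₗ[R] M := G - x • ψ
  have hδ : LinearMap.ker π ≤ LinearMap.ker δ := by
    intro w hw
    rw [LinearMap.mem_ker]
    have h1 := hψ ⟨w, hw⟩
    have h2 := hτ ⟨w, hw⟩
    simp only [δ, LinearMap.sub_apply, LinearMap.smul_apply]
    rw [h1]
    change G w - x • τ ⟨w, hw⟩ = 0
    rw [h2, sub_self]
  let φ : M →ₗ[R] M := (LinearMap.ker π).liftQ δ hδ ∘ₗ
    (π.quotKerEquivOfSurjective hπ).symm.toLinearMap
  have hφ : ∀ y, φ (π y) = δ y := by
    intro y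
    have h1 : (π.quotKerEquivOfSurjective hπ).symm (π y) = Submodule.Quotient.mk y := by
      rw [LinearEquiv.symm_apply_eq]
      rfl
    simp only [φ, LinearMap.comp_apply, LinearEquiv.coe_coe]
    rw [h1]
    rfl
  refine ⟨φ, fun m => ?_⟩
  obtain ⟨y, rfl⟩ := hπ m
  rw [hφ, ← hG']
  simp only [δ, LinearMap.sub_apply, LinearMap.smul_apply]
  rw [map_sub]
  have h2 : I.mkQ (x • ψ y) = 0 := by
    rw [Submodule.mkQ_apply, Submodule.Quotient.mk_eq_zero, hmem]
    exact ⟨_, rfl⟩
  rw [h2, sub_zero]

end Lift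

section Localize

variable {R : Type*} [CommRing R] [IsNoetherianRing R] (S : Submonoid R)
  {R' : Type*} [CommRing R'] [Algebra R R'] [IsLocalization S R']
  {M : Type*} [AddCommGroup M] [Module R M]
  {M' : Type*} [AddCommGroup M'] [Module R M'] [Module R' M'] [IsScalarTower R R' M']
  (f : M →ₗ[R] M') [IsLocalizedModule S f]

include f S in
/-- The extension property localizes. -/
theorem EP.localize (h : EP R M) : EP R' M' := by
  classical
  obtain ⟨n, π, hπ, hext⟩ := h
  let e : Fin n → (Fin n → R) := fun i => Pi.single i 1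
  let ι : (Fin n → R) →ₗ[R] (Fin n → R') :=
    { toFun := fun x i => algebraMap R R' (x i)
      map_add' := by intro x y; ext i; simp
      map_smul' := by intro c x; ext i; simp [Algebra.smul_def] }
  let ext' : (Fin n → M') → ((Fin n → R') →ₗ[R'] M') := fun v =>
    (Pi.basisFun R' (Fin n)).constr R' v
  have hext' : ∀ (v : Fin n → M') (y : Fin n → R'), ext' v y = ∑ i, y i • v i := by
    intro v y
    simp [ext', Module.Basis.constr_apply_fintype]
  have hsum : ∀ (g : (Fin n → R) →ₗ[R] M) (x : Fin n → R), g x = ∑ i, x i • g (e i) := by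
    intro g x
    conv_lhs => rw [pi_eq_sum_univ' x]
    simp only [map_sum, map_smul]
    refine Finset.sum_congr rfl (fun s _ => ?_)
    congr 2
  have hkey : ∀ (g : (Fin n → R) →ₗ[R] M) (c : R') (x : Fin n → R),
      ext' (fun i => c • f (g (e i))) (ι x) = c • f (g x) := by
    intro g c x
    rw [hext', hsum g x, map_sum, Finset.smul_sum]
    refine Finset.sum_congr rfl (fun i _ => ?_)
    rw [map_smul]
    simp only [ι, LinearMap.coe_mk, AddHom.coe_mk]
    rw [smul_comm, algebraMap_smul, smul_comm]
  let π' : (Fin n → R') →ₗ[R'] M' := ext' (fun i => (1 : R') • f (π (e i)))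
  have hπ' : ∀ x, π' (ι x) = f (π x) := by
    intro x
    have := hkey π 1 x
    rw [one_smul] at this
    exact this
  have hunit : ∀ (s : S) (m₁ m₂ : M'), (s : R) • m₁ = (s : R) • m₂ → m₁ = m₂ := by
    intro s m₁ m₂ h
    have := (Module.End.isUnit_iff _).mp (IsLocalizedModule.map_units f s)
    exact this.1 h
  have hsurj : Function.Surjective π' := by
    intro m'
    obtain ⟨⟨m, s⟩, hs⟩ := IsLocalizedModule.surj S f m'
    obtain ⟨x, rfl⟩ := hπ m
    refine ⟨IsLocalization.mk' R' 1 s • ι x, ?_⟩
    rw [map_smul, hπ']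
    apply hunit s
    simp only at hs
    rw [← algebraMap_smul R' (s : R), smul_smul, IsLocalization.mk'_spec', map_one, one_smul, ← hs]
    rfl
  refine ⟨n, π', hsurj, fun φ => ?_⟩
  let φ₀ : LinearMap.ker π →ₗ[R] M' :=
    { toFun := fun w => φ ⟨ι w, by
        rw [LinearMap.mem_ker, hπ']
        have : π (w : Fin n → R) = 0 := w.2
        rw [this, map_zero]⟩
      map_add' := by
        intro a b
        rw [← map_add]
        congr 1
        apply Subtype.ext
        simp
      map_smul' := by
        intro c a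
        rw [RingHom.id_apply, ← algebraMap_smul R' c (φ _), ← map_smul]
        congr 1
        apply Subtype.ext
        simp }
  have hfp : Module.FinitePresentation R (LinearMap.ker π) :=
    Module.finitePresentation_of_finite R _
  obtain ⟨τ, s, hτ⟩ := Module.FinitePresentation.exists_lift_of_isLocalizedModule S f φ₀
  obtain ⟨T, hT⟩ := hext τ
  let c : R' := IsLocalization.mk' R' 1 s
  let ψ : (Fin n → R') →ₗ[R'] M' := ext' (fun i => c • f (T (e i)))
  refine ⟨ψ, fun w' => ?_⟩
  -- common denominator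
  obtain ⟨b, hb⟩ := IsLocalization.exist_integer_multiples_of_finite S (w' : Fin n → R')
  choose x hx using hb
  have hx' : ι x = (b : R) • (w' : Fin n → R') := by
    ext i
    exact hx i
  have h1 : f (π x) = 0 := by
    rw [← hπ', hx', ← algebraMap_smul R' (b : R), map_smul]
    have : π' (w' : Fin n → R') = 0 := w'.2
    rw [this, smul_zero]
  obtain ⟨t, ht⟩ := (IsLocalizedModule.eq_zero_iff S f).mp h1
  have h2 : π ((t : R) • x) = 0 := by
    rw [map_smul]
    exact ht
  apply hunit (t * b)
  have h3 : ι ((t : R) • x) = ((t * b : S) : R) • (w' : Fin n → R') := by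
    rw [map_smul, hx', smul_smul]
    rfl
  have h4 : ((t * b : S) : R) • ψ w' = ψ (ι ((t : R) • x)) := by
    rw [h3, ← algebraMap_smul R' ((t * b : S) : R), ← map_smul, algebraMap_smul]
  have h5 : ((t * b : S) : R) • φ w' = φ₀ ⟨(t : R) • x, h2⟩ := by
    rw [← algebraMap_smul R' ((t * b : S) : R), ← map_smul, algebraMap_smul]
    simp only [φ₀, LinearMap.coe_mk, AddHom.coe_mk]
    congr 1
    apply Subtype.ext
    exact h3.symm
  rw [h4, h5, hkey]
  have h6 : T ((t : R) • x) = τ ⟨(t : R) • x, h2⟩ := hT ⟨(t : R) • x, h2⟩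
  rw [h6]
  have h7 : f (τ ⟨(t : R) • x, h2⟩) = (s : R) • φ₀ ⟨(t : R) • x, h2⟩ :=
    LinearMap.congr_fun hτ _
  rw [h7, ← algebraMap_smul R' (s : R), smul_smul]
  simp only [c]
  rw [IsLocalization.mk'_spec, map_one, one_smul]

end Localize

end H42
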