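import Mathlib
import Pool.Agent.H42.Rigid

/-!
# Modules over one-dimensional local rings

Helper file (seat helper42).
-/

set_option autoImplicit false
set_option linter.unusedSectionVars false

namespace H42

section FiniteLength

variable {R : Type*} [CommRing R] [IsNoetherianRing R]

lemma isArtinianRing_quotient (I : Ideal R) (h : ∀ Q : Ideal R, Q.IsPrime → I ≤ Q → Q.IsMaximal) :
    IsArtinianRing (R ⧸ I) := by
  rw [isArtinianRing_iff_krullDimLE_zero]
  refine Ring.KrullDimLE.mk₀ (fun J hJ => ?_)
  have h1 : (J.comap (Ideal.Quotient.mk I)).IsMaximal := by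
    apply h _ (Ideal.IsPrime.comap _)
    intro r hr
    rw [Ideal.mem_comap, Ideal.Quotient.eq_zero_iff_mem.mpr hr]
    exact J.zero_mem
  have h2 : ((J.comap (Ideal.Quotient.mk I)).map (Ideal.Quotient.mk I)).IsMaximal := by
    refine Ideal.IsMaximal.map_of_surjective_of_ker_le Ideal.Quotient.mk_surjective ?_
    intro r hr
    rw [Ideal.mem_comap, RingHom.mem_ker.mp hr]
    exact J.zero_mem
  rwa [Ideal.map_comap_of_surjective _ Ideal.Quotient.mk_surjective] at h2

lemma length_ne_top_of_ann (I : Ideal R) (hI : IsArtinianRing (R ⧸ I)) (C : Type*) [AddCommGroup C]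
    [Module R C] [Module.Finite R C] (h : ∀ r ∈ I, ∀ c : C, r • c = 0) :
    Module.length R C ≠ ⊤ := by
  have ht : Module.IsTorsionBySet R C (I : Set R) := by
    intro c r
    exact h r r.2 c
  let _ : Module (R ⧸ I) C := ht.module
  have hst : IsScalarTower R (R ⧸ I) C := inferInstance
  have hfin : Module.Finite (R ⧸ I) C := Module.Finite.of_restrictScalars_finite R (R ⧸ I) C
  rw [Module.length_eq_of_surjective (R := R ⧸ I) (S := R) (M := C)
    Ideal.Quotient.mk_surjective]
  have h1 : IsArtinian (R ⧸ I) C := inferInstance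
  have h2 : IsNoetherian (R ⧸ I) C := inferInstance
  exact Module.length_ne_top

end FiniteLength

section Index

variable {R : Type*} [CommRing R] {H H' : Type*} [AddCommGroup H] [Module R H]
  [AddCommGroup H'] [Module R H']

/-- If `F : H' → H` is injective with cokernel of finite length and `x` is regular on `H`, then
`H / xH` and `H' / xH'` have the same length. -/
theorem length_quot_eq (x : R) (hx : IsSMulRegular H x) (F : H' →ₗ[R] H)
    (hF : Function.Injective F) (hC : Module.length R (H ⧸ LinearMap.range F) ≠ ⊤)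
    (I : Submodule R H) (hI : ∀ m, m ∈ I ↔ ∃ m', x • m' = m)
    (I' : Submodule R H') (hI' : ∀ m, m ∈ I' ↔ ∃ m', x • m' = m) :
    Module.length R (H ⧸ I) = Module.length R (H' ⧸ I') := by
  let W := H ⧸ I'.map F
  -- first exact sequence
  have h1 : Module.length R W = Module.length R (H' ⧸ I') +
      Module.length R (H ⧸ LinearMap.range F) := by
    let a : (H' ⧸ I') →ₗ[R] W := I'.mapQ (I'.map F) F (Submodule.le_comap_map F I')
    let b : W →ₗ[R] (H ⧸ LinearMap.range F) := (I'.map F).mapQ (LinearMap.range F) LinearMap.id (by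
      rintro _ ⟨y, -, rfl⟩
      exact ⟨y, rfl⟩)
    refine Module.length_eq_add_of_exact a b ?_ ?_ ?_
    · rw [← LinearMap.ker_eq_bot, LinearMap.ker_eq_bot']
      intro y hy
      obtain ⟨y, rfl⟩ := Submodule.mkQ_surjective _ y
      have h2 : F y ∈ I'.map F := by
        rw [← Submodule.Quotient.mk_eq_zero]
        exact hy
      obtain ⟨z, hz, hz'⟩ := h2
      rw [Submodule.mkQ_apply, Submodule.Quotient.mk_eq_zero, ← hF hz']
      exact hz
    · intro y
      obtain ⟨y, rfl⟩ := Submodule.mkQ_surjective _ y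
      exact ⟨Submodule.Quotient.mk y, rfl⟩
    · intro y
      constructor
      · intro hy
        obtain ⟨y, rfl⟩ := Submodule.mkQ_surjective _ y
        have h2 : y ∈ LinearMap.range F := by
          rw [← Submodule.Quotient.mk_eq_zero]
          exact hy
        obtain ⟨z, rfl⟩ := h2
        exact ⟨Submodule.Quotient.mk z, rfl⟩
      · rintro ⟨z, rfl⟩
        obtain ⟨z, rfl⟩ := Submodule.mkQ_surjective _ z
        change (LinearMap.range F).mkQ (F z) = 0
        rw [Submodule.mkQ_apply, Submodule.Quotient.mk_eq_zero]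
        exact ⟨z, rfl⟩
  -- second exact sequence
  have h2 : Module.length R W = Module.length R (H ⧸ LinearMap.range F) +
      Module.length R (H ⧸ I) := by
    have hle : I'.map F ≤ I := by
      rintro _ ⟨y, hy, rfl⟩
      obtain ⟨z, rfl⟩ := (hI' y).mp hy
      exact (hI _).mpr ⟨F z, by simp⟩
    let a : (H ⧸ LinearMap.range F) →ₗ[R] W :=
      (LinearMap.range F).mapQ (I'.map F) (LinearMap.lsmul R H x) (by
        rintro _ ⟨y, rfl⟩
        exact ⟨x • y, (hI' _).mpr ⟨y, rfl⟩, by simp⟩)
    let b : W →ₗ[R] (H ⧸ I) := (I'.map F).mapQ I LinearMap.id (by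
      intro y hy
      exact hle hy)
    refine Module.length_eq_add_of_exact a b ?_ ?_ ?_
    · rw [← LinearMap.ker_eq_bot, LinearMap.ker_eq_bot']
      intro y hy
      obtain ⟨y, rfl⟩ := Submodule.mkQ_surjective _ y
      have h3 : x • y ∈ I'.map F := by
        rw [← Submodule.Quotient.mk_eq_zero]
        exact hy
      obtain ⟨z, hz, hz'⟩ := h3
      obtain ⟨w, rfl⟩ := (hI' z).mp hz
      rw [map_smul] at hz'
      rw [Submodule.mkQ_apply, Submodule.Quotient.mk_eq_zero]
      exact ⟨w, hx hz'⟩
    · intro y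
      obtain ⟨y, rfl⟩ := Submodule.mkQ_surjective _ y
      exact ⟨Submodule.Quotient.mk y, rfl⟩
    · intro y
      constructor
      · intro hy
        obtain ⟨y, rfl⟩ := Submodule.mkQ_surjective _ y
        have h3 : y ∈ I := by
          rw [← Submodule.Quotient.mk_eq_zero]
          exact hy
        obtain ⟨z, rfl⟩ := (hI y).mp h3
        exact ⟨Submodule.Quotient.mk z, rfl⟩
      · rintro ⟨z, rfl⟩
        obtain ⟨z, rfl⟩ := Submodule.mkQ_surjective _ z
        change I.mkQ (x • z) = 0
        rw [Submodule.mkQ_apply, Submodule.Quotient.mk_eq_zero]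
        exact (hI _).mpr ⟨z, rfl⟩
  rw [h1, add_comm] at h2
  exact (WithTop.add_left_inj hC).mp h2.symm

end Index

end H42
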