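import Mathlib
import Pool.Agent.H42.DimOne

/-!
# Gluing homomorphisms over the minimal primes

Helper file (seat helper42).
-/

set_option autoImplicit false
set_option linter.unusedSectionVars false

namespace H42

section Glue

variable {R : Type*} [CommRing R]

/-- For distinct minimal primes `P`, `Q` there is an element outside `P` which vanishes in the
localization at `Q`. -/
lemma exists_separating (P Q : Ideal R) (hP : P ∈ minimalPrimes R) (hQ : Q ∈ minimalPrimes R)
    (hne : P ≠ Q) : ∃ t u : R, t ∉ P ∧ u ∉ Q ∧ u * t = 0 := by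
  have hPp : P.IsPrime := Ideal.IsMinimalPrime.isPrime hP
  have hQp : Q.IsPrime := Ideal.IsMinimalPrime.isPrime hQ
  obtain ⟨y, hyQ, hyP⟩ : ∃ y ∈ Q, y ∉ P := by
    by_contra hcon
    push Not at hcon
    have h1 : Q ≤ P := hcon
    have h2 : P ≤ Q := by
      have := hP.2 ⟨hQp, bot_le⟩ h1
      exact this
    exact hne (le_antisymm h2 h1)
  have hdim : Ring.KrullDimLE 0 (Localization.AtPrime Q) :=
    Ring.KrullDimLE.of_isLocalization Q hQ (Localization.AtPrime Q)
  have hnil : IsNilpotent (algebraMap R (Localization.AtPrime Q) y) := by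
    rw [Ring.KrullDimLE.isNilpotent_iff_mem_maximalIdeal]
    exact (IsLocalization.AtPrime.to_map_mem_maximal_iff (Localization.AtPrime Q) Q y).mpr hyQ
  obtain ⟨n, hn⟩ := hnil
  rw [← map_pow, IsLocalization.map_eq_zero_iff Q.primeCompl] at hn
  obtain ⟨u, hu⟩ := hn
  exact ⟨y ^ n, u, fun h => hyP (hPp.mem_of_pow_mem n h), u.2, hu⟩

variable [IsNoetherianRing R] {ι : Type*} [Finite ι] (p : ι → Ideal R)
  [hp : ∀ i, (p i).IsPrime]

/-- Gluing isomorphisms at the minimal primes. -/
theorem exists_glue (hmin : ∀ i, p i ∈ minimalPrimes R) (hinj : Function.Injective p)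
    {M M' : Type*} [AddCommGroup M] [Module R M] [Module.Finite R M]
    [AddCommGroup M'] [Module R M'] [Module.Finite R M']
    (e : ∀ i, Nonempty (LocalizedModule (p i).primeCompl M ≃ₗ[R]
      LocalizedModule (p i).primeCompl M')) :
    ∃ f : M →ₗ[R] M', (∀ m, f m = 0 → ∀ i, ∃ s ∉ p i, s • m = 0) ∧
      (∀ m', ∀ i, ∃ s ∉ p i, ∃ m, f m = s • m') := by
  classical
  cases nonempty_fintype ι
  have hfp : Module.FinitePresentation R M := Module.finitePresentation_of_finite R M
  replace e := fun i => (e i).some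
  let a : ∀ i, M →ₗ[R] LocalizedModule (p i).primeCompl M :=
    fun i => LocalizedModule.mkLinearMap (p i).primeCompl M
  let a' : ∀ i, M' →ₗ[R] LocalizedModule (p i).primeCompl M' :=
    fun i => LocalizedModule.mkLinearMap (p i).primeCompl M'
  have hlift : ∀ i, ∃ (g : M →ₗ[R] M') (s : (p i).primeCompl),
      a' i ∘ₗ g = s • ((e i).toLinearMap ∘ₗ a i) := fun i =>
    Module.FinitePresentation.exists_lift_of_isLocalizedModule (p i).primeCompl (a' i)
      ((e i).toLinearMap ∘ₗ a i)
  choose g s hg using hlift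
  have hsep : ∀ i j, ∃ t u : R, t ∉ p i ∧ u ∉ p j ∧ (i ≠ j → u * t = 0) := by
    intro i j
    by_cases hij : i = j
    · refine ⟨1, 1, ?_, ?_, fun h => absurd hij h⟩
      · exact fun h => (hp i).ne_top ((Ideal.eq_top_iff_one _).mpr h)
      · exact fun h => (hp j).ne_top ((Ideal.eq_top_iff_one _).mpr h)
    · obtain ⟨t, u, h1, h2, h3⟩ := exists_separating (p i) (p j) (hmin i) (hmin j)
        (fun h => hij (hinj h))
      exact ⟨t, u, h1, h2, fun _ => h3⟩
  choose t u ht hu htu using hsep
  let c : ι → R := fun i => ∏ j ∈ Finset.univ.erase i, t i j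
  have hc : ∀ i, c i ∉ p i := by
    intro i h
    obtain ⟨j, -, hj⟩ := (Ideal.IsPrime.prod_mem_iff).mp h
    exact ht i j hj
  -- `c j` vanishes in the localization at `p i`
  have hcu : ∀ i j, j ≠ i → u j i * c j = 0 := by
    intro i j hij
    have h1 : i ∈ Finset.univ.erase j := by
      simp [Ne.symm hij]
    have h2 : c j = t j i * ∏ k ∈ (Finset.univ.erase j).erase i, t j k :=
      (Finset.mul_prod_erase (Finset.univ.erase j) (fun k => t j k) h1).symm
    rw [h2, ← mul_assoc, htu j i hij, zero_mul]
  let f : M →ₗ[R] M' := ∑ i, c i • g i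
  -- localization of `f` at `p i`
  have hzero : ∀ i (r v : R) (m : LocalizedModule (p i).primeCompl M'), v ∉ p i → v * r = 0 →
      r • m = 0 := by
    intro i r v m hv hvr
    have h1 := IsLocalizedModule.smul_injective (a' i) (⟨v, hv⟩ : (p i).primeCompl)
    apply h1
    simp only [smul_zero]
    rw [Submonoid.smul_def, smul_smul]
    change (v * r) • m = 0
    rw [hvr, zero_smul]
  have hf : ∀ i m, a' i (f m) = (c i * (s i : R)) • e i (a i m) := by
    intro i m
    have h1 : a' i (f m) = ∑ j, c j • a' i (g j m) := by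
      simp [f, LinearMap.sum_apply]
    rw [h1, Finset.sum_eq_single i]
    · have h2 := LinearMap.congr_fun (hg i) m
      simp only [LinearMap.comp_apply, LinearMap.smul_apply] at h2
      rw [h2, Submonoid.smul_def, smul_smul]
      rfl
    · intro j _ hj
      exact hzero i (c j) (u j i) _ (hu j i) (hcu i j hj)
    · intro h
      exact absurd (Finset.mem_univ i) h
  have hcs : ∀ i, c i * (s i : R) ∉ p i := by
    intro i h
    rcases (hp i).mem_or_mem h with h | h
    · exact hc i h
    · exact (s i).2 h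
  have hreg : ∀ i (m₁ m₂ : LocalizedModule (p i).primeCompl M'),
      (c i * (s i : R)) • m₁ = (c i * (s i : R)) • m₂ → m₁ = m₂ := by
    intro i m₁ m₂ h
    exact IsLocalizedModule.smul_injective (a' i) (⟨_, hcs i⟩ : (p i).primeCompl) h
  refine ⟨f, ?_, ?_⟩
  · intro m hm i
    have h1 : (c i * (s i : R)) • e i (a i m) = (c i * (s i : R)) • 0 := by
      rw [← hf, hm, map_zero, smul_zero]
    have h2 := hreg i _ _ h1
    rw [LinearEquiv.map_eq_zero_iff] at h2
    obtain ⟨v, hv⟩ := (IsLocalizedModule.eq_zero_iff (p i).primeCompl (a i)).mp h2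
    exact ⟨v, v.2, hv⟩
  · intro m' i
    -- preimage of `m'` under `e i`
    obtain ⟨⟨m, v⟩, hv⟩ := IsLocalizedModule.surj (p i).primeCompl (a i) ((e i).symm (a' i m'))
    simp only at hv
    have h1 : a' i (f m) = (c i * (s i : R) * (v : R)) • a' i m' := by
      rw [hf, ← hv, Submonoid.smul_def, map_smul, LinearEquiv.apply_symm_apply, smul_smul]
    rw [← map_smul] at h1
    obtain ⟨w, hw⟩ := IsLocalizedModule.exists_of_eq (S := (p i).primeCompl) h1
    refine ⟨(w : R) * (c i * (s i : R) * (v : R)), ?_, (w : R) • m, ?_⟩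
    · intro h
      rcases (hp i).mem_or_mem h with h | h
      · exact w.2 h
      · rcases (hp i).mem_or_mem h with h | h
        · exact hcs i h
        · exact v.2 h
    · rw [map_smul, ← smul_smul]
      exact hw

end Glue

end H42
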