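import Mathlib
import Pool.Agent.H42.Glue

/-!
# Generators and lengths

Helper file (seat helper42).
-/

set_option autoImplicit false
set_option linter.unusedSectionVars false

namespace H42

section Gen

variable {R : Type*} [CommRing R]

/-- A module of length at most `b` is generated by `b` elements. -/
lemma exists_generators (b : ℕ) : ∀ (N : Type*) [AddCommGroup N] [Module R N],
    Module.length R N ≤ b → ∃ g : Fin b → N, Submodule.span R (Set.range g) = ⊤ := by
  induction b with
  | zero =>
    intro N _ _ h
    have h1 : Module.length R N = 0 := by simpa using h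
    have h2 : Subsingleton N := Module.length_eq_zero_iff.mp h1
    exact ⟨fun _ => 0, Subsingleton.elim _ _⟩
  | succ b ih =>
    intro N _ _ h
    by_cases hN : Subsingleton N
    · exact ⟨fun _ => 0, Subsingleton.elim _ _⟩
    · have hN' : Nontrivial N := not_subsingleton_iff_nontrivial.mp hN
      obtain ⟨n, hn⟩ := exists_ne (0 : N)
      let L : Submodule R N := Submodule.span R {n}
      have hL : Nontrivial L := ⟨⟨⟨n, Submodule.mem_span_singleton_self n⟩, 0, fun h => hn
        (congrArg Subtype.val h)⟩⟩
      have h1 : Module.length R N = Module.length R L + Module.length R (N ⧸ L) :=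
        Module.length_eq_add_of_exact L.subtype L.mkQ L.subtype_injective L.mkQ_surjective
          (LinearMap.exact_subtype_mkQ L)
      have h2 : 1 ≤ Module.length R L := by
        rw [Order.one_le_iff_pos]
        exact Module.length_pos
      have h3 : Module.length R (N ⧸ L) ≤ b := by
        have h4 : 1 + Module.length R (N ⧸ L) ≤ (b : ℕ∞) + 1 := by
          calc 1 + Module.length R (N ⧸ L) ≤ Module.length R L + Module.length R (N ⧸ L) := by
                gcongr
            _ = Module.length R N := h1.symm
            _ ≤ ((b + 1 : ℕ) : ℕ∞) := h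
            _ = (b : ℕ∞) + 1 := by simp
        rw [add_comm] at h4
        exact (ENat.add_le_add_iff_right (by simp)).mp h4
      obtain ⟨g, hg⟩ := ih (N ⧸ L) h3
      choose g' hg' using fun i => L.mkQ_surjective (g i)
      refine ⟨Fin.cons n g', ?_⟩
      rw [eq_top_iff]
      intro y _
      have h5 : L.mkQ y ∈ Submodule.span R (Set.range g) := by rw [hg]; trivial
      have h6 : Set.range g = L.mkQ '' (Set.range g') := by
        rw [← Set.range_comp]
        congr 1
        ext i
        exact (hg' i).symm
      rw [h6, ← Submodule.map_span] at h5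
      obtain ⟨z, hz, hz'⟩ := h5
      have h7 : y - z ∈ L := by
        rw [← Submodule.Quotient.mk_eq_zero, ← Submodule.mkQ_apply, map_sub, hz', sub_self]
      have h8 : y = (y - z) + z := by abel
      rw [h8]
      refine Submodule.add_mem _ ?_ ?_
      · refine Submodule.span_mono ?_ h7
        rintro _ rfl
        exact ⟨0, by simp⟩
      · refine Submodule.span_mono ?_ hz
        rintro _ ⟨i, rfl⟩
        exact ⟨i.succ, by simp⟩

variable [IsLocalRing R]

open IsLocalRing in
/-- Nakayama: `b` generators modulo `I ≤ 𝔪`. -/
lemma exists_generators_local (b : ℕ) (M : Type*) [AddCommGroup M] [Module R M]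
    [Module.Finite R M] (I : Submodule R M) (hI : I ≤ maximalIdeal R • (⊤ : Submodule R M))
    (h : Module.length R (M ⧸ I) ≤ b) :
    ∃ g : Fin b → M, Submodule.span R (Set.range g) = ⊤ := by
  have h1 : Module.length R (M ⧸ (maximalIdeal R • (⊤ : Submodule R M))) ≤ b := by
    refine le_trans (Module.length_le_of_surjective (I.mapQ _ LinearMap.id hI) ?_) h
    intro y
    obtain ⟨y, rfl⟩ := Submodule.mkQ_surjective _ y
    exact ⟨Submodule.Quotient.mk y, rfl⟩
  obtain ⟨g, hg⟩ := exists_generators b _ h1
  choose g' hg' using fun i => (maximalIdeal R • (⊤ : Submodule R M)).mkQ_surjective (g i)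
  refine ⟨g', ?_⟩
  rw [← IsLocalRing.map_mkQ_eq_top, Submodule.map_span, ← Set.range_comp, ← hg]
  congr 2
  ext i
  exact hg' i

/-- Bound for the length of a localization. -/
lemma length_localization_le {R : Type*} [CommRing R] (S : Submonoid R)
    (R' : Type*) [CommRing R'] [Algebra R R'] [IsLocalization S R']
    {M : Type*} [AddCommGroup M] [Module R M]
    {M' : Type*} [AddCommGroup M'] [Module R M'] [Module R' M'] [IsScalarTower R R' M']
    (f : M →ₗ[R] M') [IsLocalizedModule S f] (b : ℕ) (g : Fin b → M)
    (hg : Submodule.span R (Set.range g) = ⊤) :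
    Module.length R' M' ≤ b * Module.length R' R' := by
  have h1 : Submodule.span R' (f '' Set.range g) = ⊤ := span_eq_top_of_isLocalizedModule R' S f hg
  rw [← Set.range_comp] at h1
  have h2 : Function.Surjective (Fintype.linearCombination R' (f ∘ g)) := by
    rw [← LinearMap.range_eq_top, Fintype.range_linearCombination, h1]
  refine (Module.length_le_of_surjective _ h2).trans ?_
  rw [Module.length_pi]
  simp

end Gen

end H42
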