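import Mathlib
import Pool.Agent.H42.Gen
import Pool.Agent.H42.ArtSeq

/-!
# Sequences of rigid modules over one-dimensional local rings

Helper file (seat helper42).
-/

set_option autoImplicit false
set_option linter.unusedSectionVars false

namespace H42

open IsLocalRing

universe u v

/-- A relation on `ℕ` such that every sequence has two related members has an infinite class. -/
lemma exists_subseq_of_forall_seq {ι : Type*} [Finite ι] (r : ι → Setoid ℕ)
    (h : ∀ a, ∀ f : ℕ → ℕ, ∃ i j, i < j ∧ (r a) (f i) (f j)) :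
    ∃ φ : ℕ → ℕ, StrictMono φ ∧ ∀ i j a, (r a) (φ i) (φ j) := by
  classical
  have hfin : ∀ a, Finite (Quotient (r a)) := by
    intro a
    by_contra hcon
    have hinf : Infinite (Quotient (r a)) := not_finite_iff_infinite.mp hcon
    let f := Infinite.natEmbedding (Quotient (r a))
    obtain ⟨i, j, hij, hr⟩ := h a (fun i => (f i).out)
    have h1 : f i = f j := by
      rw [← Quotient.out_eq (f i), ← Quotient.out_eq (f j)]
      exact Quotient.sound hr
    exact absurd (f.injective h1) hij.ne
  obtain ⟨c, φ, hφ, hc⟩ := exists_const_subseq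
    (fun n => (fun a => (Quotient.mk (r a) n) : ∀ a, Quotient (r a)))
  refine ⟨φ, hφ, fun i j a => ?_⟩
  have h1 := congrFun ((hc i).trans (hc j).symm) a
  exact Quotient.exact h1

section

variable {R : Type v} [CommRing R] [IsLocalRing R] [IsNoetherianRing R] [Ring.KrullDimLE 1 R]

lemma mem_of_not_minimal (x : R) (hxm : x ∈ maximalIdeal R) (Q : Ideal R) (hQ : Q.IsPrime)
    (h : Q ∉ minimalPrimes R) : x ∈ Q := by
  rcases Ring.krullDimLE_one_iff.mp (inferInstance : Ring.KrullDimLE 1 R) Q hQ with h1 | h1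
  · exact absurd h1 h
  · rwa [IsLocalRing.eq_maximalIdeal h1]

lemma pow_mem_of_not_le (x : R) (hxm : x ∈ maximalIdeal R) (I : Ideal R)
    (h : ∀ P ∈ minimalPrimes R, ∃ s ∉ P, s ∈ I) : ∃ n, x ^ n ∈ I := by
  have h1 : x ∈ I.radical := by
    rw [Ideal.radical_eq_sInf, Submodule.mem_sInf]
    rintro Q ⟨hIQ, hQ⟩
    apply mem_of_not_minimal x hxm Q hQ
    intro hQ'
    obtain ⟨s, hs, hs'⟩ := h Q hQ'
    exact hs (hIQ hs')
  exact h1

lemma isArtinianRing_quotient_span (x : R) (hx : ∀ P ∈ minimalPrimes R, x ∉ P) :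
    IsArtinianRing (R ⧸ Ideal.span {x}) := by
  apply isArtinianRing_quotient
  intro Q hQ hle
  rcases Ring.krullDimLE_one_iff.mp (inferInstance : Ring.KrullDimLE 1 R) Q hQ with h1 | h1
  · exact absurd (hle (Ideal.mem_span_singleton_self x)) (hx Q h1)
  · exact h1

lemma isArtinianRing_quotient_span_pow (x : R) (hx : ∀ P ∈ minimalPrimes R, x ∉ P) (n : ℕ) :
    IsArtinianRing (R ⧸ Ideal.span {x ^ n}) := by
  apply isArtinianRing_quotient_span
  intro P hP h
  exact hx P hP ((Ideal.IsMinimalPrime.isPrime hP).mem_of_pow_mem n h)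

/-- The generic isomorphism types take finitely many values along a sequence of rigid modules. -/
theorem exists_subseq_generic
    (hloc : ∀ (P : Ideal R) (hP : P ∈ minimalPrimes R),
      HasField (Localization (@Ideal.primeCompl R _ P (Ideal.IsMinimalPrime.isPrime hP))))
    (M : ℕ → Type u) [∀ i, AddCommGroup (M i)] [∀ i, Module R (M i)]
    [∀ i, Module.Finite R (M i)] (b : ℕ) (g : ∀ i, Fin b → M i)
    (hg : ∀ i, Submodule.span R (Set.range (g i)) = ⊤) (hEP : ∀ i, EP R (M i)) :
    ∃ φ : ℕ → ℕ, StrictMono φ ∧ ∀ i j, ∀ (P : Ideal R) (hP : P ∈ minimalPrimes R),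
      Nonempty (LocalizedModule (@Ideal.primeCompl R _ P (Ideal.IsMinimalPrime.isPrime hP))
          (M (φ i)) ≃ₗ[R]
        LocalizedModule (@Ideal.primeCompl R _ P (Ideal.IsMinimalPrime.isPrime hP))
          (M (φ j))) := by
  classical
  let ι := {P : Ideal R // P ∈ minimalPrimes R}
  have hι : Finite ι := (minimalPrimes.finite_of_isNoetherianRing R).to_subtype
  have hp : ∀ P : ι, P.1.IsPrime := fun P => Ideal.IsMinimalPrime.isPrime P.2
  let r : ι → Setoid ℕ := fun P =>
    { r := fun i j => Nonempty (LocalizedModule (@Ideal.primeCompl R _ P.1 (hp P)) (M i) ≃ₗ[R]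
        LocalizedModule (@Ideal.primeCompl R _ P.1 (hp P)) (M j))
      iseqv :=
        { refl := fun i => ⟨LinearEquiv.refl R _⟩
          symm := fun ⟨e⟩ => ⟨e.symm⟩
          trans := fun ⟨e⟩ ⟨e'⟩ => ⟨e.trans e'⟩ } }
  obtain ⟨φ, hφ, h⟩ := exists_subseq_of_forall_seq r (by
    intro P f
    have hPp := hp P
    let S := P.1.primeCompl
    have hdim : Ring.KrullDimLE 0 (Localization.AtPrime P.1) :=
      Ring.KrullDimLE.of_isLocalization P.1 P.2 (Localization.AtPrime P.1)
    have hart : IsArtinianRing (Localization.AtPrime P.1) := by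
      rw [isArtinianRing_iff_krullDimLE_zero]
      exact hdim
    have hfin : Module.length (Localization.AtPrime P.1) (Localization.AtPrime P.1) ≠ ⊤ :=
      Module.length_ne_top
    obtain ⟨l, hl⟩ := ENat.ne_top_iff_exists.mp hfin
    obtain ⟨i, j, hij, ⟨e⟩⟩ := exists_equiv_of_EP_art (A := Localization.AtPrime P.1)
      (hloc P.1 P.2) (fun i => LocalizedModule P.1.primeCompl (M (f i))) (b * l) (by
        intro i
        have h1 := length_localization_le P.1.primeCompl (Localization.AtPrime P.1)
          (LocalizedModule.mkLinearMap P.1.primeCompl (M (f i))) b (g (f i)) (hg (f i))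
        rw [← hl] at h1
        push_cast
        exact h1) (by
        intro i
        exact EP.localize P.1.primeCompl (LocalizedModule.mkLinearMap P.1.primeCompl (M (f i)))
          (hEP (f i)))
    exact ⟨i, j, hij, ⟨e.restrictScalars R⟩⟩)
  exact ⟨φ, hφ, fun i j P hP => h i j ⟨P, hP⟩⟩

end

end H42
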