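import Mathlib
import Pool.Agent.H42.SeqOne

/-!
# Rigid modules over one-dimensional local rings: two members are isomorphic

Helper file (seat helper42).
-/

set_option autoImplicit false
set_option linter.unusedSectionVars false

namespace H42

open IsLocalRing

universe u v

section HomLemmas

variable {R : Type v} [CommRing R]

/-- The submodule `x • H`. -/
def xsub (x : R) (H : Type*) [AddCommGroup H] [Module R H] : Submodule R H :=
  LinearMap.range (LinearMap.lsmul R H x)

lemma mem_xsub {x : R} {H : Type*} [AddCommGroup H] [Module R H] (h : H) :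
    h ∈ xsub x H ↔ ∃ h', x • h' = h := Iff.rfl

lemma mem_span_smul_top {x : R} {H : Type*} [AddCommGroup H] [Module R H] (h : H) :
    h ∈ Ideal.span {x} • (⊤ : Submodule R H) ↔ ∃ h', x • h' = h := by
  rw [Submodule.ideal_span_singleton_smul, Submodule.mem_smul_pointwise_iff_exists]
  simp

variable (x : R) (V W : Type*) [AddCommGroup V] [Module R V] [AddCommGroup W] [Module R W]

/-- Composition with the reduction modulo `x`. -/
def redHom : (V →ₗ[R] W) →ₗ[R] (V →ₗ[R] W ⧸ (Ideal.span {x} • (⊤ : Submodule R W))) :=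
  LinearMap.compRight R (Submodule.mkQ _)

@[simp] lemma redHom_apply (φ : V →ₗ[R] W) (v : V) :
    redHom x V W φ v = Submodule.Quotient.mk (φ v) := rfl

variable {x V W}

lemma isSMulRegular_hom (hx : IsSMulRegular W x) : IsSMulRegular (V →ₗ[R] W) x := by
  intro φ ψ h
  ext v
  apply hx
  exact LinearMap.congr_fun h v

lemma ker_redHom (hx : IsSMulRegular W x) : LinearMap.ker (redHom x V W) = xsub x (V →ₗ[R] W) := by
  apply le_antisymm
  · intro φ hφ
    have h1 : ∀ v, ∃ w, x • w = φ v := by
      intro v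
      have h2 := LinearMap.congr_fun hφ v
      rw [redHom_apply, LinearMap.zero_apply, Submodule.Quotient.mk_eq_zero,
        mem_span_smul_top] at h2
      exact h2
    choose w hw using h1
    refine ⟨{ toFun := w, map_add' := ?_, map_smul' := ?_ }, ?_⟩
    · intro a b
      apply hx
      change x • w (a + b) = x • (w a + w b)
      rw [smul_add, hw, hw, hw, map_add]
    · intro c a
      apply hx
      change x • w (c • a) = x • (c • w a)
      rw [hw, smul_comm, hw, map_smul]
    · ext v
      exact hw v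
  · rintro _ ⟨φ, rfl⟩
    rw [LinearMap.mem_ker]
    ext v
    rw [redHom_apply, LinearMap.zero_apply, Submodule.Quotient.mk_eq_zero, mem_span_smul_top]
    exact ⟨φ v, rfl⟩

lemma length_range_redHom (hx : IsSMulRegular W x) :
    Module.length R (LinearMap.range (redHom x V W)) =
      Module.length R ((V →ₗ[R] W) ⧸ xsub x (V →ₗ[R] W)) := by
  rw [← ker_redHom hx]
  exact (LinearMap.quotKerEquivRange (redHom x V W)).length_eq.symm

lemma redHom_surjective (hx : IsSMulRegular V x) (h : EP R V) :
    Function.Surjective (redHom x V V) := by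
  intro g
  obtain ⟨φ, hφ⟩ := h.exists_lift x hx _ (fun m => mem_span_smul_top m) g
  exact ⟨φ, by ext m; exact hφ m⟩

variable (x V W)

/-- Abbreviation for the reduction modulo `x`. -/
abbrev Red (x : R) (V : Type*) [AddCommGroup V] [Module R V] : Type _ :=
  V ⧸ (Ideal.span {x} • (⊤ : Submodule R V))

/-- Homomorphisms of the reductions, seen as homomorphisms to the reduction. -/
def redMap : (Red x V →ₗ[R ⧸ Ideal.span {x}] Red x W) →ₗ[R] (V →ₗ[R] Red x W) where
  toFun φ := (φ.restrictScalars R) ∘ₗ (Submodule.mkQ _)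
  map_add' _ _ := rfl
  map_smul' _ _ := rfl

lemma redMap_apply (φ : Red x V →ₗ[R ⧸ Ideal.span {x}] Red x W) (v : V) :
    redMap x V W φ v = φ (Submodule.Quotient.mk v) := rfl

lemma redMap_injective : Function.Injective (redMap x V W) := by
  intro φ ψ h
  refine LinearMap.ext (fun v => ?_)
  obtain ⟨v, rfl⟩ := Submodule.Quotient.mk_surjective _ v
  have h1 : redMap x V W φ v = redMap x V W ψ v := by rw [h]
  rwa [redMap_apply, redMap_apply] at h1

lemma redMap_surjective : Function.Surjective (redMap x V W) := by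
  intro g
  have hle : Ideal.span {x} • (⊤ : Submodule R V) ≤ LinearMap.ker g := by
    intro v hv
    obtain ⟨w, rfl⟩ := (mem_span_smul_top v).mp hv
    rw [LinearMap.mem_ker, map_smul]
    obtain ⟨u, hu⟩ := Submodule.Quotient.mk_surjective _ (g w)
    rw [← hu, ← Submodule.Quotient.mk_smul, Submodule.Quotient.mk_eq_zero, mem_span_smul_top]
    exact ⟨u, rfl⟩
  refine ⟨(Submodule.liftQ _ g hle).extendScalarsOfSurjective (Ideal.Quotient.mk_surjective), ?_⟩
  refine LinearMap.ext (fun v => ?_)
  rw [redMap_apply]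
  rfl

lemma length_redHom_eq : Module.length (R ⧸ Ideal.span {x})
    (Red x V →ₗ[R ⧸ Ideal.span {x}] Red x W) = Module.length R (V →ₗ[R] Red x W) := by
  have h1 := (LinearEquiv.ofBijective (redMap x V W)
    ⟨redMap_injective x V W, redMap_surjective x V W⟩).length_eq
  rw [← h1]
  exact (Module.length_eq_of_surjective (R := R ⧸ Ideal.span {x}) (S := R)
    (M := Red x V →ₗ[R ⧸ Ideal.span {x}] Red x W) Ideal.Quotient.mk_surjective).symm

end HomLemmas

section Main

variable {R : Type v} [CommRing R] [IsLocalRing R] [IsNoetherianRing R] [Ring.KrullDimLE 1 R]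

/-- A homomorphism which is generically an isomorphism. -/
structure GenIso (x : R) {V W : Type*} [AddCommGroup V] [Module R V] [AddCommGroup W] [Module R W]
    (f : V →ₗ[R] W) : Prop where
  inj : Function.Injective f
  coker : ∃ n, ∀ w, ∃ v, f v = x ^ n • w

theorem exists_genIso (x : R) (hxm : x ∈ maximalIdeal R)
    {V W : Type*} [AddCommGroup V] [Module R V] [AddCommGroup W] [Module R W]
    [Module.Finite R V] [Module.Finite R W] (hV : IsSMulRegular V x)
    (e : ∀ (P : Ideal R) (hP : P ∈ minimalPrimes R),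
      Nonempty (LocalizedModule (@Ideal.primeCompl R _ P (Ideal.IsMinimalPrime.isPrime hP)) V ≃ₗ[R]
        LocalizedModule (@Ideal.primeCompl R _ P (Ideal.IsMinimalPrime.isPrime hP)) W)) :
    ∃ f : V →ₗ[R] W, GenIso x f := by
  classical
  let ι := {P : Ideal R // P ∈ minimalPrimes R}
  have hι : Finite ι := (minimalPrimes.finite_of_isNoetherianRing R).to_subtype
  have hp : ∀ P : ι, P.1.IsPrime := fun P => Ideal.IsMinimalPrime.isPrime P.2
  obtain ⟨f, hf1, hf2⟩ := exists_glue (fun P : ι => P.1) (fun P => P.2) Subtype.val_injective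
    (M := V) (M' := W) (fun P => e P.1 P.2)
  have hker : ∀ v, f v = 0 → v = 0 := by
    intro v hv
    obtain ⟨n, hn⟩ := pow_mem_of_not_le x hxm (LinearMap.ker (LinearMap.toSpanSingleton R V v))
      (by
        intro P hP
        obtain ⟨s, hs, hs'⟩ := hf1 v hv ⟨P, hP⟩
        exact ⟨s, hs, hs'⟩)
    have h1 : x ^ n • v = 0 := hn
    exact (hV.pow n) (by simpa using h1)
  have hcok : ∀ w, ∃ n v, f v = x ^ n • w := by
    intro w
    obtain ⟨n, hn⟩ := pow_mem_of_not_le x hxm
      ((LinearMap.range f).comap (LinearMap.toSpanSingleton R W w)) (by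
        intro P hP
        obtain ⟨s, hs, v, hv⟩ := hf2 w ⟨P, hP⟩
        exact ⟨s, hs, v, hv⟩)
    obtain ⟨v, hv⟩ := hn
    exact ⟨n, v, hv⟩
  refine ⟨f, (injective_iff_map_eq_zero f).mpr hker, ?_⟩
  -- uniform exponent
  obtain ⟨k, g, hg⟩ := Module.Finite.exists_fin (R := R) (M := W)
  choose n v hv using fun i => hcok (g i)
  let N := ∑ i, n i
  refine ⟨N, ?_⟩
  have h1 : ∀ w, x ^ N • w ∈ LinearMap.range f := by
    intro w
    have hw : w ∈ Submodule.span R (Set.range g) := by rw [hg]; trivial
    induction hw using Submodule.span_induction with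
    | mem y hy =>
      obtain ⟨i, rfl⟩ := hy
      have h2 : N = (N - n i) + n i :=
        (Nat.sub_add_cancel (Finset.single_le_sum (fun _ _ => Nat.zero_le _)
          (Finset.mem_univ i))).symm
      rw [h2, pow_add, mul_smul, ← hv]
      exact ⟨x ^ (N - n i) • v i, by simp⟩
    | zero => simp
    | add y z _ _ hy hz => rw [smul_add]; exact Submodule.add_mem _ hy hz
    | smul c y _ hy => rw [smul_comm]; exact Submodule.smul_mem _ c hy
  intro w
  exact h1 w

/-- Generic isomorphisms preserve the length of `Hom (V, -) / x`. -/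
theorem length_hom_eq (x : R) (hx : ∀ P ∈ minimalPrimes R, x ∉ P)
    {U V W : Type*} [AddCommGroup U] [Module R U] [AddCommGroup V] [Module R V] [AddCommGroup W]
    [Module R W] [Module.Finite R U] [Module.Finite R W] (hW : IsSMulRegular W x)
    (f : V →ₗ[R] W) (hf : GenIso x f) :
    Module.length R ((U →ₗ[R] W) ⧸ xsub x (U →ₗ[R] W)) =
      Module.length R ((U →ₗ[R] V) ⧸ xsub x (U →ₗ[R] V)) := by
  let F : (U →ₗ[R] V) →ₗ[R] (U →ₗ[R] W) := LinearMap.compRight R f
  have hF : Function.Injective F := by
    intro a b h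
    ext u
    apply hf.inj
    exact LinearMap.congr_fun h u
  refine length_quot_eq x (isSMulRegular_hom hW) F hF ?_ _ (fun m => mem_xsub m) _
    (fun m => mem_xsub m)
  obtain ⟨n, hn⟩ := hf.coker
  have hnoeth : IsNoetherian R (U →ₗ[R] W) := inferInstance
  have hfin : Module.Finite R ((U →ₗ[R] W) ⧸ LinearMap.range F) := inferInstance
  refine length_ne_top_of_ann (Ideal.span {x ^ n}) (isArtinianRing_quotient_span_pow x hx n) _ ?_
  intro r hr c
  obtain ⟨a, rfl⟩ := Ideal.mem_span_singleton'.mp hr
  obtain ⟨c, rfl⟩ := Submodule.Quotient.mk_surjective _ c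
  rw [← Submodule.Quotient.mk_smul, Submodule.Quotient.mk_eq_zero, mul_smul]
  refine Submodule.smul_mem _ a ?_
  -- factor `x ^ n • c` through `f`
  have h1 : ∀ u, (x ^ n • c) u ∈ LinearMap.range f := fun u => hn (c u)
  let e := LinearEquiv.ofInjective f hf.inj
  refine ⟨e.symm.toLinearMap ∘ₗ (LinearMap.codRestrict (LinearMap.range f) (x ^ n • c) h1), ?_⟩
  ext u
  change f (e.symm ⟨(x ^ n • c) u, h1 u⟩) = _
  have h2 : (e (e.symm ⟨(x ^ n • c) u, h1 u⟩) : W) = (x ^ n • c) u := by
    rw [e.apply_symm_apply]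
  exact h2

/-- Among infinitely many rigid modules with bounded length modulo `x`, two are isomorphic. -/
theorem exists_equiv_dimOne (x : R) (hxm : x ∈ maximalIdeal R)
    (hx : ∀ P ∈ minimalPrimes R, x ∉ P) (hA : HasField (R ⧸ Ideal.span {x}))
    (hloc : ∀ (P : Ideal R) (hP : P ∈ minimalPrimes R),
      HasField (Localization (@Ideal.primeCompl R _ P (Ideal.IsMinimalPrime.isPrime hP))))
    (M : ℕ → Type u) [∀ i, AddCommGroup (M i)] [∀ i, Module R (M i)]
    [∀ i, Module.Finite R (M i)] (b : ℕ) (hb : ∀ i, Module.length R (Red x (M i)) ≤ b)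
    (hreg : ∀ i, IsSMulRegular (M i) x) (hEP : ∀ i, EP R (M i)) :
    ∃ i j, i < j ∧ Nonempty (M i ≃ₗ[R] M j) := by
  classical
  have hle : ∀ i, Ideal.span {x} • (⊤ : Submodule R (M i)) ≤
      maximalIdeal R • (⊤ : Submodule R (M i)) := fun i =>
    Submodule.smul_mono_left ((Ideal.span_singleton_le_iff_mem _).mpr hxm)
  choose g hg using fun i => exists_generators_local b (M i) _ (hle i) (hb i)
  obtain ⟨φ, hφ, hgen⟩ := exists_subseq_generic hloc M b g hg hEP
  -- the subsequence
  let K : ℕ → Type u := fun i => M (φ i)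
  have hgi : ∀ i j, ∃ f : K i →ₗ[R] K j, GenIso x f := fun i j =>
    exists_genIso x hxm (hreg (φ i)) (fun P hP => hgen i j P hP)
  have hart : IsArtinianRing (R ⧸ Ideal.span {x}) := isArtinianRing_quotient_span x hx
  have hne : Ideal.span {x} ≠ ⊤ := by
    intro h
    have h1 : (1 : R) ∈ maximalIdeal R :=
      ((Ideal.span_singleton_le_iff_mem _).mpr hxm) (by rw [h]; trivial)
    exact (Ideal.ne_top_iff_one _).mp (IsLocalRing.maximalIdeal.isMaximal R).ne_top h1
  have hnt : Nontrivial (R ⧸ Ideal.span {x}) := Ideal.Quotient.nontrivial_iff.mpr hne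
  have hlocal : IsLocalRing (R ⧸ Ideal.span {x}) :=
    IsLocalRing.of_surjective' (Ideal.Quotient.mk _) Ideal.Quotient.mk_surjective
  -- comparison of lengths
  have hlen : ∀ i j, Module.length R ((K i →ₗ[R] K j) ⧸ xsub x (K i →ₗ[R] K j)) =
      Module.length R (K i →ₗ[R] Red x (K i)) := by
    intro i j
    obtain ⟨f, hf⟩ := hgi i j
    rw [length_hom_eq x hx (hreg (φ j)) f hf, ← length_range_redHom (hreg (φ i)),
      LinearMap.range_eq_top.mpr (redHom_surjective (hreg (φ i)) (hEP (φ i))), Module.length_top]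
  obtain ⟨i, j, hij, ⟨e⟩⟩ := exists_equiv_of_hom_art (A := R ⧸ Ideal.span {x}) hA
    (fun i => Red x (K i)) b (fun i => by
      rw [← Module.length_eq_of_surjective (R := R ⧸ Ideal.span {x}) (S := R)
        (M := Red x (K i)) Ideal.Quotient.mk_surjective]
      exact hb (φ i)) (fun i j _ => by
      rw [length_redHom_eq, length_redHom_eq, ← hlen i j, ← length_range_redHom (hreg (φ j))]
      exact Module.length_le_of_injective (LinearMap.range (redHom x (K i) (K j))).subtype
        (Submodule.subtype_injective _))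
  refine ⟨φ i, φ j, hφ hij, ?_⟩
  -- every homomorphism `K i → Red (K j)` lifts
  have hnoeth : IsNoetherian R (Red x (K j)) := inferInstance
  have hfinlen : Module.length R (K i →ₗ[R] Red x (K j)) ≠ ⊤ := by
    refine length_ne_top_of_ann (Ideal.span {x}) hart _ ?_
    intro r hr c
    ext v
    obtain ⟨a, rfl⟩ := Ideal.mem_span_singleton'.mp hr
    rw [LinearMap.smul_apply, LinearMap.zero_apply, mul_smul]
    obtain ⟨u, hu⟩ := Submodule.Quotient.mk_surjective _ (c v)
    have h1 : x • c v = 0 := by
      rw [← hu]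
      exact (Submodule.Quotient.mk_eq_zero _).mpr ((mem_span_smul_top _).mpr ⟨u, rfl⟩)
    rw [h1, smul_zero]
  have hlen2 : Module.length R (LinearMap.range (redHom x (K i) (K j))) =
      Module.length R (K i →ₗ[R] Red x (K j)) := by
    rw [length_range_redHom (hreg (φ j)), hlen i j, ← length_redHom_eq, ← length_redHom_eq]
    exact (LinearEquiv.congrRight e).length_eq
  have hsurj : Function.Surjective (redHom x (K i) (K j)) := by
    rw [← LinearMap.range_eq_top]
    by_contra hcon
    rw [Module.length_ne_top_iff, isFiniteLength_iff_isNoetherian_isArtinian] at hfinlen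
    obtain ⟨h1, h2⟩ := hfinlen
    exact absurd hlen2 (Submodule.length_lt hcon).ne
  obtain ⟨h, hh⟩ := hsurj (redMap x (K i) (K j) e.toLinearMap)
  have hh' : ∀ v, (Submodule.Quotient.mk (h v) : Red x (K j)) = e (Submodule.Quotient.mk v) := by
    intro v
    have h1 := LinearMap.congr_fun hh v
    rw [redHom_apply, redMap_apply] at h1
    exact h1
  -- `h` is surjective
  have hs : Function.Surjective h := by
    rw [← LinearMap.range_eq_top, ← IsLocalRing.map_mkQ_eq_top, eq_top_iff]
    intro y _
    obtain ⟨w, rfl⟩ := Submodule.Quotient.mk_surjective _ y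
    obtain ⟨u, hu⟩ := e.surjective (Submodule.Quotient.mk w)
    obtain ⟨v, rfl⟩ := Submodule.Quotient.mk_surjective _ u
    rw [← hh'] at hu
    refine ⟨h v, ⟨v, rfl⟩, ?_⟩
    rw [Submodule.mkQ_apply, Submodule.Quotient.eq]
    rw [Submodule.Quotient.eq] at hu
    exact hle (φ j) hu
  -- `h` is injective
  have hi : LinearMap.ker h = ⊥ := by
    have hfg : (LinearMap.ker h).FG := (inferInstance : IsNoetherian R (K i)).noetherian _
    refine Submodule.eq_bot_of_le_smul_of_le_jacobson_bot (Ideal.span {x}) _ hfg ?_ ?_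
    · intro v hv
      have h1 : (Submodule.Quotient.mk v : Red x (K i)) = 0 := by
        apply e.injective
        rw [map_zero, ← hh', LinearMap.mem_ker.mp hv, Submodule.Quotient.mk_zero]
      rw [Submodule.Quotient.mk_eq_zero, mem_span_smul_top] at h1
      obtain ⟨w, rfl⟩ := h1
      have h2 : h w = 0 := by
        apply hreg (φ j)
        simp only [smul_zero]
        rw [← map_smul]
        exact hv
      exact Submodule.smul_mem_smul (Ideal.mem_span_singleton_self x) h2
    · rw [IsLocalRing.jacobson_eq_maximalIdeal _ bot_ne_top]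
      exact (Ideal.span_singleton_le_iff_mem _).mpr hxm
  exact ⟨LinearEquiv.ofBijective h ⟨LinearMap.ker_eq_bot.mp hi, hs⟩⟩

end Main

end H42
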