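import Mathlib
import Pool.Agent.H42.SeqTwo

/-!
# Multiplicity and length modulo a parameter

Helper file (seat helper42).
-/

set_option autoImplicit false
set_option linter.unusedSectionVars false

namespace H42

open IsLocalRing Filter

universe u v

section

variable {R : Type*} [CommRing R] {M : Type*} [AddCommGroup M] [Module R M]

/-- `length (M / x ^ n M) = n * length (M / x M)` for `x` regular on `M`. -/
lemma length_quot_pow (x : R) (hx : IsSMulRegular M x) (n : ℕ) :
    Module.length R (M ⧸ xsub (x ^ n) M) = n * Module.length R (M ⧸ xsub x M) := by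
  induction n with
  | zero =>
    have h1 : xsub (x ^ 0) M = ⊤ := by
      rw [eq_top_iff]
      intro m _
      exact ⟨m, by simp⟩
    rw [h1, Nat.cast_zero, zero_mul, Module.length_eq_zero_iff]
    refine ⟨fun a b => ?_⟩
    obtain ⟨a, rfl⟩ := Submodule.Quotient.mk_surjective _ a
    obtain ⟨b, rfl⟩ := Submodule.Quotient.mk_surjective _ b
    exact (Submodule.Quotient.eq _).mpr trivial
  | succ n ih =>
    let a : (M ⧸ xsub (x ^ n) M) →ₗ[R] (M ⧸ xsub (x ^ (n + 1)) M) :=
      (xsub (x ^ n) M).mapQ (xsub (x ^ (n + 1)) M) (LinearMap.lsmul R M x) (by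
        rintro _ ⟨y, rfl⟩
        refine ⟨y, ?_⟩
        simp only [LinearMap.lsmul_apply]
        rw [pow_succ', mul_smul])
    let b : (M ⧸ xsub (x ^ (n + 1)) M) →ₗ[R] (M ⧸ xsub x M) :=
      (xsub (x ^ (n + 1)) M).mapQ (xsub x M) LinearMap.id (by
        rintro _ ⟨y, rfl⟩
        refine ⟨x ^ n • y, ?_⟩
        simp only [LinearMap.lsmul_apply, LinearMap.id_apply]
        rw [pow_succ', mul_smul])
    have h := Module.length_eq_add_of_exact a b ?_ ?_ ?_
    · rw [h, ih]
      push_cast
      rw [add_mul, one_mul]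
    · rw [← LinearMap.ker_eq_bot, LinearMap.ker_eq_bot']
      intro y hy
      obtain ⟨y, rfl⟩ := Submodule.Quotient.mk_surjective _ y
      have h3 : x • y ∈ xsub (x ^ (n + 1)) M := by
        rw [← Submodule.Quotient.mk_eq_zero]
        exact hy
      obtain ⟨z, hz⟩ := h3
      rw [LinearMap.lsmul_apply, pow_succ', mul_smul] at hz
      rw [Submodule.Quotient.mk_eq_zero]
      exact ⟨z, hx hz⟩
    · intro y
      obtain ⟨y, rfl⟩ := Submodule.Quotient.mk_surjective _ y
      exact ⟨Submodule.Quotient.mk y, rfl⟩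
    · intro y
      constructor
      · intro hy
        obtain ⟨y, rfl⟩ := Submodule.Quotient.mk_surjective _ y
        have h3 : y ∈ xsub x M := by
          rw [← Submodule.Quotient.mk_eq_zero]
          exact hy
        obtain ⟨z, rfl⟩ := h3
        exact ⟨Submodule.Quotient.mk z, rfl⟩
      · rintro ⟨z, rfl⟩
        obtain ⟨z, rfl⟩ := Submodule.Quotient.mk_surjective _ z
        change Submodule.Quotient.mk (x • z) = 0
        rw [Submodule.Quotient.mk_eq_zero]
        exact ⟨z, rfl⟩

variable [IsLocalRing R] [IsNoetherianRing R] [Module.Finite R M]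

lemma isArtinianRing_quotient_maximalIdeal_pow (n : ℕ) :
    IsArtinianRing (R ⧸ maximalIdeal R ^ n) := by
  apply isArtinianRing_quotient
  intro Q hQ hle
  have h1 : maximalIdeal R ≤ Q := Ideal.IsPrime.le_of_pow_le hle
  have h2 : maximalIdeal R = Q := (IsLocalRing.maximalIdeal.isMaximal R).eq_of_le hQ.ne_top h1
  rw [← h2]
  exact IsLocalRing.maximalIdeal.isMaximal R

lemma length_quot_maximalIdeal_pow_ne_top (n : ℕ) :
    Module.length R (M ⧸ ((maximalIdeal R ^ n) • (⊤ : Submodule R M))) ≠ ⊤ := by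
  refine length_ne_top_of_ann (maximalIdeal R ^ n)
    (isArtinianRing_quotient_maximalIdeal_pow n) _ ?_
  intro r hr c
  obtain ⟨c, rfl⟩ := Submodule.Quotient.mk_surjective _ c
  rw [← Submodule.Quotient.mk_smul, Submodule.Quotient.mk_eq_zero]
  exact Submodule.smul_mem_smul hr trivial

/-- In dimension one the multiplicity bounds the length modulo a parameter. -/
theorem length_le_of_tendsto (x : R) (s : ℕ) (hs0 : 0 < s)
    (hs : maximalIdeal R ^ s ≤ Ideal.span {x}) (hx : IsSMulRegular M x) (e : ℝ)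
    (he : Tendsto (fun n : ℕ => ((1 : ℕ).factorial : ℝ) *
      ((Module.length R (M ⧸ ((maximalIdeal R ^ n) • (⊤ : Submodule R M)))).toNat : ℝ) /
        ((n : ℝ) ^ 1)) atTop (nhds e)) (N : ℕ) (heN : e ≤ N) :
    Module.length R (M ⧸ xsub x M) ≤ (s * N : ℕ) := by
  -- finiteness
  have hle1 : ∀ n, (maximalIdeal R ^ (s * n)) • (⊤ : Submodule R M) ≤ xsub (x ^ n) M := by
    intro n
    rw [Submodule.smul_le]
    intro r hr m _
    have h1 : r ∈ Ideal.span {x ^ n} := by
      rw [← Ideal.span_singleton_pow]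
      rw [pow_mul] at hr
      exact Ideal.pow_right_mono hs n hr
    obtain ⟨a, rfl⟩ := Ideal.mem_span_singleton'.mp h1
    refine ⟨a • m, ?_⟩
    rw [LinearMap.lsmul_apply, smul_smul, mul_comm]
  have hle2 : ∀ n, Module.length R (M ⧸ xsub (x ^ n) M) ≤
      Module.length R (M ⧸ ((maximalIdeal R ^ (s * n)) • (⊤ : Submodule R M))) := by
    intro n
    refine Module.length_le_of_surjective (Submodule.mapQ _ _ LinearMap.id (hle1 n)) ?_
    intro y
    obtain ⟨y, rfl⟩ := Submodule.Quotient.mk_surjective _ y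
    exact ⟨Submodule.Quotient.mk y, rfl⟩
  have hfin : Module.length R (M ⧸ xsub x M) ≠ ⊤ := by
    have h1 := hle2 1
    rw [pow_one] at h1
    exact ne_top_of_le_ne_top (length_quot_maximalIdeal_pow_ne_top _) h1
  obtain ⟨L, hL⟩ := ENat.ne_top_iff_exists.mp hfin
  have hle3 : ∀ n : ℕ, n * L ≤
      (Module.length R (M ⧸ ((maximalIdeal R ^ (s * n)) • (⊤ : Submodule R M)))).toNat := by
    intro n
    have h1 := hle2 n
    rw [length_quot_pow x hx n, ← hL] at h1
    obtain ⟨l, hl⟩ := ENat.ne_top_iff_exists.mp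
      (length_quot_maximalIdeal_pow_ne_top (R := R) (M := M) (s * n))
    rw [← hl] at h1 ⊢
    rw [ENat.toNat_natCast]
    exact_mod_cast h1
  have htend : Tendsto (fun n : ℕ => s * n) atTop atTop :=
    tendsto_id.const_mul_atTop' hs0
  have h4 := he.comp htend
  have h5 : (L : ℝ) / s ≤ e := by
    refine ge_of_tendsto h4 ?_
    filter_upwards [eventually_gt_atTop 0] with n hn
    simp only [Function.comp_apply, Nat.factorial_one, Nat.cast_one, one_mul, pow_one]
    have hn' : (0 : ℝ) < n := by exact_mod_cast hn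
    have hs' : (0 : ℝ) < s := by exact_mod_cast hs0
    rw [div_le_div_iff₀ hs' (by push_cast; positivity)]
    have h6 : ((n * L : ℕ) : ℝ) ≤ ((Module.length R
      (M ⧸ ((maximalIdeal R ^ (s * n)) • (⊤ : Submodule R M)))).toNat : ℝ) := by
      exact_mod_cast hle3 n
    push_cast at h6 ⊢
    nlinarith
  have hs' : (0 : ℝ) < s := by exact_mod_cast hs0
  have h7 : (L : ℝ) ≤ s * N := by
    rw [div_le_iff₀ hs'] at h5
    nlinarith
  rw [← hL]
  have h8 : L ≤ s * N := by exact_mod_cast h7
  exact_mod_cast h8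

/-- In dimension zero the multiplicity is the length. -/
theorem length_le_of_tendsto_zero (s : ℕ) (hs : maximalIdeal R ^ s = ⊥) (e : ℝ)
    (he : Tendsto (fun n : ℕ => ((0 : ℕ).factorial : ℝ) *
      ((Module.length R (M ⧸ ((maximalIdeal R ^ n) • (⊤ : Submodule R M)))).toNat : ℝ) /
        ((n : ℝ) ^ 0)) atTop (nhds e)) (N : ℕ) (heN : e ≤ N) :
    Module.length R M ≤ N := by
  have h1 : ∀ n, s ≤ n → Module.length R (M ⧸ ((maximalIdeal R ^ n) • (⊤ : Submodule R M))) =
      Module.length R M := by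
    intro n hn
    have h2 : maximalIdeal R ^ n = ⊥ := by
      rw [eq_bot_iff, ← hs]
      exact Ideal.pow_le_pow_right hn
    rw [h2, Submodule.bot_smul]
    exact (Submodule.quotEquivOfEqBot _ rfl).length_eq
  have hfin : Module.length R M ≠ ⊤ := by
    rw [← h1 s le_rfl]
    exact length_quot_maximalIdeal_pow_ne_top _
  obtain ⟨L, hL⟩ := ENat.ne_top_iff_exists.mp hfin
  have h3 : (L : ℝ) ≤ e := by
    refine ge_of_tendsto he ?_
    filter_upwards [eventually_ge_atTop s] with n hn
    rw [h1 n hn, ← hL]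
    simp
  rw [← hL]
  have h4 : (L : ℝ) ≤ N := h3.trans heN
  exact_mod_cast h4

end

end H42
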