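import Mathlib
import Pool.Agent.H42.Mult
import Pool.Agent.H42.Fields

/-!
# Final assembly in dimension at most one

Helper file (seat helper42).
-/

set_option autoImplicit false
set_option linter.unusedSectionVars false

namespace H42

open IsLocalRing Filter

universe u

/-- From sequences to finite lists. -/
lemma finite_of_seq {R : Type u} [CommRing R] (P : ModuleCat.{u} R → Prop)
    (h : ∀ f : ℕ → ModuleCat.{u} R, (∀ n, P (f n)) → ∃ i j, i < j ∧ Nonempty (f i ≃ₗ[R] f j)) :
    ∃ (k : ℕ) (F : Fin k → ModuleCat.{u} R), ∀ X, P X → ∃ i, Nonempty (X ≃ₗ[R] F i) := by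
  classical
  by_contra hcon
  push Not at hcon
  obtain ⟨f, hf, hne⟩ := exists_seq_of_forall_finset_exists P
    (fun x y : ModuleCat.{u} R => IsEmpty (x ≃ₗ[R] y)) (by
      intro s _
      obtain ⟨X, hX, hX'⟩ := hcon s.card (fun i => (s.equivFin.symm i).1)
      refine ⟨X, hX, fun x hx => ⟨fun e => ?_⟩⟩
      have h1 := hX' (s.equivFin ⟨x, hx⟩)
      rw [Equiv.symm_apply_apply] at h1
      exact h1.false e.symm)
  obtain ⟨i, j, hij, ⟨e⟩⟩ := h f hf
  exact (hne i j hij).false e

/-- The condition of the problem: maximal Cohen-Macaulay of multiplicity at most `N`. -/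
def MCMLe (R : Type u) [CommRing R] [IsLocalRing R] (N : ℕ) (M : Type u) [AddCommGroup M]
    [Module R M] : Prop :=
  ∃ rs : List R,
    (∀ r ∈ rs, r ∈ IsLocalRing.maximalIdeal R) ∧
    RingTheory.Sequence.IsRegular M rs ∧
    ((rs.length : WithBot ℕ∞) = ringKrullDim R) ∧
    ∃ e : ℝ, e ≤ (N : ℝ) ∧
      Filter.Tendsto
        (fun n : ℕ =>
          ((rs.length).factorial : ℝ) *
            ((Module.length R
                (M ⧸ ((IsLocalRing.maximalIdeal R ^ n) •
                  (⊤ : Submodule R M)))).toNat : ℝ) /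
            ((n : ℝ) ^ rs.length))
        Filter.atTop (nhds e)

section

variable {R : Type u} [CommRing R] [IsLocalRing R] [IsNoetherianRing R]

lemma exists_parameter [Ring.KrullDimLE 1 R] (h0 : ¬ Ring.KrullDimLE 0 R) :
    ∃ x ∈ maximalIdeal R, ∀ P ∈ minimalPrimes R, x ∉ P := by
  by_contra hcon
  push Not at hcon
  have hfin : (minimalPrimes R).Finite := minimalPrimes.finite_of_isNoetherianRing R
  have hsub : (maximalIdeal R : Set R) ⊆ ⋃ P ∈ minimalPrimes R, ((id P : Ideal R) : Set R) := by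
    intro x hx
    obtain ⟨P, hP, hxP⟩ := hcon x hx
    simp only [Set.mem_iUnion]
    exact ⟨P, hP, hxP⟩
  obtain ⟨P, hP, hle⟩ := (Ideal.subset_union_prime_finite hfin (f := id) ⊥ ⊥
    (fun P hP _ _ => Ideal.IsMinimalPrime.isPrime hP)).mp hsub
  apply h0
  refine Ring.KrullDimLE.mk₀ (fun Q hQ => ?_)
  have hPp : P.IsPrime := Ideal.IsMinimalPrime.isPrime hP
  have h1 : P = maximalIdeal R := le_antisymm (IsLocalRing.le_maximalIdeal hPp.ne_top) hle
  have h2 : Q ≤ P := by
    rw [h1]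
    exact IsLocalRing.le_maximalIdeal hQ.ne_top
  have h3 : P ≤ Q := hP.2 ⟨hQ, bot_le⟩ h2
  have h4 : Q = maximalIdeal R := by rw [← h1]; exact le_antisymm h2 h3
  rw [h4]
  exact IsLocalRing.maximalIdeal.isMaximal R

/-- Dimension zero. -/
theorem seq_dimZero (h0 : Ring.KrullDimLE 0 R) (hA : HasField R) (N : ℕ)
    (f : ℕ → ModuleCat.{u} R) (hfin : ∀ n, Module.Finite R (f n))
    (hM : ∀ n, MCMLe R N (f n)) (hEP : ∀ n, EP R (f n)) :
    ∃ i j, i < j ∧ Nonempty (f i ≃ₗ[R] f j) := by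
  have hart : IsArtinianRing R := by
    rw [isArtinianRing_iff_krullDimLE_zero]
    exact h0
  obtain ⟨s, hs⟩ := (isArtinianRing_iff_isNilpotent_maximalIdeal R).mp hart
  have hdim : ringKrullDim R = 0 := by
    refine le_antisymm ?_ ringKrullDim_nonneg_of_nontrivial
    exact_mod_cast Ring.krullDimLE_iff.mp h0
  refine exists_equiv_of_EP_art hA (fun i => f i) N (fun i => ?_) hEP
  obtain ⟨rs, -, -, hlen, e, heN, he⟩ := hM i
  rw [hdim] at hlen
  have hlen' : rs.length = 0 := by exact_mod_cast hlen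
  rw [hlen'] at he
  have hf := hfin i
  exact length_le_of_tendsto_zero s (by rw [hs]; rfl) e he N heN

/-- Dimension one. -/
theorem seq_dimOne [Ring.KrullDimLE 1 R] (h0 : ¬ Ring.KrullDimLE 0 R) (x : R)
    (hxm : x ∈ maximalIdeal R)
    (hx : ∀ P ∈ minimalPrimes R, x ∉ P) (hA : HasField (R ⧸ Ideal.span {x}))
    (hloc : ∀ (P : Ideal R) (hP : P ∈ minimalPrimes R),
      HasField (Localization (@Ideal.primeCompl R _ P (Ideal.IsMinimalPrime.isPrime hP))))
    (N : ℕ) (f : ℕ → ModuleCat.{u} R) (hfin : ∀ n, Module.Finite R (f n))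
    (hM : ∀ n, MCMLe R N (f n)) (hEP : ∀ n, EP R (f n)) :
    ∃ i j, i < j ∧ Nonempty (f i ≃ₗ[R] f j) := by
  have hdim : ringKrullDim R = 1 := by
    have h3 : ringKrullDim R ≤ 1 := by
      have h4 := Ring.krullDimLE_iff.mp (inferInstance : Ring.KrullDimLE 1 R)
      exact_mod_cast h4
    refine le_antisymm h3 ?_
    have h1 : ¬ ringKrullDim R ≤ 0 := by
      intro h
      exact h0 (Ring.krullDimLE_iff.mpr (by exact_mod_cast h))
    have h2 : (0 : WithBot ℕ∞) < ringKrullDim R := not_le.mp h1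
    obtain ⟨a, ha⟩ := WithBot.ne_bot_iff_exists.mp (ne_bot_of_gt h2)
    rw [← ha] at h2 ⊢
    have h5 : (0 : ℕ∞) < a := by exact_mod_cast h2
    have h6 : (1 : ℕ∞) ≤ a := Order.one_le_iff_pos.mpr h5
    exact_mod_cast h6
  -- a power of the maximal ideal is inside `(x)`
  have hpow : ∃ s, maximalIdeal R ^ s ≤ Ideal.span {x} := by
    apply Ideal.exists_pow_le_of_le_radical_of_fg
    · rw [Ideal.radical_eq_sInf]
      refine le_sInf ?_
      rintro Q ⟨hxQ, hQ⟩
      rcases Ring.krullDimLE_one_iff.mp (inferInstance : Ring.KrullDimLE 1 R) Q hQ with h1 | h1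
      · exact absurd (hxQ (Ideal.mem_span_singleton_self x)) (hx Q h1)
      · rw [IsLocalRing.eq_maximalIdeal h1]
    · exact (maximalIdeal R).fg_of_isNoetherianRing
  obtain ⟨s, hs⟩ := hpow
  have hs' : maximalIdeal R ^ (s + 1) ≤ Ideal.span {x} :=
    (Ideal.pow_le_pow_right (Nat.le_succ s)).trans hs
  have hreg : ∀ i, IsSMulRegular (f i) x := by
    intro i
    obtain ⟨rs, hrs, hreg, hlen, -⟩ := hM i
    rw [hdim] at hlen
    have hlen' : rs.length = 1 := by exact_mod_cast hlen
    obtain ⟨r, rfl⟩ := List.length_eq_one_iff.mp hlen'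
    rw [RingTheory.Sequence.isRegular_cons_iff] at hreg
    have hr := hreg.1.pow s
    have hrm : r ^ s ∈ Ideal.span {x} := hs (Ideal.pow_mem_pow (hrs r (by simp)) s)
    obtain ⟨a, ha⟩ := Ideal.mem_span_singleton'.mp hrm
    rw [← ha] at hr
    intro m m' h
    apply hr
    change (a * x) • m = (a * x) • m'
    rw [mul_smul, mul_smul]
    exact congrArg (a • ·) h
  refine exists_equiv_dimOne x hxm hx hA hloc (fun i => f i) ((s + 1) * N) (fun i => ?_) hreg hEP
  obtain ⟨rs, -, -, hlen, e, heN, he⟩ := hM i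
  rw [hdim] at hlen
  have hlen' : rs.length = 1 := by exact_mod_cast hlen
  rw [hlen'] at he
  have hf := hfin i
  have h1 := length_le_of_tendsto x (s + 1) (Nat.succ_pos s) hs' (hreg i) e he N heN
  have h2 : xsub x (f i) = Ideal.span {x} • (⊤ : Submodule R (f i)) := by
    ext m
    rw [mem_xsub, mem_span_smul_top]
  rw [h2] at h1
  exact h1

end

end H42
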