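import Pool.Agent.H42.SofGrp

/-! # The counterexample -/

open Matrix

namespace Pool.Agent.H42.Sof

/-- The group `SL₃(ℤ)`. -/
abbrev Lam := SpecialLinearGroup (Fin 3) ℤ

/-- The group `(⊕_{ℤ³} ℤ/2) ⋊ SL₃(ℤ)`. -/
abbrev GG := W Lam (Fin 3 → ℤ)

/-- The nonzero vectors with nonnegative coordinates. -/
def Om : Set (Fin 3 → ℤ) := {v | (∀ i, 0 ≤ v i) ∧ v ≠ 0}

/-- The subgroup of functions supported in `Om`. -/
abbrev HH : Subgroup GG := HΩ Om

/-- The pairs of distinct indices. -/
abbrev Ro := {p : Fin 3 × Fin 3 // p.1 ≠ p.2}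

/-- The elementary matrix `1 + E i j`. -/
def el (r : Ro) : Lam := SpecialLinearGroup.transvection r.2 1

theorem el_smul (r : Ro) (v : Fin 3 → ℤ) : el r • v = v + Pi.single r.1.1 (v r.1.2) := by
  show (Matrix.transvection r.1.1 r.1.2 1).mulVec v = _
  rw [Matrix.transvection, Matrix.add_mulVec, Matrix.one_mulVec, Matrix.single_mulVec, one_mul]
  rfl

theorem el_smul_apply (r : Ro) (v : Fin 3 → ℤ) (i : Fin 3) :
    (el r • v) i = v i + if i = r.1.1 then v r.1.2 else 0 := by
  rw [el_smul, Pi.add_apply, Pi.single_apply]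

theorem el_mem_Om (r : Ro) : ∀ v ∈ Om, el r • v ∈ Om := by
  rintro v ⟨h1, h2⟩
  refine ⟨fun i => ?_, fun hcon => h2 ?_⟩
  · rw [el_smul_apply]
    split_ifs
    · exact add_nonneg (h1 i) (h1 _)
    · simpa using h1 i
  · have := congrArg (fun w => (el r)⁻¹ • w) hcon
    simpa using this

/-- The elementary matrix as a contracting element. -/
noncomputable def elC (r : Ro) : contr HH :=
  ⟨SemidirectProduct.inr (el r), fun _ hh => conj_mem_HΩ (el_mem_Om r) hh⟩

/-- The free monoid on six letters. -/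
abbrev PP := FreeMonoid Ro

/-- The action of the free monoid on the right cosets of `HH`. -/
noncomputable def toContr : PP →* contr HH := FreeMonoid.lift elC

noncomputable instance : MulAction PP (Cos HH) := MulAction.compHom _ toContr

theorem of_smul (r : Ro) (x : GG) :
    FreeMonoid.of r • Cos.mk HH x = Cos.mk HH (SemidirectProduct.inr (el r) * x) := by
  show toContr (FreeMonoid.of r) • Cos.mk HH x = _
  rw [toContr, FreeMonoid.lift_eval_of, contr_smul_mk]
  rfl

noncomputable instance : SMulCommClass PP GGᵐᵒᵖ (Cos HH) where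
  smul_comm k g o := smul_comm (toContr k) g o

/-- The counterexample. -/
abbrev MM := Mon PP GG (Cos HH)

theorem PP_units (p q : PP) (h : p * q = 1) : p = 1 ∧ q = 1 := by
  have h1 : (FreeMonoid.toList p) ++ (FreeMonoid.toList q) = [] := by
    rw [← FreeMonoid.toList_mul, h]; rfl
  rw [List.append_eq_nil_iff] at h1
  exact ⟨FreeMonoid.toList.injective h1.1, FreeMonoid.toList.injective h1.2⟩

/-! ### Not sofic -/

/-- The group elements `a i j`. -/
noncomputable def aa (i j : Fin 3) : GG :=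
  if h : i ≠ j then SemidirectProduct.inr (el ⟨(i, j), h⟩) else 1

theorem aa_eq {i j : Fin 3} (h : i ≠ j) : aa i j = SemidirectProduct.inr (el ⟨(i, j), h⟩) := by
  unfold aa; rw [dif_pos h]

theorem el_rel (i j k : Fin 3) (hij : i ≠ j) (hjk : j ≠ k) (hik : i ≠ k) :
    el ⟨(i, j), hij⟩ * el ⟨(j, k), hjk⟩ =
      el ⟨(i, k), hik⟩ * (el ⟨(j, k), hjk⟩ * el ⟨(i, j), hij⟩) ∧
    Commute (el ⟨(i, k), hik⟩) (el ⟨(i, j), hij⟩) ∧
    Commute (el ⟨(i, k), hik⟩) (el ⟨(j, k), hjk⟩) := by
  have e1 : (single i j (1 : ℤ)) * single j i 1 = single i i 1 := by simp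
  have c1 : (single j k (1 : ℤ)) * single i j 1 = 0 := single_mul_single_of_ne _ _ _ _ hik.symm _
  have c2 : (single i j (1 : ℤ)) * single j k 1 = single i k 1 := by simp
  have c3 : (single i k (1 : ℤ)) * single j k 1 = 0 := single_mul_single_of_ne _ _ _ _ hjk.symm _
  have c4 : (single j k (1 : ℤ)) * single i k 1 = 0 := single_mul_single_of_ne _ _ _ _ hik.symm _
  have c5 : (single i k (1 : ℤ)) * single i j 1 = 0 := single_mul_single_of_ne _ _ _ _ hik.symm _
  have c6 : (single i j (1 : ℤ)) * single i k 1 = 0 := single_mul_single_of_ne _ _ _ _ hij.symm _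
  refine ⟨?_, ?_, ?_⟩
  · apply Subtype.ext
    show (1 + single i j (1 : ℤ)) * (1 + single j k (1 : ℤ)) =
      (1 + single i k (1 : ℤ)) * ((1 + single j k (1 : ℤ)) * (1 + single i j (1 : ℤ)))
    simp only [mul_add, add_mul, one_mul, mul_one, c1, c2, c3, c5, add_zero]
    abel
  · apply Subtype.ext
    show (1 + single i k (1 : ℤ)) * (1 + single i j (1 : ℤ)) =
      (1 + single i j (1 : ℤ)) * (1 + single i k (1 : ℤ))
    simp only [mul_add, add_mul, one_mul, mul_one, c5, c6, add_zero]
    abel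
  · apply Subtype.ext
    show (1 + single i k (1 : ℤ)) * (1 + single j k (1 : ℤ)) =
      (1 + single j k (1 : ℤ)) * (1 + single i k (1 : ℤ))
    simp only [mul_add, add_mul, one_mul, mul_one, c3, c4, add_zero]
    abel

theorem ev_inl_single (p : Fin 3 → ℤ) (s : Fin 3 → ℤ) :
    ev (SemidirectProduct.inl (Multiplicative.ofAdd (Finsupp.single p (1 : ZMod 2))) : GG) s =
      if p = s then 1 else 0 := by
  show (Finsupp.single p (1 : ZMod 2)) s = _
  rw [Finsupp.single_apply]

theorem MM_not_sofic : ¬ IsSofic MM := by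
  refine not_isSofic_of (G := GG) Mon.incl (Mon.c (Cos.mk HH 1))
    (fun i j => if h : i ≠ j then Mon.u (FreeMonoid.of ⟨(i, j), h⟩) 1 else 1) aa ?_ ?_ ?_
  · intro i j k hij hjk hik
    rw [aa_eq hij, aa_eq hjk, aa_eq hik]
    obtain ⟨h1, h2, h3⟩ := el_rel i j k hij hjk hik
    refine ⟨?_, ?_, ?_⟩
    · rw [← map_mul, h1, map_mul, map_mul]
    · exact h2.map SemidirectProduct.inr
    · exact h3.map SemidirectProduct.inr
  · intro i j hij
    simp only [dif_pos hij, Mon.u_mul_c, Mon.incl_apply, Mon.c_mul_u, op_smul_mk, of_smul,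
      aa_eq hij, one_mul, mul_one]
  · intro i j hij
    refine ⟨fun n => SemidirectProduct.inl (Multiplicative.ofAdd
      (Finsupp.single (Pi.single j ((n : ℤ) + 1) - Pi.single i ((n : ℤ) + 1)) 1)), ?_, ?_⟩
    · intro n
      simp only [Mon.incl_apply, Mon.c_mul_u, op_smul_mk, one_mul]
      congr 1
      symm
      rw [Cos.mk_eq]
      refine ⟨by simp, fun s hs => ?_⟩
      rw [aa_eq hij, ev_mul, ev_mul, ev_inr, ev_inv, ev_inl_single, ev_inr]
      rw [neg_zero, add_zero, zero_add]
      refine if_neg ?_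
      intro hcon
      rw [SemidirectProduct.right_inr] at hcon
      apply hs
      have h1 : s = el ⟨(i, j), hij⟩ • (Pi.single j ((n : ℤ) + 1) - Pi.single i ((n : ℤ) + 1)) := by
        rw [hcon, smul_inv_smul]
      have h2 : s = Pi.single j ((n : ℤ) + 1) := by
        rw [h1, el_smul]
        simp only [Pi.sub_apply, Pi.single_eq_same, Pi.single_eq_of_ne hij.symm, sub_zero]
        abel
      rw [h2]
      refine ⟨fun l => ?_, fun h0 => ?_⟩
      · rw [Pi.single_apply]; split_ifs
        · positivity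
        · exact le_rfl
      · have := congrFun h0 j
        rw [Pi.single_eq_same, Pi.zero_apply] at this
        omega
    · intro m n hmn
      simp only [Mon.incl_apply, Mon.c_mul_u, op_smul_mk, one_mul, ne_eq, Mon.c.injEq]
      rw [Cos.mk_eq]
      rintro ⟨_, h2⟩
      have h3 := h2 (Pi.single j ((n : ℤ) + 1) - Pi.single i ((n : ℤ) + 1)) (fun hcon => by
        have := hcon.1 i
        rw [Pi.sub_apply, Pi.single_eq_same, Pi.single_eq_of_ne hij] at this
        omega)
      rw [ev_mul, ev_inv, ev_inl_single, ev_inl_single] at h3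
      simp only [SemidirectProduct.right_inl, inv_one, one_smul, if_true] at h3
      rw [if_neg] at h3
      · simp at h3
      · intro hcon
        have := congrFun hcon j
        simp only [Pi.sub_apply, Pi.single_eq_same, Pi.single_eq_of_ne hij.symm] at this
        omega

/-! ### The group is sofic -/

/-- Reduction modulo `m`. -/
def red (m : ℕ) (v : Fin 3 → ℤ) : Fin 3 → ZMod m := fun i => (v i : ZMod m)

/-- Reduction modulo `m`. -/
def redL (m : ℕ) : Lam →* SpecialLinearGroup (Fin 3) (ZMod m) :=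
  SpecialLinearGroup.map (Int.castRingHom (ZMod m))

theorem red_smul (m : ℕ) (l : Lam) (v : Fin 3 → ℤ) : red m (l • v) = redL m l • red m v := by
  funext i
  show Int.castRingHom (ZMod m) ((l.1.mulVec v) i) = _
  rw [RingHom.map_mulVec]
  rfl

/-- Reduction modulo `m`. -/
noncomputable def redG (m : ℕ) :
    GG →* W (SpecialLinearGroup (Fin 3) (ZMod m)) (Fin 3 → ZMod m) :=
  wmap (redL m) (red m) (red_smul m)

theorem ZMod_cast_ne {d : ℤ} (hd : d ≠ 0) {m : ℕ} (hm : d.natAbs < m) : (d : ZMod m) ≠ 0 := by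
  rw [ne_eq, ZMod.intCast_zmod_eq_zero_iff_dvd]
  intro hcon
  have h1 := Int.natAbs_dvd_natAbs.2 hcon
  have h2 := Nat.le_of_dvd (Int.natAbs_pos.2 hd) h1
  simp only [Int.natAbs_natCast] at h2
  omega

theorem GG_sofic : IsSofic GG := by
  refine IsSofic.of_finite_quotients fun w hw => ?_
  by_cases hr : w.right = 1
  · obtain ⟨p0, hp0⟩ : ∃ p0, ev w p0 ≠ 0 := by
      by_contra hcon
      push Not at hcon
      exact hw (W.ext' hr fun s => by rw [hcon s, ev_one])
    set v : (Fin 3 → ℤ) →₀ ZMod 2 := Multiplicative.toAdd w.left with hv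
    -- a bound for the coordinates of the points in the support
    obtain ⟨B, hB⟩ : ∃ B : ℕ, ∀ p ∈ v.support, ∀ i, (p i).natAbs ≤ B := by
      refine ⟨v.support.sup fun p => Finset.univ.sup fun i => (p i).natAbs, fun p hp i => ?_⟩
      exact (Finset.le_sup (f := fun i => (p i).natAbs) (Finset.mem_univ i)).trans
        (Finset.le_sup (f := fun p : Fin 3 → ℤ => Finset.univ.sup fun i => (p i).natAbs) hp)
    set m : ℕ := 2 * B + 1 with hm
    have : NeZero m := ⟨by omega⟩
    have hfin : Finite (W (SpecialLinearGroup (Fin 3) (ZMod m)) (Fin 3 → ZMod m)) :=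
      Finite.of_equiv _ SemidirectProduct.equivProd.symm
    refine ⟨W (SpecialLinearGroup (Fin 3) (ZMod m)) (Fin 3 → ZMod m), inferInstance, hfin,
      redG m, fun hcon => hp0 ?_⟩
    have h1 : ev (redG m w) (red m p0) = 0 := by rw [hcon, ev_one]
    have h2 : ev (redG m w) (red m p0) = Finsupp.mapDomain (red m) v (red m p0) := rfl
    rw [h2] at h1
    have hp0' : p0 ∈ v.support := by
      rw [Finsupp.mem_support_iff]; exact hp0
    rw [Finsupp.mapDomain_apply' (v.support : Set (Fin 3 → ℤ)) v (le_refl _) (by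
      intro p hp q hq hpq
      funext i
      by_contra hne
      have h3 : ((p i - q i : ℤ) : ZMod m) ≠ 0 := ZMod_cast_ne (sub_ne_zero.2 hne) (by
        have a1 := hB p hp i
        have a2 := hB q hq i
        omega)
      apply h3
      rw [Int.cast_sub, sub_eq_zero]
      exact congrFun hpq i) hp0'] at h1
    exact h1
  · obtain ⟨i, j, hij⟩ : ∃ i j, w.right.1 i j ≠ (1 : Matrix (Fin 3) (Fin 3) ℤ) i j := by
      by_contra hcon
      push Not at hcon
      exact hr (Subtype.ext (Matrix.ext hcon))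
    set m : ℕ := (w.right.1 i j - (1 : Matrix (Fin 3) (Fin 3) ℤ) i j).natAbs + 1 with hm
    have : NeZero m := ⟨by omega⟩
    refine ⟨SpecialLinearGroup (Fin 3) (ZMod m), inferInstance, inferInstance,
      (redL m).comp SemidirectProduct.rightHom, fun hcon => ?_⟩
    have h1 : (redL m w.right).1 i j = (1 : Matrix (Fin 3) (Fin 3) (ZMod m)) i j := by
      have : redL m w.right = 1 := hcon
      rw [this]; rfl
    have h2 : (redL m w.right).1 i j = ((w.right.1 i j : ℤ) : ZMod m) := rfl
    have h3 : (1 : Matrix (Fin 3) (Fin 3) (ZMod m)) i j =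
        (((1 : Matrix (Fin 3) (Fin 3) ℤ) i j : ℤ) : ZMod m) := by
      rw [Matrix.one_apply, Matrix.one_apply]; split_ifs <;> simp
    rw [h2, h3, ← sub_eq_zero, ← Int.cast_sub] at h1
    exact ZMod_cast_ne (sub_ne_zero.2 hij) (by omega) h1

/-! ### The stabilisers -/

/-- A diagonal matrix. -/
def dA : Lam := ⟨!![1, 0, 0; 0, -1, 0; 0, 0, -1], by simp [Matrix.det_fin_three]⟩

/-- A diagonal matrix. -/
def dB : Lam := ⟨!![-1, 0, 0; 0, -1, 0; 0, 0, 1], by simp [Matrix.det_fin_three]⟩

theorem core_trivial {g : GG} (h : ∀ y : GG, y * g * y⁻¹ ∈ HH) : g = 1 := by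
  have h1 := h 1
  rw [one_mul, inv_one, mul_one] at h1
  refine W.ext' h1.1 fun s => ?_
  rw [ev_one]
  by_contra hne
  have hs : s ∈ Om := by
    by_contra hs; exact hne (h1.2 s hs)
  -- a matrix moving `s` out of `Om`
  obtain ⟨l, hl⟩ : ∃ l : Lam, l • s ∉ Om := by
    by_cases h0 : s 0 = 0 ∧ s 1 = 0
    · refine ⟨dA, fun hcon => ?_⟩
      have h2 := hcon.1 2
      have e : (dA • s) 2 = - s 2 := by
        show ((!![1, 0, 0; 0, -1, 0; 0, 0, -1] : Matrix (Fin 3) (Fin 3) ℤ).mulVec s) 2 = _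
        simp [Matrix.mulVec, dotProduct, Fin.sum_univ_three]
      rw [e] at h2
      have h3 := hs.1 2
      apply hs.2
      funext i
      fin_cases i
      · exact h0.1
      · exact h0.2
      · show s 2 = 0; omega
    · refine ⟨dB, fun hcon => ?_⟩
      have h2 := hcon.1 0
      have h2' := hcon.1 1
      have e : (dB • s) 0 = - s 0 := by
        show ((!![-1, 0, 0; 0, -1, 0; 0, 0, 1] : Matrix (Fin 3) (Fin 3) ℤ).mulVec s) 0 = _
        simp [Matrix.mulVec, dotProduct, Fin.sum_univ_three]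
      have e' : (dB • s) 1 = - s 1 := by
        show ((!![-1, 0, 0; 0, -1, 0; 0, 0, 1] : Matrix (Fin 3) (Fin 3) ℤ).mulVec s) 1 = _
        simp [Matrix.mulVec, dotProduct, Fin.sum_univ_three]
      rw [e] at h2
      rw [e'] at h2'
      have h3 := hs.1 0
      have h4 := hs.1 1
      exact h0 ⟨by omega, by omega⟩
  have h2 := (h (SemidirectProduct.inr l)).2 _ hl
  rw [ev_mul, ev_mul, ev_inr, ev_inv, ev_inr, zero_add, neg_zero, add_zero,
    SemidirectProduct.right_inr, inv_smul_smul] at h2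
  exact hne h2

theorem stab_u (p : PP) (g : GG) : orbitStab MM (Mon.u p g) = ⊥ := by
  rw [Subgroup.eq_bot_iff_forall]
  intro h hh
  have h1 := hh 1
  obtain ⟨k, hk⟩ := (Mon.isUnit_iff PP_units (h : MM)).1 h.isUnit
  rw [hk, Units.val_one, mul_one, Mon.u_mul_u, Mon.u.injEq] at h1
  apply Units.ext
  rw [hk, mul_eq_left.1 h1.2]
  rfl

theorem stab_c (o : Cos HH) : orbitStab MM (Mon.c o) = ⊥ := by
  rw [Subgroup.eq_bot_iff_forall]
  intro h hh
  obtain ⟨k, hk⟩ := (Mon.isUnit_iff PP_units (h : MM)).1 h.isUnit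
  induction o using Cos.ind with
  | h x =>
    have key : k⁻¹ = 1 := by
      apply core_trivial
      intro y
      have h1 := hh (Units.map (Mon.incl : GG →* MM) (toUnits (x⁻¹ * y)))
      have e : ((Units.map (Mon.incl : GG →* MM) (toUnits (x⁻¹ * y)) : MMˣ) : MM) =
        Mon.u 1 (x⁻¹ * y) := rfl
      rw [hk, e, Mon.c_mul_u, Mon.c_mul_u, op_smul_mk, op_smul_mk, Mon.c.injEq, Cos.mk_eq] at h1
      have e2 : x * (x⁻¹ * y) * (x * (x⁻¹ * y) * k)⁻¹ = y * k⁻¹ * y⁻¹ := by group
      rwa [e2] at h1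
    apply Units.ext
    rw [hk, inv_eq_one.1 key]
    rfl

theorem stab_z : orbitStab MM Mon.z = ⊤ := by
  rw [Subgroup.eq_top_iff']
  intro g v
  rw [Mon.z_mul, Mon.z_mul]

/-- The group component of a unit. -/
noncomputable def unitG (v : MMˣ) : GG :=
  match (v : MM) with
  | Mon.u _ g => g
  | _ => 1

theorem unitG_eq {v : MMˣ} {p : PP} {g : GG} (h : (v : MM) = Mon.u p g) : unitG v = g := by
  unfold unitG; rw [h]

theorem units_sofic : IsSofic MMˣ := by
  let f : MMˣ →* GG :=
    { toFun := unitG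
      map_one' := unitG_eq (p := 1) rfl
      map_mul' := by
        intro v w
        obtain ⟨g, hg⟩ := (Mon.isUnit_iff PP_units (v : MM)).1 v.isUnit
        obtain ⟨k, hk⟩ := (Mon.isUnit_iff PP_units (w : MM)).1 w.isUnit
        rw [unitG_eq hg, unitG_eq hk]
        exact unitG_eq (p := 1 * 1) (by rw [Units.val_mul, hg, hk, Mon.u_mul_u]) }
  refine IsSofic.of_injective f ?_ GG_sofic
  intro v w hvw
  obtain ⟨g, hg⟩ := (Mon.isUnit_iff PP_units (v : MM)).1 v.isUnit
  obtain ⟨k, hk⟩ := (Mon.isUnit_iff PP_units (w : MM)).1 w.isUnit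
  have h1 : unitG v = unitG w := hvw
  rw [unitG_eq hg, unitG_eq hk] at h1
  apply Units.ext
  rw [hg, hk, h1]

theorem quot_bot {x : MM} (h : orbitStab MM x = ⊥) : IsSofic (MMˣ ⧸ orbitStab MM x) := by
  refine IsSofic.of_injective
    ((QuotientGroup.quotientMulEquivOfEq h).trans QuotientGroup.quotientBot).toMonoidHom
    (MulEquiv.injective _) units_sofic

theorem quot_sofic (x : MM) : IsSofic (MMˣ ⧸ orbitStab MM x) := by
  rcases x with ⟨p, g⟩ | o | _
  · exact quot_bot (stab_u p g)
  · exact quot_bot (stab_c o)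
  · have : Subsingleton (MMˣ ⧸ orbitStab MM (Mon.z : MM)) := by
      rw [stab_z]
      exact QuotientGroup.subsingleton_quotient_top
    exact IsSofic.of_subsingleton

end Pool.Agent.H42.Sof
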