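import Pool.Agent.H42.SofMon

/-! # The group `(⊕_{ℤ³} ℤ/2) ⋊ SL₃(ℤ)` -/

open Matrix

namespace Pool.Agent.H42.Sof

section W

variable (Λ S : Type) [Group Λ] [MulAction Λ S]

/-- The action of `Λ` on the finitely supported functions on `S`. -/
noncomputable def wact : Λ →* MulAut (Multiplicative (S →₀ ZMod 2)) where
  toFun l := AddEquiv.toMultiplicative (Finsupp.domCongr (MulAction.toPerm l))
  map_one' := by
    refine MulEquiv.ext fun v => Multiplicative.toAdd.injective (Finsupp.ext fun s => ?_)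
    simp [Finsupp.domCongr, Finsupp.equivMapDomain_apply]
  map_mul' l l' := by
    refine MulEquiv.ext fun v => Multiplicative.toAdd.injective (Finsupp.ext fun s => ?_)
    simp [Finsupp.domCongr, Finsupp.equivMapDomain_apply, mul_smul]

/-- The (restricted, permutational) wreath product. -/
abbrev W := Multiplicative (S →₀ ZMod 2) ⋊[wact Λ S] Λ

variable {Λ S}

theorem wact_apply (l : Λ) (v : Multiplicative (S →₀ ZMod 2)) (s : S) :
    (Multiplicative.toAdd (wact Λ S l v)) s = (Multiplicative.toAdd v) (l⁻¹ • s) := rfl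

/-- The value of the left component. -/
def ev (w : W Λ S) (s : S) : ZMod 2 := (Multiplicative.toAdd w.left) s

theorem ev_mul (w w' : W Λ S) (s : S) : ev (w * w') s = ev w s + ev w' (w.right⁻¹ • s) := rfl

theorem ev_one (s : S) : ev (1 : W Λ S) s = 0 := rfl

theorem ev_inr (l : Λ) (s : S) : ev (SemidirectProduct.inr l : W Λ S) s = 0 := rfl

theorem ev_inv (w : W Λ S) (s : S) : ev w⁻¹ s = - ev w (w.right • s) := by
  have h := ev_mul w⁻¹ w s
  rw [inv_mul_cancel, ev_one, SemidirectProduct.inv_right, inv_inv] at h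
  exact eq_neg_of_add_eq_zero_left h.symm

theorem W.ext' {w w' : W Λ S} (h : w.right = w'.right) (h' : ∀ s, ev w s = ev w' s) : w = w' := by
  apply SemidirectProduct.ext
  · apply Multiplicative.toAdd.injective
    ext s
    exact h' s
  · exact h

/-- Functoriality. -/
noncomputable def wmap {Λ' S' : Type} [Group Λ'] [MulAction Λ' S'] (f : Λ →* Λ') (r : S → S')
    (h : ∀ (l : Λ) (s : S), r (l • s) = f l • r s) : W Λ S →* W Λ' S' :=
  SemidirectProduct.map (AddMonoidHom.toMultiplicative (Finsupp.mapDomain.addMonoidHom r)) f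
    (by
      intro l
      refine MonoidHom.ext fun v => Multiplicative.toAdd.injective ?_
      show Finsupp.mapDomain r (Finsupp.equivMapDomain (MulAction.toPerm l)
          (Multiplicative.toAdd v)) =
        Finsupp.equivMapDomain (MulAction.toPerm (f l))
          (Finsupp.mapDomain r (Multiplicative.toAdd v))
      rw [Finsupp.equivMapDomain_eq_mapDomain, Finsupp.equivMapDomain_eq_mapDomain,
        ← Finsupp.mapDomain_comp, ← Finsupp.mapDomain_comp]
      congr 1
      funext s
      exact h l s)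

/-- The subgroup of functions supported in `Ω`. -/
def HΩ (Ω : Set S) : Subgroup (W Λ S) where
  carrier := {w | w.right = 1 ∧ ∀ s, s ∉ Ω → ev w s = 0}
  one_mem' := ⟨rfl, fun s _ => rfl⟩
  mul_mem' := by
    rintro w w' ⟨h1, h2⟩ ⟨h1', h2'⟩
    refine ⟨by rw [SemidirectProduct.mul_right, h1, h1', one_mul], fun s hs => ?_⟩
    rw [ev_mul, h1, inv_one, one_smul, h2 s hs, h2' s hs, add_zero]
  inv_mem' := by
    rintro w ⟨h1, h2⟩
    refine ⟨by rw [SemidirectProduct.inv_right, h1, inv_one], fun s hs => ?_⟩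
    rw [ev_inv, h1, one_smul, h2 s hs, neg_zero]

theorem mem_HΩ {Ω : Set S} {w : W Λ S} : w ∈ HΩ Ω ↔ w.right = 1 ∧ ∀ s, s ∉ Ω → ev w s = 0 :=
  Iff.rfl

theorem conj_mem_HΩ {Ω : Set S} {l : Λ} (hl : ∀ s ∈ Ω, l • s ∈ Ω) {w : W Λ S} (hw : w ∈ HΩ Ω) :
    SemidirectProduct.inr l * w * (SemidirectProduct.inr l)⁻¹ ∈ HΩ Ω := by
  refine ⟨?_, fun s hs => ?_⟩
  · simp [hw.1]
  · rw [ev_mul, ev_mul, ev_inr, ev_inv, ev_inr, zero_add, neg_zero, add_zero,
      SemidirectProduct.right_inr]
    apply hw.2
    intro hcon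
    apply hs
    have := hl _ hcon
    rwa [smul_inv_smul] at this

end W

section Cosets

variable {G : Type} [Group G]

/-- The right cosets `H g`. -/
def Cos (H : Subgroup G) : Type := Quotient (QuotientGroup.rightRel H)

variable {H : Subgroup G}

/-- The coset `H x`. -/
def Cos.mk (H : Subgroup G) (x : G) : Cos H := Quotient.mk _ x

theorem Cos.mk_eq {x y : G} : Cos.mk H x = Cos.mk H y ↔ y * x⁻¹ ∈ H := by
  exact (Quotient.eq (r := QuotientGroup.rightRel H)).trans QuotientGroup.rightRel_apply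

/-- The submonoid of the elements `g` with `g H g⁻¹ ≤ H`. -/
def contr (H : Subgroup G) : Submonoid G where
  carrier := {g | ∀ h ∈ H, g * h * g⁻¹ ∈ H}
  one_mem' := fun h hh => by simpa using hh
  mul_mem' := by
    intro a b ha hb h hh
    have := ha _ (hb h hh)
    have e : a * b * h * (a * b)⁻¹ = a * (b * h * b⁻¹) * a⁻¹ := by group
    rw [e]; exact this

instance : MulAction Gᵐᵒᵖ (Cos H) where
  smul g := Quotient.map (fun x => x * g.unop) (by
    intro x y hxy
    have h1 : y * x⁻¹ ∈ H := QuotientGroup.rightRel_apply.1 hxy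
    apply QuotientGroup.rightRel_apply.2
    have e : y * g.unop * (x * g.unop)⁻¹ = y * x⁻¹ := by group
    rw [e]; exact h1)
  one_smul := by
    rintro ⟨x⟩
    show Cos.mk H (x * 1) = Cos.mk H x
    rw [mul_one]
  mul_smul := by
    rintro g g' ⟨x⟩
    show Cos.mk H (x * (g'.unop * g.unop)) = Cos.mk H (x * g'.unop * g.unop)
    rw [mul_assoc]

instance : MulAction (contr H) (Cos H) where
  smul k := Quotient.map (fun x => (k : G) * x) (by
    intro x y hxy
    have h1 : y * x⁻¹ ∈ H := QuotientGroup.rightRel_apply.1 hxy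
    apply QuotientGroup.rightRel_apply.2
    have e : (k : G) * y * ((k : G) * x)⁻¹ = k * (y * x⁻¹) * (k : G)⁻¹ := by group
    rw [e]; exact k.2 _ h1)
  one_smul := by
    rintro ⟨x⟩
    show Cos.mk H (1 * x) = Cos.mk H x
    rw [one_mul]
  mul_smul := by
    rintro k k' ⟨x⟩
    show Cos.mk H ((k * k' : G) * x) = Cos.mk H (k * (k' * x))
    rw [mul_assoc]

theorem op_smul_mk (g x : G) : MulOpposite.op g • Cos.mk H x = Cos.mk H (x * g) := rfl

theorem contr_smul_mk (k : contr H) (x : G) : k • Cos.mk H x = Cos.mk H (k * x) := rfl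

theorem Cos.ind {p : Cos H → Prop} (h : ∀ x, p (Cos.mk H x)) (o : Cos H) : p o :=
  Quotient.ind h o

instance : SMulCommClass (contr H) Gᵐᵒᵖ (Cos H) where
  smul_comm k g o := by
    induction o using Cos.ind with
    | h x =>
      rw [← MulOpposite.op_unop g, op_smul_mk, contr_smul_mk, contr_smul_mk, op_smul_mk, mul_assoc]

end Cosets

end Pool.Agent.H42.Sof
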