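import Mathlib

/-! # Finitely additive probabilities and the hexagon argument

The combinatorial core (due to helper96): there is no random function `Ψ : Λ → ℕ`, stationary
under right translation, which almost surely increases strictly under left multiplication by the six
elementary matrices of `SL₃`. -/

open Filter Set

namespace Pool.Agent.H42.Sof

/-- A finitely additive probability defined on all subsets. -/
structure FAP (Y : Type*) where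
  μ : Set Y → ℝ
  nonneg : ∀ A, 0 ≤ μ A
  univ : μ Set.univ = 1
  union : ∀ A B, Disjoint A B → μ (A ∪ B) = μ A + μ B

namespace FAP

variable {Y : Type*} (P : FAP Y)

theorem empty : P.μ ∅ = 0 := by
  have := P.union ∅ ∅ (by simp)
  simp only [Set.union_empty] at this
  linarith

theorem compl (A : Set Y) : P.μ Aᶜ = 1 - P.μ A := by
  have := P.union A Aᶜ disjoint_compl_right
  rw [Set.union_compl_self, P.univ] at this
  linarith

theorem mono {A B : Set Y} (h : A ⊆ B) : P.μ A ≤ P.μ B := by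
  have := P.union A (B \ A) Set.disjoint_sdiff_right
  rw [Set.union_sdiff_cancel h] at this
  linarith [P.nonneg (B \ A)]

theorem le_one (A : Set Y) : P.μ A ≤ 1 := by
  rw [← P.univ]; exact P.mono (Set.subset_univ _)

theorem union_le (A B : Set Y) : P.μ (A ∪ B) ≤ P.μ A + P.μ B := by
  have h := P.union A (B \ A) Set.disjoint_sdiff_right
  rw [Set.union_sdiff_self] at h
  linarith [P.mono (Set.sdiff_subset : B \ A ⊆ B)]

/-- The filter of sets of measure one. -/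
def ae : Filter Y where
  sets := {A | P.μ Aᶜ = 0}
  univ_sets := by simp [P.empty]
  sets_of_superset := by
    intro A B hA hAB
    have h1 : P.μ Aᶜ = 0 := hA
    show P.μ Bᶜ = 0
    have h2 := P.mono (Set.compl_subset_compl.2 hAB)
    linarith [P.nonneg Bᶜ]
  inter_sets := by
    intro A B hA hB
    have h1 : P.μ Aᶜ = 0 := hA
    have h2 : P.μ Bᶜ = 0 := hB
    show P.μ (A ∩ B)ᶜ = 0
    rw [Set.compl_inter]
    linarith [P.nonneg (Aᶜ ∪ Bᶜ), P.union_le Aᶜ Bᶜ]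

theorem mem_ae {A : Set Y} : A ∈ P.ae ↔ P.μ Aᶜ = 0 := Iff.rfl

theorem mem_ae_iff {A : Set Y} : A ∈ P.ae ↔ P.μ A = 1 := by
  rw [mem_ae, P.compl]; constructor <;> intro h <;> linarith

instance : NeBot P.ae := by
  refine ⟨fun h => ?_⟩
  have : (∅ : Set Y) ∈ P.ae := by rw [h]; trivial
  rw [mem_ae_iff, P.empty] at this
  norm_num at this

theorem mono_ae {A B : Set Y} (h : ∀ᶠ y in P.ae, y ∈ A → y ∈ B) : P.μ A ≤ P.μ B := by
  have h1 : P.μ ({y | y ∈ A → y ∈ B}ᶜ) = 0 := h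
  have h2 : A ⊆ B ∪ {y | y ∈ A → y ∈ B}ᶜ := by
    intro y hy
    by_cases hb : y ∈ B
    · exact Or.inl hb
    · exact Or.inr (fun h => hb (h hy))
  linarith [P.mono h2, P.union_le B {y | y ∈ A → y ∈ B}ᶜ]

theorem congr_ae {A B : Set Y} (h : ∀ᶠ y in P.ae, y ∈ A ↔ y ∈ B) : P.μ A = P.μ B :=
  le_antisymm (P.mono_ae (h.mono fun _ h => h.1)) (P.mono_ae (h.mono fun _ h => h.2))

/-- a.e. disjoint sets. -/
theorem add_le_one {A B : Set Y} (h : ∀ᶠ y in P.ae, ¬ (y ∈ A ∧ y ∈ B)) : P.μ A + P.μ B ≤ 1 := by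
  have h1 : P.μ A ≤ P.μ Bᶜ := P.mono_ae (h.mono fun y hy ha hb => hy ⟨ha, hb⟩)
  rw [P.compl] at h1
  linarith

theorem one_le_add {A B : Set Y} (h : ∀ᶠ y in P.ae, y ∈ A ∨ y ∈ B) : 1 ≤ P.μ A + P.μ B := by
  have h1 : P.μ Bᶜ ≤ P.μ A := P.mono_ae (h.mono fun y hy hb => hy.resolve_right hb)
  rw [P.compl] at h1
  linarith

/-- If `A ⊆ B` a.e. and `μ B ≤ μ A` then `A = B` a.e. -/
theorem eq_of_le {A B : Set Y} (h : ∀ᶠ y in P.ae, y ∈ A → y ∈ B) (hμ : P.μ B ≤ P.μ A) :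
    ∀ᶠ y in P.ae, y ∈ A ↔ y ∈ B := by
  have h1 : P.μ (B \ A) = 0 := by
    have h2 := P.union (A ∩ B) (B \ A) (by
      rw [Set.disjoint_left]; intro y hy hy'; exact hy'.2 hy.1)
    have h3 : A ∩ B ∪ B \ A = B := by
      ext y; constructor
      · rintro (h | h)
        · exact h.2
        · exact h.1
      · intro h
        by_cases ha : y ∈ A
        · exact Or.inl ⟨ha, h⟩
        · exact Or.inr ⟨h, ha⟩
    rw [h3] at h2
    have h4 : P.μ (A ∩ B) = P.μ A :=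
      P.congr_ae (h.mono fun y hy => ⟨fun h => h.1, fun h => ⟨h, hy h⟩⟩)
    linarith [P.nonneg (B \ A)]
  have h5 : ∀ᶠ y in P.ae, ¬ (y ∈ B \ A) := by
    show P.μ _ = 0
    rw [← h1]; congr 1; ext y; simp
  filter_upwards [h, h5] with y hy hy'
  refine ⟨hy, fun hb => ?_⟩
  by_contra ha
  exact hy' ⟨hb, ha⟩

/-- a.e. disjoint sets with total mass one are a.e. complementary. -/
theorem compl_of_eq {A B : Set Y} (h : ∀ᶠ y in P.ae, ¬ (y ∈ A ∧ y ∈ B))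
    (hμ : 1 ≤ P.μ A + P.μ B) : ∀ᶠ y in P.ae, y ∈ A ↔ y ∉ B := by
  have h1 := P.eq_of_le (A := A) (B := Bᶜ) (h.mono fun y hy ha hb => hy ⟨ha, hb⟩)
    (by rw [P.compl]; linarith)
  exact h1

end FAP

section Hexagon

variable {Y : Type*} (P : FAP Y) {Λ : Type*} [Group Λ] (Ψ : Λ → Y → ℕ)

/-- `b` increases `Ψ` almost surely. -/
def Incr (b : Λ) : Prop := ∀ g, ∀ᶠ y in P.ae, Ψ g y < Ψ (b * g) y

/-- `b` weakly increases `Ψ` almost surely. -/
def WIncr (b : Λ) : Prop := ∀ g, ∀ᶠ y in P.ae, Ψ g y ≤ Ψ (b * g) y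

variable {P Ψ}

theorem WIncr.one : WIncr P Ψ (1 : Λ) := fun g => by simp

theorem WIncr.mul {b c : Λ} (hb : WIncr P Ψ b) (hc : WIncr P Ψ c) : WIncr P Ψ (b * c) := by
  intro g
  filter_upwards [hc g, hb (c * g)] with y h1 h2
  rw [mul_assoc]; exact h1.trans h2

theorem Incr.weak {b : Λ} (hb : Incr P Ψ b) : WIncr P Ψ b := fun g => (hb g).mono fun _ h => h.le

theorem WIncr.pow {b : Λ} (hb : WIncr P Ψ b) (n : ℕ) : WIncr P Ψ (b ^ n) := by
  induction n with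
  | zero => rw [pow_zero]; exact WIncr.one
  | succ n ih => rw [pow_succ]; exact ih.mul hb

theorem Incr.pow {b : Λ} (hb : Incr P Ψ b) {n : ℕ} (hn : 0 < n) : Incr P Ψ (b ^ n) := by
  obtain ⟨m, rfl⟩ : ∃ m, n = m + 1 := ⟨n - 1, by omega⟩
  intro g
  rw [pow_succ]
  filter_upwards [hb g, (hb.weak.pow m) (b * g)] with y h1 h2
  rw [mul_assoc]; exact h1.trans_le h2

/-- The event `Ψ g₁ ≤ Ψ g₂`. -/
def Ev (Ψ : Λ → Y → ℕ) (g₁ g₂ : Λ) : Set Y := {y | Ψ g₁ y ≤ Ψ g₂ y}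

/-- `q z b`: the probability that `b ^ 3 ≤ z ^ 4`. -/
noncomputable def q (P : FAP Y) (Ψ : Λ → Y → ℕ) (z b : Λ) : ℝ := P.μ (Ev Ψ (b ^ 3) (z ^ 4))

/-- The admissible pairs of exponents. -/
def Adm (N M : ℕ) : Prop := (N = 3 ∨ N = 4) ∧ (M = 3 ∨ M = 4) ∧ N ≤ M

theorem pow_mono_ae {b : Λ} (hb : WIncr P Ψ b) {n m : ℕ} (h : n ≤ m) (g : Λ) :
    ∀ᶠ y in P.ae, Ψ (b ^ n * g) y ≤ Ψ (b ^ m * g) y := by
  have := (hb.pow (m - n)) (b ^ n * g)
  rwa [← mul_assoc, ← pow_add, Nat.sub_add_cancel h] at this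

/-- Totality. -/
theorem total {z b : Λ} (hz : WIncr P Ψ z) (hb : WIncr P Ψ b) {N M : ℕ} (h : Adm N M) :
    1 ≤ P.μ (Ev Ψ (b ^ N) (z ^ M)) + q P Ψ b z := by
  apply P.one_le_add
  have h1 := pow_mono_ae hz (show 3 ≤ M by rcases h.2.1 with h | h <;> omega) 1
  have h2 := pow_mono_ae hb (show N ≤ 4 by rcases h.1 with h | h <;> omega) 1
  simp only [mul_one] at h1 h2
  filter_upwards [h1, h2] with y h1 h2
  by_cases h3 : Ψ (b ^ N) y ≤ Ψ (z ^ M) y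
  · exact Or.inl h3
  · right
    show Ψ (z ^ 3) y ≤ Ψ (b ^ 4) y
    omega

/-- In every group: if `x y = z y x` with `z` commuting with `x` and `y`, then
`y ^ n' * x ^ n * y ^ (-n') = z ^ (- n n') x ^ n`. -/
theorem comm_pow {x y z : Λ} (h : x * y = z * (y * x)) (hzx : Commute z x) (hzy : Commute z y)
    (n n' : ℕ) : x ^ n * y ^ n' = z ^ (n * n') * (y ^ n' * x ^ n) := by
  have h1 : ∀ n : ℕ, x ^ n * y = z ^ n * (y * x ^ n) := by
    intro n
    induction n with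
    | zero => simp
    | succ n ih =>
      calc x ^ (n + 1) * y = x ^ n * (x * y) := by rw [pow_succ, mul_assoc]
        _ = x ^ n * z * (y * x) := by rw [h, mul_assoc]
        _ = z * x ^ n * (y * x) := by rw [(hzx.pow_right n).eq]
        _ = z * (x ^ n * y) * x := by simp only [mul_assoc]
        _ = z * (z ^ n * (y * x ^ n)) * x := by rw [ih]
        _ = z ^ (n + 1) * (y * x ^ (n + 1)) := by
            rw [pow_succ' z, pow_succ x]; simp only [mul_assoc]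
  induction n' with
  | zero => simp
  | succ n' ih =>
    calc x ^ n * y ^ (n' + 1) = (x ^ n * y ^ n') * y := by rw [pow_succ, mul_assoc]
      _ = z ^ (n * n') * (y ^ n' * (x ^ n * y)) := by rw [ih]; simp only [mul_assoc]
      _ = z ^ (n * n') * (y ^ n' * z ^ n * (y * x ^ n)) := by rw [h1]; simp only [mul_assoc]
      _ = z ^ (n * n') * (z ^ n * y ^ n' * (y * x ^ n)) := by
          rw [((hzy.pow_right n').pow_left n).eq]
      _ = z ^ (n * (n' + 1)) * (y ^ (n' + 1) * x ^ n) := by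
          rw [Nat.mul_succ, pow_add, pow_succ y]; simp only [mul_assoc]

/-- The key disjointness. -/
theorem disj {x y z : Λ} (h : x * y = z * (y * x)) (hzx : Commute z x) (hzy : Commute z y)
    (hx : Incr P Ψ x) (hy : Incr P Ψ y) (hz : Incr P Ψ z) {N M N' M' : ℕ}
    (h1 : Adm N M) (h2 : Adm N' M') (g : Λ) :
    ∀ᶠ w in P.ae, ¬ (w ∈ Ev Ψ (x ^ N * g) (z ^ M * g) ∧
      w ∈ Ev Ψ (y ^ N' * ((y ^ N')⁻¹ * z ^ M * g)) (z ^ M' * ((y ^ N')⁻¹ * z ^ M * g))) := by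
  have hnn : M + M' < N * N' := by
    rcases h1.1 with h | h <;> rcases h2.1 with h' | h' <;> subst h <;> subst h' <;>
    rcases h1.2.1 with h | h <;> rcases h2.2.1 with h' | h' <;> omega
  -- weak increase by x^N then y^N'
  have e1 := (hy.weak.pow N').mul (hx.weak.pow N) (z ^ M' * ((y ^ N')⁻¹ * z ^ M * g))
  -- strict increase by z^(N N' - M - M')
  have e2 := (hz.pow (show 0 < N * N' - (M + M') by omega))
    (y ^ N' * x ^ N * (z ^ M' * ((y ^ N')⁻¹ * z ^ M * g)))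
  have key : z ^ (N * N' - (M + M')) * (y ^ N' * x ^ N * (z ^ M' * ((y ^ N')⁻¹ * z ^ M * g)))
      = x ^ N * g := by
    have c1 : z ^ M' * (y ^ N')⁻¹ = (y ^ N')⁻¹ * z ^ M' :=
      ((hzy.pow_right N').inv_right.pow_left M').eq
    have c2 := comm_pow h hzx hzy N N'
    have c3 : y ^ N' * x ^ N = (z ^ (N * N'))⁻¹ * (x ^ N * y ^ N') := by
      rw [c2, ← mul_assoc, inv_mul_cancel, one_mul]
    have c4 : x ^ N * z ^ (M + M') = z ^ (M + M') * x ^ N :=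
      ((hzx.pow_right N).pow_left (M + M')).eq.symm
    calc z ^ (N * N' - (M + M')) * (y ^ N' * x ^ N * (z ^ M' * ((y ^ N')⁻¹ * z ^ M * g)))
        = z ^ (N * N' - (M + M')) * (y ^ N' * x ^ N * ((z ^ M' * (y ^ N')⁻¹) * (z ^ M * g))) := by
          simp only [mul_assoc]
      _ = z ^ (N * N' - (M + M')) * (((z ^ (N * N'))⁻¹ * (x ^ N * y ^ N')) *
            (((y ^ N')⁻¹ * z ^ M') * (z ^ M * g))) := by rw [c1, c3]
      _ = z ^ (N * N' - (M + M')) * (z ^ (N * N'))⁻¹ * (x ^ N * (z ^ M' * z ^ M)) * g := by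
          simp only [mul_assoc, mul_inv_cancel_left]
      _ = z ^ (N * N' - (M + M')) * (z ^ (N * N'))⁻¹ * (x ^ N * z ^ (M + M')) * g := by
          rw [← pow_add, Nat.add_comm M' M]
      _ = z ^ (N * N' - (M + M')) * (z ^ (N * N'))⁻¹ * (z ^ (M + M') * x ^ N) * g := by rw [c4]
      _ = (z ^ (N * N' - (M + M')) * (z ^ (N * N'))⁻¹ * z ^ (M + M')) * (x ^ N * g) := by
          simp only [mul_assoc]
      _ = x ^ N * g := by
          have : z ^ (N * N') = z ^ (M + M') * z ^ (N * N' - (M + M')) := by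
            rw [← pow_add]; congr 1; omega
          rw [this]; group
  rw [key] at e2
  filter_upwards [e1, e2] with w e1 e2
  rintro ⟨k1, k2⟩
  have k1' : Ψ (x ^ N * g) w ≤ Ψ (z ^ M * g) w := k1
  have k2' : Ψ (y ^ N' * ((y ^ N')⁻¹ * z ^ M * g)) w ≤
    Ψ (z ^ M' * ((y ^ N')⁻¹ * z ^ M * g)) w := k2
  have k3 : y ^ N' * ((y ^ N')⁻¹ * z ^ M * g) = z ^ M * g := by
    simp only [mul_assoc, mul_inv_cancel_left]
  rw [k3] at k2'
  omega

theorem ev_eq {z b : Λ} (hz : WIncr P Ψ z) (hb : WIncr P Ψ b)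
    (hstat : ∀ g₁ g₂ h : Λ, P.μ (Ev Ψ (g₁ * h) (g₂ * h)) = P.μ (Ev Ψ g₁ g₂))
    (hq : q P Ψ z b + q P Ψ b z = 1) {N M : ℕ} (h : Adm N M) (g : Λ) :
    ∀ᶠ w in P.ae, w ∈ Ev Ψ (b ^ N * g) (z ^ M * g) ↔ w ∈ Ev Ψ (b ^ 3 * g) (z ^ 4 * g) := by
  apply P.eq_of_le
  · filter_upwards [pow_mono_ae hz (show M ≤ 4 by rcases h.2.1 with h | h <;> omega) g,
      pow_mono_ae hb (show 3 ≤ N by rcases h.1 with h | h <;> omega) g] with w h1 h2 h3
    have h3' : Ψ (b ^ N * g) w ≤ Ψ (z ^ M * g) w := h3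
    show Ψ (b ^ 3 * g) w ≤ Ψ (z ^ 4 * g) w
    omega
  · rw [hstat, hstat]
    have := total hz hb h
    have h2 : P.μ (Ev Ψ (b ^ 3) (z ^ 4)) = q P Ψ z b := rfl
    linarith

theorem pair {x y z : Λ} (h : x * y = z * (y * x)) (hzx : Commute z x) (hzy : Commute z y)
    (hx : Incr P Ψ x) (hy : Incr P Ψ y) (hz : Incr P Ψ z)
    (hstat : ∀ g₁ g₂ h : Λ, P.μ (Ev Ψ (g₁ * h) (g₂ * h)) = P.μ (Ev Ψ g₁ g₂))
    (hq : q P Ψ z x + q P Ψ z y = 1) (hqx : q P Ψ z x + q P Ψ x z = 1)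
    (hqy : q P Ψ z y + q P Ψ y z = 1) :
    ∀ᶠ w in P.ae, ¬ (w ∈ Ev Ψ (x ^ 4) (z ^ 4) ∧ w ∈ Ev Ψ (y ^ 4) (z ^ 4)) := by
  -- complementarity
  have comp : ∀ N' M : ℕ, (N' = 3 ∨ N' = 4) → (M = 3 ∨ M = 4) → ∀ g : Λ, ∀ᶠ w in P.ae,
      w ∈ Ev Ψ (x ^ 3 * g) (z ^ 4 * g) ↔
      w ∉ Ev Ψ (y ^ 3 * ((y ^ N')⁻¹ * z ^ M * g)) (z ^ 4 * ((y ^ N')⁻¹ * z ^ M * g)) := by
    intro N' M hN' hM g
    have a1 : Adm 3 M := ⟨Or.inl rfl, hM, by rcases hM with h | h <;> omega⟩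
    have a2 : Adm N' 4 := ⟨hN', Or.inr rfl, by rcases hN' with h | h <;> omega⟩
    have h1 := disj h hzx hzy hx hy hz a1 a2 g
    have h2 := P.compl_of_eq h1 (by
      rw [hstat, hstat]
      have t1 := total hz.weak hx.weak a1
      have t2 := total hz.weak hy.weak a2
      linarith)
    filter_upwards [h2, ev_eq hz.weak hx.weak hstat hqx a1 g,
      ev_eq hz.weak hy.weak hstat hqy a2 ((y ^ N')⁻¹ * z ^ M * g)] with w h2 h3 h4
    rw [← h3, ← h4]; exact h2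
  have invy : ∀ u : Λ, ∀ᶠ w in P.ae,
      w ∈ Ev Ψ (y ^ 3 * u) (z ^ 4 * u) ↔ w ∈ Ev Ψ (y ^ 3 * (y⁻¹ * u)) (z ^ 4 * (y⁻¹ * u)) := by
    intro u
    have c1 := comp 3 3 (Or.inl rfl) (Or.inl rfl) ((z ^ 3)⁻¹ * (y ^ 3 * u))
    have c2 := comp 4 3 (Or.inr rfl) (Or.inl rfl) ((z ^ 3)⁻¹ * (y ^ 3 * u))
    have e1 : (y ^ 3)⁻¹ * z ^ 3 * ((z ^ 3)⁻¹ * (y ^ 3 * u)) = u := by group
    have e2 : (y ^ 4)⁻¹ * z ^ 3 * ((z ^ 3)⁻¹ * (y ^ 3 * u)) = y⁻¹ * u := by group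
    rw [e1] at c1
    rw [e2] at c2
    filter_upwards [c1, c2] with w c1 c2
    tauto
  have invz : ∀ u : Λ, ∀ᶠ w in P.ae,
      w ∈ Ev Ψ (y ^ 3 * u) (z ^ 4 * u) ↔ w ∈ Ev Ψ (y ^ 3 * (z * u)) (z ^ 4 * (z * u)) := by
    intro u
    have c1 := comp 3 3 (Or.inl rfl) (Or.inl rfl) ((z ^ 3)⁻¹ * (y ^ 3 * u))
    have c2 := comp 3 4 (Or.inl rfl) (Or.inr rfl) ((z ^ 3)⁻¹ * (y ^ 3 * u))
    have e1 : (y ^ 3)⁻¹ * z ^ 3 * ((z ^ 3)⁻¹ * (y ^ 3 * u)) = u := by group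
    have e2 : (y ^ 3)⁻¹ * z ^ 4 * ((z ^ 3)⁻¹ * (y ^ 3 * u)) = z * u := by
      have : (y ^ 3)⁻¹ * z = z * (y ^ 3)⁻¹ := ((hzy.pow_right 3).inv_right).eq.symm
      calc (y ^ 3)⁻¹ * z ^ 4 * ((z ^ 3)⁻¹ * (y ^ 3 * u))
          = (y ^ 3)⁻¹ * z * (y ^ 3 * u) := by group
        _ = z * (y ^ 3)⁻¹ * (y ^ 3 * u) := by rw [this]
        _ = z * u := by group
    rw [e1] at c1
    rw [e2] at c2
    filter_upwards [c1, c2] with w c1 c2
    tauto
  have invyn : ∀ (n : ℕ) (u : Λ), ∀ᶠ w in P.ae, w ∈ Ev Ψ (y ^ 3 * u) (z ^ 4 * u) ↔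
      w ∈ Ev Ψ (y ^ 3 * ((y ^ n)⁻¹ * u)) (z ^ 4 * ((y ^ n)⁻¹ * u)) := by
    intro n
    induction n with
    | zero => intro u; simp
    | succ n ih =>
      intro u
      have e : (y ^ (n + 1))⁻¹ * u = y⁻¹ * ((y ^ n)⁻¹ * u) := by
        rw [pow_succ, mul_inv_rev, mul_assoc]
      rw [e]
      filter_upwards [ih u, invy ((y ^ n)⁻¹ * u)] with w h1 h2
      rw [h1, h2]
  have invzn : ∀ (n : ℕ) (u : Λ), ∀ᶠ w in P.ae, w ∈ Ev Ψ (y ^ 3 * u) (z ^ 4 * u) ↔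
      w ∈ Ev Ψ (y ^ 3 * (z ^ n * u)) (z ^ 4 * (z ^ n * u)) := by
    intro n
    induction n with
    | zero => intro u; simp
    | succ n ih =>
      intro u
      have e : z ^ (n + 1) * u = z * (z ^ n * u) := by
        rw [pow_succ', mul_assoc]
      rw [e]
      filter_upwards [ih u, invz (z ^ n * u)] with w h1 h2
      rw [h1, h2]
  have a44 : Adm 4 4 := ⟨Or.inr rfl, Or.inr rfl, le_rfl⟩
  have c1 := comp 3 3 (Or.inl rfl) (Or.inl rfl) 1
  have c2 := invzn 3 1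
  have c3 := invyn 3 (z ^ 3 * 1)
  have c4 := ev_eq hz.weak hx.weak hstat hqx a44 1
  have c5 := ev_eq hz.weak hy.weak hstat hqy a44 1
  rw [mul_assoc] at c1
  filter_upwards [c1, c2, c3, c4, c5] with w c1 c2 c3 c4 c5
  simp only [mul_one] at c1 c2 c3 c4 c5
  tauto

/-- **The hexagon contradiction.** -/
theorem hexagon (a : Fin 3 → Fin 3 → Λ)
    (hrel : ∀ i j k : Fin 3, i ≠ j → j ≠ k → i ≠ k →
      a i j * a j k = a i k * (a j k * a i j) ∧ Commute (a i k) (a i j) ∧ Commute (a i k) (a j k))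
    (hinc : ∀ i j : Fin 3, i ≠ j → Incr P Ψ (a i j))
    (hstat : ∀ g₁ g₂ h : Λ, P.μ (Ev Ψ (g₁ * h) (g₂ * h)) = P.μ (Ev Ψ g₁ g₂)) : False := by
  have a34 : Adm 3 4 := ⟨Or.inl rfl, Or.inr rfl, by norm_num⟩
  have hC : ∀ i j k : Fin 3, i ≠ j → j ≠ k → i ≠ k →
      q P Ψ (a i k) (a i j) + q P Ψ (a i k) (a j k) ≤ 1 := by
    intro i j k hij hjk hik
    obtain ⟨r1, r2, r3⟩ := hrel i j k hij hjk hik
    have h1 := disj r1 r2 r3 (hinc i j hij) (hinc j k hjk) (hinc i k hik) a34 a34 1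
    have h2 := P.add_le_one h1
    rw [hstat, hstat] at h2
    exact h2
  have hT : ∀ i j k l : Fin 3, i ≠ j → k ≠ l →
      1 ≤ q P Ψ (a i j) (a k l) + q P Ψ (a k l) (a i j) := fun i j k l h1 h2 =>
    total (hinc i j h1).weak (hinc k l h2).weak a34
  have hall : ∀ i j k : Fin 3, i ≠ j → j ≠ k → i ≠ k →
      q P Ψ (a i k) (a i j) + q P Ψ (a i k) (a j k) = 1 ∧
      q P Ψ (a i k) (a i j) + q P Ψ (a i j) (a i k) = 1 ∧
      q P Ψ (a i k) (a j k) + q P Ψ (a j k) (a i k) = 1 := by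
    have c1 := hC 0 1 2 (by decide) (by decide) (by decide)
    have c2 := hC 0 2 1 (by decide) (by decide) (by decide)
    have c3 := hC 1 0 2 (by decide) (by decide) (by decide)
    have c4 := hC 1 2 0 (by decide) (by decide) (by decide)
    have c5 := hC 2 0 1 (by decide) (by decide) (by decide)
    have c6 := hC 2 1 0 (by decide) (by decide) (by decide)
    have t1 := hT 0 2 0 1 (by decide) (by decide)
    have t2 := hT 0 2 1 2 (by decide) (by decide)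
    have t3 := hT 0 1 2 1 (by decide) (by decide)
    have t4 := hT 1 2 1 0 (by decide) (by decide)
    have t5 := hT 1 0 2 0 (by decide) (by decide)
    have t6 := hT 2 1 2 0 (by decide) (by decide)
    intro i j k hij hjk hik
    fin_cases i <;> fin_cases j <;> fin_cases k <;>
      first
      | exact absurd rfl hij
      | exact absurd rfl hjk
      | exact absurd rfl hik
      | (refine ⟨?_, ?_, ?_⟩ <;> simp only [Fin.zero_eta, Fin.mk_one, Fin.reduceFinMk] <;>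
          linarith)
  have hae : ∀ᶠ w in P.ae, ∀ i j k : Fin 3, i ≠ j → j ≠ k → i ≠ k →
      ¬ (w ∈ Ev Ψ ((a i j) ^ 4) ((a i k) ^ 4) ∧ w ∈ Ev Ψ ((a j k) ^ 4) ((a i k) ^ 4)) := by
    simp only [eventually_all]
    intro i j k hij hjk hik
    obtain ⟨r1, r2, r3⟩ := hrel i j k hij hjk hik
    obtain ⟨s1, s2, s3⟩ := hall i j k hij hjk hik
    exact pair r1 r2 r3 (hinc i j hij) (hinc j k hjk) (hinc i k hik) hstat s1 s2 s3
  obtain ⟨w, hw⟩ := hae.exists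
  obtain ⟨⟨i, k⟩, hik, hmax⟩ := Finset.exists_max_image
    (Finset.univ.filter fun p : Fin 3 × Fin 3 => p.1 ≠ p.2) (fun p => Ψ ((a p.1 p.2) ^ 4) w)
    ⟨(0, 1), by simp⟩
  have hik' : i ≠ k := by simpa using hik
  obtain ⟨j, hij, hjk⟩ : ∃ j : Fin 3, i ≠ j ∧ j ≠ k := by
    revert hik'; clear hik hmax hw
    revert i k; decide
  exact hw i j k hij hjk hik' ⟨hmax (i, j) (by simpa using hij), hmax (j, k) (by simpa using hjk)⟩

end Hexagon

end Pool.Agent.H42.Sof
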