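import Pool.Agent.H42.SofHex

/-! # Ultralimits of counting measures -/

open Filter Set Topology

open scoped Classical

namespace Pool.Agent.H42.Sof

section Lim

variable {I : Type*} {X : I → Type*} [∀ i, Fintype (X i)]

/-- The number of points of `A` over `i`. -/
noncomputable def cnt (A : Set (Σ i, X i)) (i : I) : ℕ :=
  (Finset.univ.filter fun x : X i => (⟨i, x⟩ : Σ i, X i) ∈ A).card

/-- The density of `A` over `i`. -/
noncomputable def dens (A : Set (Σ i, X i)) (i : I) : ℝ := (cnt A i : ℝ) / (Fintype.card (X i) : ℝ)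

theorem cnt_le (A : Set (Σ i, X i)) (i : I) : cnt A i ≤ Fintype.card (X i) := by
  unfold cnt; exact Finset.card_le_univ _

theorem cnt_eq_sum (A : Set (Σ i, X i)) (i : I) :
    cnt A i = ∑ x : X i, if (⟨i, x⟩ : Σ i, X i) ∈ A then 1 else 0 := by
  unfold cnt; rw [Finset.card_filter]

theorem cnt_eq_fiberwise (A : Set (Σ i, X i)) (i : I) (f : X i → X i) :
    cnt A i = ∑ c : X i,
      (Finset.univ.filter fun x : X i => (⟨i, x⟩ : Σ i, X i) ∈ A ∧ f x = c).card := by
  unfold cnt
  rw [Finset.card_eq_sum_card_fiberwise (f := f) (t := Finset.univ) (fun x _ => by simp)]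
  refine Finset.sum_congr rfl fun c _ => ?_
  rw [Finset.filter_filter]

theorem dens_nonneg (A : Set (Σ i, X i)) (i : I) : 0 ≤ dens A i := by
  unfold dens; positivity

theorem dens_le_one (A : Set (Σ i, X i)) (i : I) : dens A i ≤ 1 := by
  unfold dens
  exact div_le_one_of_le₀ (by exact_mod_cast cnt_le A i) (by positivity)

variable (U : Ultrafilter I)

/-- The limit of the densities. -/
noncomputable def lmu (A : Set (Σ i, X i)) : ℝ := limUnder (U : Filter I) (dens A)

theorem tendsto_lmu (A : Set (Σ i, X i)) : Tendsto (dens A) U (𝓝 (lmu U A)) := by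
  apply tendsto_nhds_limUnder
  obtain ⟨x, _, hx⟩ := (isCompact_Icc (a := (0 : ℝ)) (b := 1)).ultrafilter_le_nhds (U.map (dens A))
    (by
      rw [le_principal_iff]
      exact Filter.univ_mem' (s := (dens A) ⁻¹' Set.Icc 0 1)
        fun i => ⟨dens_nonneg A i, dens_le_one A i⟩)
  exact ⟨x, hx⟩

/-- The ultralimit of the normalised counting measures. -/
noncomputable def limFAP [∀ i, Nonempty (X i)] : FAP (Σ i, X i) where
  μ := lmu U
  nonneg A := ge_of_tendsto' (tendsto_lmu U A) fun i => dens_nonneg A i
  univ := by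
    refine tendsto_nhds_unique (tendsto_lmu U _) ?_
    have : dens (Set.univ : Set (Σ i, X i)) = fun _ => (1 : ℝ) := by
      funext i
      have hc : (Fintype.card (X i) : ℝ) ≠ 0 := by
        exact_mod_cast Fintype.card_ne_zero
      simp [dens, cnt, hc]
    rw [this]; exact tendsto_const_nhds
  union A B hAB := by
    refine tendsto_nhds_unique (tendsto_lmu U _) ?_
    have : dens (A ∪ B) = fun i => dens A i + dens B i := by
      funext i
      unfold dens
      rw [← add_div]
      congr 1
      have : cnt (A ∪ B) i = cnt A i + cnt B i := by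
        unfold cnt
        rw [← Finset.card_union_of_disjoint]
        · congr 1; ext x; simp
        · rw [Finset.disjoint_left]
          intro x hx hx'
          simp only [Finset.mem_filter, Finset.mem_univ, true_and] at hx hx'
          exact Set.disjoint_left.1 hAB hx hx'
      rw [this]; push_cast; rfl
    rw [this]; exact (tendsto_lmu U A).add (tendsto_lmu U B)

variable [∀ i, Nonempty (X i)]

/-- A linear inequality between densities passes to the limit. -/
theorem lmu_sum_le {J : Type*} (s : Finset J) (A : J → Set (Σ i, X i)) (B : Set (Σ i, X i))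
    (C D : ℝ) (h : ∀ i, ∑ j ∈ s, dens (A j) i ≤ C + D * dens B i) :
    ∑ j ∈ s, (limFAP U).μ (A j) ≤ C + D * (limFAP U).μ B := by
  refine le_of_tendsto_of_tendsto' (tendsto_finsetSum s fun j _ => tendsto_lmu U (A j))
    (tendsto_const_nhds.add ((tendsto_lmu U B).const_mul D)) h

/-- If the sets `A j` have a.e. multiplicity at most `C` then the sum of their masses is at most
`C`. -/
theorem sum_le_of_ae {J : Type*} (s : Finset J) (A : J → Set (Σ i, X i)) (C : ℕ)
    (h : ∀ᶠ y in (limFAP U).ae, (s.filter fun j => y ∈ A j).card ≤ C) :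
    ∑ j ∈ s, (limFAP U).μ (A j) ≤ C := by
  set B : Set (Σ i, X i) := {y | (s.filter fun j => y ∈ A j).card ≤ C}ᶜ with hB
  have hB0 : (limFAP U).μ B = 0 := h
  have key := lmu_sum_le U s A B C s.card (fun i => by
    unfold dens
    rw [← Finset.sum_div]
    have hpos : (0 : ℝ) < Fintype.card (X i) := by exact_mod_cast Fintype.card_pos
    rw [mul_div_assoc', div_le_iff₀ hpos, add_mul, div_mul_cancel₀ _ hpos.ne']
    have h1 : ∑ j ∈ s, cnt (A j) i ≤ C * Fintype.card (X i) + s.card * cnt B i := by
      simp_rw [cnt_eq_sum]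
      rw [Finset.sum_comm, Finset.mul_sum, mul_comm C, Fintype.card,
        ← smul_eq_mul, ← Finset.sum_const, ← Finset.sum_add_distrib]
      refine Finset.sum_le_sum fun x _ => ?_
      rw [← Finset.card_filter]
      by_cases hx : (⟨i, x⟩ : Σ i, X i) ∈ B
      · rw [if_pos hx]
        have := Finset.card_filter_le s (fun j => (⟨i, x⟩ : Σ i, X i) ∈ A j)
        omega
      · rw [if_neg hx]
        have : (s.filter fun j => (⟨i, x⟩ : Σ i, X i) ∈ A j).card ≤ C := by
          by_contra hcon; exact hx hcon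
        omega
    exact_mod_cast h1)
  rw [hB0, mul_zero, add_zero] at key
  exact key

/-- A fibrewise map. -/
def fw (t : ∀ i, X i → X i) (y : Σ i, X i) : Σ i, X i := ⟨y.1, t y.1 y.2⟩

theorem mu_preimage_le (t t' : ∀ i, X i → X i)
    (h : ∀ᶠ y in (limFAP U).ae, fw t' (fw t y) = y) (A : Set (Σ i, X i)) :
    (limFAP U).μ (fw t ⁻¹' A) ≤ (limFAP U).μ A := by
  set B : Set (Σ i, X i) := {y | fw t' (fw t y) = y}ᶜ with hB
  have hB0 : (limFAP U).μ B = 0 := h
  have h1 : ∀ i, dens (fw t ⁻¹' A) i ≤ dens A i + dens B i := by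
    intro i
    unfold dens
    rw [← add_div]
    have hpos : (0 : ℝ) < Fintype.card (X i) := by exact_mod_cast Fintype.card_pos
    rw [div_le_div_iff_of_pos_right hpos]
    have h2 : cnt (fw t ⁻¹' A) i ≤ cnt A i + cnt B i := by
      have hcc : cnt (fw t ⁻¹' A) i = (Finset.univ.filter fun x : X i =>
        (⟨i, x⟩ : Σ i, X i) ∈ fw t ⁻¹' A).card := rfl
      rw [hcc]
      set S := Finset.univ.filter fun x : X i => (⟨i, x⟩ : Σ i, X i) ∈ fw t ⁻¹' A with hS
      have h3 : S.card = (S.filter fun x => (⟨i, x⟩ : Σ i, X i) ∈ B).card +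
          (S.filter fun x => ¬ (⟨i, x⟩ : Σ i, X i) ∈ B).card :=
        (Finset.card_filter_add_card_filter_not _).symm
      have h4 : (S.filter fun x => (⟨i, x⟩ : Σ i, X i) ∈ B).card ≤ cnt B i :=
        Finset.card_le_card fun x hx => by
          simp only [Finset.mem_filter, Finset.mem_univ, true_and] at hx ⊢
          exact hx.2
      have h5 : (S.filter fun x => ¬ (⟨i, x⟩ : Σ i, X i) ∈ B).card ≤ cnt A i := by
        unfold cnt
        refine Finset.card_le_card_of_injOn (t i) ?_ ?_
        · intro x hx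
          simp only [Finset.coe_filter, Finset.mem_filter, Finset.mem_univ, true_and, hS,
            Set.mem_ofPred_eq] at hx ⊢
          exact hx.1
        · intro x hx x' hx' hxx
          simp only [Finset.coe_filter, Finset.mem_filter, Finset.mem_univ, true_and, hS,
            Set.mem_ofPred_eq, hB, Set.mem_compl_iff, not_not] at hx hx'
          have e1 := hx.2
          have e2 := hx'.2
          simp only [fw] at e1 e2
          rw [hxx, e2] at e1
          simpa using e1.symm
      omega
    exact_mod_cast h2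
  have h6 := le_of_tendsto_of_tendsto' (tendsto_lmu U (fw t ⁻¹' A))
    ((tendsto_lmu U A).add (tendsto_lmu U B)) h1
  have h7 : lmu U B = 0 := hB0
  rw [h7, add_zero] at h6
  exact h6

theorem mu_preimage (t t' : ∀ i, X i → X i)
    (h : ∀ᶠ y in (limFAP U).ae, fw t' (fw t y) = y)
    (h' : ∀ᶠ y in (limFAP U).ae, fw t (fw t' y) = y) (A : Set (Σ i, X i)) :
    (limFAP U).μ (fw t ⁻¹' A) = (limFAP U).μ A := by
  apply le_antisymm (mu_preimage_le U t t' h A)
  have h1 := mu_preimage_le U t' t h' (fw t ⁻¹' A)
  have h2 : (limFAP U).μ (fw t' ⁻¹' (fw t ⁻¹' A)) = (limFAP U).μ A := by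
    apply FAP.congr_ae
    filter_upwards [h'] with y hy
    show fw t (fw t' y) ∈ A ↔ y ∈ A
    rw [hy]
  rw [h2] at h1
  exact h1

theorem tendsto_fw (t t' : ∀ i, X i → X i)
    (h : ∀ᶠ y in (limFAP U).ae, fw t' (fw t y) = y)
    (h' : ∀ᶠ y in (limFAP U).ae, fw t (fw t' y) = y) :
    Tendsto (fw t) (limFAP U).ae (limFAP U).ae := by
  intro A hA
  rw [FAP.mem_ae_iff] at hA
  rw [Filter.mem_map, FAP.mem_ae_iff, mu_preimage U t t' h h', hA]

/-- The size of the fibre of `f`. -/
noncomputable def fib (f : ∀ i, X i → X i) (y : Σ i, X i) : ℕ :=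
  (Finset.univ.filter fun x : X y.1 => f y.1 x = f y.1 y.2).card

/-- The good points of the fibre of `f`. -/
noncomputable def gfib (f : ∀ i, X i → X i) (Good : Set (Σ i, X i)) (y : Σ i, X i) :
    Finset (X y.1) :=
  Finset.univ.filter fun x : X y.1 => f y.1 x = f y.1 y.2 ∧ (⟨y.1, x⟩ : Σ i, X i) ∈ Good

theorem half (f : ∀ i, X i → X i) (Good : Set (Σ i, X i)) (hG : Good ∈ (limFAP U).ae) :
    ∀ᶠ y in (limFAP U).ae, fib f y ≤ 2 * (gfib f Good y).card := by
  have hG0 : lmu U Goodᶜ = 0 := hG
  show lmu U {y | fib f y ≤ 2 * (gfib f Good y).card}ᶜ = 0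
  have hmemB : ∀ y, y ∈ {y | fib f y ≤ 2 * (gfib f Good y).card}ᶜ ↔
    2 * (gfib f Good y).card < fib f y := fun y => by simp
  revert hmemB
  generalize {y | fib f y ≤ 2 * (gfib f Good y).card}ᶜ = B
  intro hmemB
  have hmemG : ∀ y, y ∈ Goodᶜ ↔ y ∉ Good := fun y => Iff.rfl
  revert hmemG hG0
  generalize Goodᶜ = Bad
  intro hG0 hmemG
  have h1 : ∀ i, dens B i ≤ 2 * dens Bad i := by
    intro i
    unfold dens
    have hpos : (0 : ℝ) < Fintype.card (X i) := by exact_mod_cast Fintype.card_pos
    rw [mul_div_assoc', div_le_div_iff_of_pos_right hpos]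
    have h2 : cnt B i ≤ 2 * cnt Bad i := by
      rw [cnt_eq_fiberwise B i (f i), cnt_eq_fiberwise Bad i (f i), Finset.mul_sum]
      refine Finset.sum_le_sum fun c _ => ?_
      by_cases hne : (Finset.univ.filter fun x : X i =>
          (⟨i, x⟩ : Σ i, X i) ∈ B ∧ f i x = c).Nonempty
      · obtain ⟨x0, hx0⟩ := hne
        simp only [Finset.mem_filter, Finset.mem_univ, true_and] at hx0
        obtain ⟨hx0B, hx0c⟩ := hx0
        have h3 : 2 * (gfib f Good ⟨i, x0⟩).card < fib f ⟨i, x0⟩ := by
          exact (hmemB _).1 hx0B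
        have h4 : fib f ⟨i, x0⟩ = (gfib f Good ⟨i, x0⟩).card +
            (Finset.univ.filter fun x : X i =>
              (⟨i, x⟩ : Σ i, X i) ∈ Bad ∧ f i x = c).card := by
          unfold fib gfib
          rw [← Finset.card_union_of_disjoint]
          · congr 1
            ext x
            simp only [Finset.mem_filter, Finset.mem_univ, true_and, Finset.mem_union, hx0c,
              hmemG]
            tauto
          · rw [Finset.disjoint_left]
            intro x hx hx'
            simp only [Finset.mem_filter, Finset.mem_univ, true_and, hmemG] at hx hx'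
            exact hx'.1 hx.2
        have h5 : (Finset.univ.filter fun x : X i =>
            (⟨i, x⟩ : Σ i, X i) ∈ B ∧ f i x = c).card ≤ fib f ⟨i, x0⟩ := by
          unfold fib
          apply Finset.card_le_card
          intro x hx
          simp only [Finset.mem_filter, Finset.mem_univ, true_and] at hx ⊢
          rw [hx.2, hx0c]
        omega
      · rw [Finset.not_nonempty_iff_eq_empty] at hne
        rw [hne]; simp
    exact_mod_cast h2
  have h6 := le_of_tendsto_of_tendsto' (tendsto_lmu U B) ((tendsto_lmu U Bad).const_mul 2) h1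
  rw [hG0, mul_zero] at h6
  exact le_antisymm h6 ((limFAP U).nonneg B)

end Lim

end Pool.Agent.H42.Sof
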