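import Pool.Agent.H42.SofLim

/-! # A criterion for non-soficity of monoids -/

open Filter Set Topology

open scoped Classical

namespace Pool.Agent.H42.Sof

/-- Sofic monoids (Ceccherini-Silberstein and Coornaert). -/
def IsSofic (M : Type*) [Monoid M] : Prop :=
  ∀ (K : Finset M) (ε : ℝ), 0 < ε →
    ∃ (X : Type) (_ : Fintype X) (_ : Nonempty X) (act : M → X → X),
      (∀ x, act 1 x = x) ∧
      (∀ s ∈ K, ∀ t ∈ K, (1 - ε) * (Fintype.card X : ℝ) ≤
        ((Finset.univ.filter fun x => act s (act t x) = act (s * t) x).card : ℝ)) ∧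
      (∀ s ∈ K, ∀ t ∈ K, s ≠ t → (1 - ε) * (Fintype.card X : ℝ) ≤
        ((Finset.univ.filter fun x => act s x ≠ act t x).card : ℝ))

theorem combi {X : Type*} [Fintype X] (f T σ : X → X) (Good : X → Prop) (n : ℕ) (z : ℕ → X)
    (x0 : X) (hGs : ∀ x, Good x → σ (f x) = f (T x))
    (hinj : ∀ x x', T x = T x' → Good x → Good x' → x = x')
    (p1 : ∀ j ∈ Finset.range n, (Finset.univ.filter fun x => f x = f (z j)).card ≤
      2 * (Finset.univ.filter fun x => f x = f (z j) ∧ Good x).card)
    (p2 : ∀ j ∈ Finset.range n, Good (z j))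
    (p3 : ∀ j ∈ Finset.range n, ∀ l ∈ Finset.range n, j ≠ l → f (z j) ≠ f (z l))
    (p4 : ∀ j ∈ Finset.range n, f (T (z j)) = f (T x0)) :
    ((Finset.range n).filter fun j => (Finset.univ.filter fun x => f x = f (T (z j))).card ≤
      (Finset.univ.filter fun x => f x = f (z j)).card).card ≤ 2 := by
  set J := (Finset.range n).filter fun j =>
    (Finset.univ.filter fun x => f x = f (T (z j))).card ≤
      (Finset.univ.filter fun x => f x = f (z j)).card with hJ
  set S : ℕ → Finset X := fun j => Finset.univ.filter fun x => f x = f (z j) ∧ Good x with hS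
  set F : Finset X := Finset.univ.filter fun x => f x = f (T x0) with hF
  have hJr : ∀ j ∈ J, j ∈ Finset.range n := fun j hj => (Finset.mem_filter.1 hj).1
  have hmemS : ∀ j x, x ∈ S j ↔ f x = f (z j) ∧ Good x := by
    intro j x
    simp only [hS, Finset.mem_filter, Finset.mem_univ, true_and]
  have hdisj : (J : Set ℕ).PairwiseDisjoint S := by
    intro j hj l hl hjl
    rw [Function.onFun, Finset.disjoint_left]
    intro x hx hx'
    rw [hmemS] at hx hx'
    apply p3 j (hJr j hj) l (hJr l hl) hjl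
    rw [← hx.1, ← hx'.1]
  have hcard : ∑ j ∈ J, (S j).card ≤ F.card := by
    rw [← Finset.card_biUnion hdisj]
    refine Finset.card_le_card_of_injOn T ?_ ?_
    · intro x hx
      simp only [Finset.coe_biUnion, Set.mem_iUnion, Finset.mem_coe, exists_prop] at hx
      obtain ⟨j, hj, hx⟩ := hx
      rw [hmemS] at hx
      simp only [hF, Finset.coe_filter, Finset.mem_univ, true_and, Set.mem_ofPred_eq]
      rw [← hGs x hx.2, hx.1, hGs _ (p2 j (hJr j hj)), p4 j (hJr j hj)]
    · intro x hx x' hx' hxx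
      simp only [Finset.coe_biUnion, Set.mem_iUnion, Finset.mem_coe, exists_prop] at hx hx'
      obtain ⟨j, hj, hx⟩ := hx
      obtain ⟨j', hj', hx'⟩ := hx'
      rw [hmemS] at hx hx'
      exact hinj _ _ hxx hx.2 hx'.2
  have hbig : ∀ j ∈ J, F.card ≤ 2 * (S j).card := by
    intro j hj
    have e2 := (Finset.mem_filter.1 hj).2
    rw [p4 j (hJr j hj)] at e2
    exact e2.trans (p1 j (hJr j hj))
  have hFpos : 0 < F.card := by
    apply Finset.card_pos.2
    exact ⟨T x0, by simp [hF]⟩
  have hfinal : J.card * F.card ≤ 2 * F.card := by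
    calc J.card * F.card = ∑ j ∈ J, F.card := by rw [Finset.sum_const, smul_eq_mul]
      _ ≤ ∑ j ∈ J, 2 * (S j).card := Finset.sum_le_sum hbig
      _ = 2 * ∑ j ∈ J, (S j).card := by rw [Finset.mul_sum]
      _ ≤ 2 * F.card := Nat.mul_le_mul_left 2 hcard
  exact Nat.le_of_mul_le_mul_right hfinal hFpos

section

variable {M : Type*} [Monoid M] {I : Type*} {X : I → Type*} [∀ i, Fintype (X i)]
  [∀ i, Nonempty (X i)] (U : Ultrafilter I) (act : ∀ i, M → X i → X i)

/-- The action on the disjoint union of the finite models. -/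
def ac (m : M) : (Σ i, X i) → Σ i, X i := fw fun i => act i m

variable (hone : ∀ i x, act i 1 x = x)
  (hmul : ∀ m n : M, ∀ᶠ y in (limFAP U).ae, ac act m (ac act n y) = ac act (m * n) y)
  (hne : ∀ m n : M, m ≠ n → ∀ᶠ y in (limFAP U).ae, ac act m y ≠ ac act n y)

include hone hmul

theorem tendsto_ac {m m' : M} (h : m' * m = 1) (h' : m * m' = 1) :
    Tendsto (ac act m) (limFAP U).ae (limFAP U).ae := by
  refine tendsto_fw U _ (fun i => act i m') ?_ ?_
  · filter_upwards [hmul m' m] with y hy
    have : ac act m' (ac act m y) = y := by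
      rw [hy, h]
      obtain ⟨i, x⟩ := y
      simp [ac, fw, hone]
    exact this
  · filter_upwards [hmul m m'] with y hy
    have : ac act m (ac act m' y) = y := by
      rw [hy, h']
      obtain ⟨i, x⟩ := y
      simp [ac, fw, hone]
    exact this

theorem mu_ac {m m' : M} (h : m' * m = 1) (h' : m * m' = 1) (A : Set (Σ i, X i)) :
    (limFAP U).μ (ac act m ⁻¹' A) = (limFAP U).μ A := by
  refine mu_preimage U _ (fun i => act i m') ?_ ?_ A
  · filter_upwards [hmul m' m] with y hy
    have : ac act m' (ac act m y) = y := by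
      rw [hy, h]
      obtain ⟨i, x⟩ := y
      simp [ac, fw, hone]
    exact this
  · filter_upwards [hmul m m'] with y hy
    have : ac act m (ac act m' y) = y := by
      rw [hy, h']
      obtain ⟨i, x⟩ := y
      simp [ac, fw, hone]
    exact this

include hne

/-- The fibres grow: claim (D). -/
theorem grow {G : Type*} [Group G] (ι : G →* M) (o s : M) (a : G) (hs : s * o = o * ι a)
    (k : ℕ → G) (hk : ∀ n, o * ι (a * k n) = o * ι a)
    (hkne : ∀ m n, m ≠ n → o * ι (k m) ≠ o * ι (k n)) :
    ∀ᶠ y in (limFAP U).ae, fib (fun i => act i o) y < fib (fun i => act i o) (ac act (ι a) y) := by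
  set f : ∀ i, X i → X i := fun i => act i o with hf
  have hinv : ∀ g : G, ι g⁻¹ * ι g = 1 ∧ ι g * ι g⁻¹ = 1 := fun g => by
    rw [← map_mul, ← map_mul]; simp
  have ht : ∀ g : G, Tendsto (ac act (ι g)) (limFAP U).ae (limFAP U).ae := fun g =>
    tendsto_ac U act hone hmul (hinv g).1 (hinv g).2
  set Good : Set (Σ i, X i) := {y | ac act s (ac act o y) = ac act o (ac act (ι a) y) ∧
    ac act (ι a⁻¹) (ac act (ι a) y) = y} with hGood
  have hG : Good ∈ (limFAP U).ae := by
    show ∀ᶠ y in (limFAP U).ae, y ∈ Good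
    filter_upwards [hmul s o, hmul o (ι a), hmul (ι a⁻¹) (ι a)] with y h1 h2 h3
    refine ⟨by rw [h1, h2, hs], ?_⟩
    rw [h3, (hinv a).1]
    obtain ⟨i, x⟩ := y
    simp [ac, fw, hone]
  set A : Set (Σ i, X i) := {y | fib f (ac act (ι a) y) ≤ fib f y} with hA
  have hfin : ∀ n : ℕ, (n : ℝ) * (limFAP U).μ A ≤ 2 := by
    intro n
    have h1 := sum_le_of_ae U (Finset.range n) (fun j => ac act (ι (k j)) ⁻¹' A) 2 (by
      have p1 : ∀ᶠ y in (limFAP U).ae, ∀ j ∈ Finset.range n,
          fib f (ac act (ι (k j)) y) ≤ 2 * (gfib f Good (ac act (ι (k j)) y)).card := by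
        rw [Filter.eventually_all_finset]
        intro j _
        have hh : ∀ᶠ y in (limFAP U).ae, y ∈ {y | fib f y ≤ 2 * (gfib f Good y).card} :=
          half U f Good hG
        have := (ht (k j)).eventually hh
        filter_upwards [this] with y hy
        exact hy
      have p2 : ∀ᶠ y in (limFAP U).ae, ∀ j ∈ Finset.range n, ac act (ι (k j)) y ∈ Good := by
        rw [Filter.eventually_all_finset]
        intro j _
        have hh : ∀ᶠ y in (limFAP U).ae, y ∈ Good := hG
        have := (ht (k j)).eventually hh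
        filter_upwards [this] with y hy
        exact hy
      have p3 : ∀ᶠ y in (limFAP U).ae, ∀ j ∈ Finset.range n, ∀ l ∈ Finset.range n, j ≠ l →
          ac act o (ac act (ι (k j)) y) ≠ ac act o (ac act (ι (k l)) y) := by
        rw [Filter.eventually_all_finset]
        intro j _
        rw [Filter.eventually_all_finset]
        intro l _
        by_cases hjl : j = l
        · simp [hjl]
        · filter_upwards [hmul o (ι (k j)), hmul o (ι (k l)), hne _ _ (hkne j l hjl)]
            with y h1 h2 h3 _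
          rw [h1, h2]; exact h3
      have p4 : ∀ᶠ y in (limFAP U).ae, ∀ j ∈ Finset.range n,
          ac act o (ac act (ι a) (ac act (ι (k j)) y)) = ac act o (ac act (ι a) y) := by
        rw [Filter.eventually_all_finset]
        intro j _
        filter_upwards [hmul (ι a) (ι (k j)), hmul o (ι a * ι (k j)), hmul o (ι a)]
          with y h1 h2 h3
        rw [h1, h2, h3, ← map_mul, hk]
      filter_upwards [p1, p2, p3, p4] with y p1 p2 p3 p4
      obtain ⟨i, x0⟩ := y
      have inj : ∀ {u v : X i}, (⟨i, u⟩ : Σ i, X i) = ⟨i, v⟩ → u = v := by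
        intro u v h; simpa using h
      have hcombi := combi (act i o) (act i (ι a)) (act i s) (fun x => (⟨i, x⟩ : Σ i, X i) ∈ Good) n
        (fun j => act i (ι (k j)) x0) x0 (fun x hx => inj hx.1)
        (fun x x' hxx h1 h2 => by
          have e1 : act i (ι a⁻¹) (act i (ι a) x) = x := inj h1.2
          have e2 : act i (ι a⁻¹) (act i (ι a) x') = x' := inj h2.2
          rw [← e1, ← e2, hxx])
        p1 p2 (fun j hj l hl hjl h => p3 j hj l hl hjl (by simp only [ac, fw]; rw [h]))
        (fun j hj => inj (p4 j hj))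
      refine le_trans (Finset.card_le_card fun j hj => ?_) hcombi
      rw [Finset.mem_filter] at hj ⊢
      exact ⟨hj.1, hj.2⟩)
    have h2 : ∀ j ∈ Finset.range n, (limFAP U).μ (ac act (ι (k j)) ⁻¹' A) = (limFAP U).μ A :=
      fun j _ => mu_ac U act hone hmul (hinv (k j)).1 (hinv (k j)).2 A
    rw [Finset.sum_congr rfl h2, Finset.sum_const, Finset.card_range, nsmul_eq_mul] at h1
    exact_mod_cast h1
  have hzero : (limFAP U).μ A = 0 := by
    by_contra hcon
    have hpos : 0 < (limFAP U).μ A := lt_of_le_of_ne ((limFAP U).nonneg A) (Ne.symm hcon)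
    obtain ⟨n, hn⟩ := exists_nat_gt (2 / (limFAP U).μ A)
    rw [div_lt_iff₀ hpos] at hn
    linarith [hfin n]
  have : ∀ᶠ y in (limFAP U).ae, y ∉ A := by
    show (limFAP U).μ _ = 0
    rw [← hzero]; congr 1; ext y; simp
  filter_upwards [this] with y hy
  simpa [hA] using hy

end

section Main

variable {M : Type*} [Monoid M]

/-- **Criterion.** A monoid containing a group with six elements `a i j` satisfying the commutator
relations of `SL₃`, an element `o` and elements `s i j` with `s i j * o = o * a i j`, such that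
`o * g` takes infinitely many values on the group elements `g` with `o * a i j * g = o * a i j`,
is not sofic. -/
theorem not_isSofic_of {G : Type*} [Group G] (ι : G →* M) (o : M) (s : Fin 3 → Fin 3 → M)
    (a : Fin 3 → Fin 3 → G)
    (hrel : ∀ i j k : Fin 3, i ≠ j → j ≠ k → i ≠ k →
      a i j * a j k = a i k * (a j k * a i j) ∧ Commute (a i k) (a i j) ∧ Commute (a i k) (a j k))
    (hs : ∀ i j, i ≠ j → s i j * o = o * ι (a i j))
    (hk : ∀ i j, i ≠ j → ∃ k : ℕ → G, (∀ n, o * ι (a i j * k n) = o * ι (a i j)) ∧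
      ∀ m n, m ≠ n → o * ι (k m) ≠ o * ι (k n)) : ¬ IsSofic M := by
  intro hsof
  have hch : ∀ i : Finset M × ℕ, ∃ (X : Type) (_ : Fintype X) (_ : Nonempty X) (act : M → X → X),
      (∀ x, act 1 x = x) ∧
      (∀ s ∈ i.1, ∀ t ∈ i.1, (1 - 1 / ((i.2 : ℝ) + 1)) * (Fintype.card X : ℝ) ≤
        ((Finset.univ.filter fun x => act s (act t x) = act (s * t) x).card : ℝ)) ∧
      (∀ s ∈ i.1, ∀ t ∈ i.1, s ≠ t → (1 - 1 / ((i.2 : ℝ) + 1)) * (Fintype.card X : ℝ) ≤
        ((Finset.univ.filter fun x => act s x ≠ act t x).card : ℝ)) :=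
    fun i => hsof i.1 (1 / ((i.2 : ℝ) + 1)) (by positivity)
  choose X hXf hXn act hone h1 h2 using hch
  let _ : ∀ i, Fintype (X i) := hXf
  have : ∀ i, Nonempty (X i) := hXn
  set U : Ultrafilter (Finset M × ℕ) := Ultrafilter.of atTop with hU
  have hUle : (U : Filter (Finset M × ℕ)) ≤ atTop := Ultrafilter.of_le atTop
  -- the basic limit statement
  have basic : ∀ (m n : M) (A : Set (Σ i, X i)),
      (∀ i : Finset M × ℕ, m ∈ i.1 → n ∈ i.1 →
        (1 - 1 / ((i.2 : ℝ) + 1)) * (Fintype.card (X i) : ℝ) ≤ (cnt A i : ℝ)) →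
      A ∈ (limFAP U).ae := by
    intro m n A hA
    rw [FAP.mem_ae_iff]
    refine tendsto_nhds_unique (tendsto_lmu U A) ?_
    have hlim : Tendsto (fun i : Finset M × ℕ => 1 - 1 / ((i.2 : ℝ) + 1)) U (𝓝 1) := by
      have t1 : Tendsto (fun i : Finset M × ℕ => i.2) U atTop :=
        (tendsto_snd.comp (by
          rw [← Filter.prod_atTop_atTop_eq] at hUle; exact hUle))
      have t2 := (tendsto_one_div_add_atTop_nhds_zero_nat (𝕜 := ℝ)).comp t1
      have t3 := (tendsto_const_nhds (x := (1 : ℝ))).sub t2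
      rw [sub_zero] at t3
      exact t3
    refine tendsto_of_tendsto_of_tendsto_of_le_of_le' hlim tendsto_const_nhds ?_
      (Filter.Eventually.of_forall fun i => dens_le_one A i)
    have hev : ∀ᶠ i : Finset M × ℕ in atTop, m ∈ i.1 ∧ n ∈ i.1 := by
      filter_upwards [Filter.eventually_ge_atTop (({m, n} : Finset M), 0)] with i hi
      exact ⟨hi.1 (by simp), hi.1 (by simp)⟩
    filter_upwards [hUle hev] with i hi
    have hpos : (0 : ℝ) < Fintype.card (X i) := by exact_mod_cast Fintype.card_pos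
    unfold dens
    rw [le_div_iff₀ hpos]
    exact hA i hi.1 hi.2
  have hmul : ∀ m n : M, ∀ᶠ y in (limFAP U).ae, ac act m (ac act n y) = ac act (m * n) y := by
    intro m n
    refine basic m n _ fun i hm hn => (h1 i m hm n hn).trans ?_
    unfold cnt
    norm_cast
    apply Finset.card_le_card
    intro x hx
    simp only [Finset.mem_filter, Finset.mem_univ, true_and] at hx ⊢
    show ac act m (ac act n ⟨i, x⟩) = ac act (m * n) ⟨i, x⟩
    simp only [ac, fw]
    rw [hx]
  have hne : ∀ m n : M, m ≠ n → ∀ᶠ y in (limFAP U).ae, ac act m y ≠ ac act n y := by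
    intro m n hmn
    refine basic m n _ fun i hm hn => (h2 i m hm n hn hmn).trans ?_
    unfold cnt
    norm_cast
    apply Finset.card_le_card
    intro x hx
    simp only [Finset.mem_filter, Finset.mem_univ, true_and] at hx ⊢
    show ac act m ⟨i, x⟩ ≠ ac act n ⟨i, x⟩
    simp only [ac, fw, ne_eq, Sigma.mk.injEq, heq_eq_eq, true_and]
    exact hx
  have hinv : ∀ g : G, ι g⁻¹ * ι g = 1 ∧ ι g * ι g⁻¹ = 1 := fun g => by
    rw [← map_mul, ← map_mul]; simp
  refine hexagon (P := limFAP U)
    (Ψ := fun g y => fib (fun i => act i o) (ac act (ι g) y)) a hrel ?_ ?_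
  · intro i j hij g
    obtain ⟨k, hk1, hk2⟩ := hk i j hij
    have := grow U act hone hmul hne ι o (s i j) (a i j) (hs i j hij) k hk1 hk2
    have ht := (tendsto_ac U act hone hmul (hinv g).1 (hinv g).2).eventually this
    filter_upwards [ht, hmul (ι (a i j)) (ι g)] with y hy1 hy2
    rw [map_mul, ← hy2]
    exact hy1
  · intro g₁ g₂ h
    rw [← mu_ac U act hone hmul (hinv h).1 (hinv h).2 (Ev _ g₁ g₂)]
    apply FAP.congr_ae
    filter_upwards [hmul (ι g₁) (ι h), hmul (ι g₂) (ι h)] with y hy1 hy2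
    show fib _ _ ≤ fib _ _ ↔ fib _ _ ≤ fib _ _
    rw [map_mul, map_mul, ← hy1, ← hy2]

end Main

end Pool.Agent.H42.Sof
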