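import Pool.Agent.H42.SofMain

/-! # Sofic groups and the bimodule extension of a monoid -/

open scoped Classical

namespace Pool.Agent.H42.Sof

/-! ### Permanence -/

theorem IsSofic.of_injective {M N : Type*} [Monoid M] [Monoid N] (f : M →* N)
    (hf : Function.Injective f) (h : IsSofic N) : IsSofic M := by
  intro K ε hε
  obtain ⟨X, hX, hn, act, h1, h2, h3⟩ := h (K.image f) ε hε
  refine ⟨X, hX, hn, fun m => act (f m), fun x => by simp only [map_one]; exact h1 x, ?_, ?_⟩
  · intro s hs t ht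
    have := h2 (f s) (Finset.mem_image_of_mem f hs) (f t) (Finset.mem_image_of_mem f ht)
    simpa only [map_mul] using this
  · intro s hs t ht hst
    exact h3 (f s) (Finset.mem_image_of_mem f hs) (f t) (Finset.mem_image_of_mem f ht)
      (fun h => hst (hf h))

theorem IsSofic.of_subsingleton {M : Type*} [Monoid M] [Subsingleton M] : IsSofic M := by
  intro K ε hε
  refine ⟨Unit, inferInstance, inferInstance, fun _ x => x, fun x => rfl, ?_, ?_⟩
  · intro s _ t _
    simp only [Finset.filter_true, Finset.card_univ, Fintype.card_unit]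
    norm_num
    linarith
  · intro s _ t _ hst
    exact absurd (Subsingleton.elim s t) hst

theorem card_filter_of_all {X : Type*} [Fintype X] {p : X → Prop} {hp : DecidablePred p}
    (h : ∀ x, p x) : (Finset.univ.filter p).card = Fintype.card X := by
  rw [Finset.filter_true_of_mem (fun x _ => h x), Finset.card_univ]

/-- A group with enough homomorphisms to finite groups is sofic. -/
theorem IsSofic.of_finite_quotients {G : Type} [Group G]
    (h : ∀ g : G, g ≠ 1 → ∃ (Q : Type) (_ : Group Q) (_ : Finite Q) (φ : G →* Q), φ g ≠ 1) :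
    IsSofic G := by
  intro K ε hε
  have h' : ∀ p : {p : K × K // (p.1 : G) ≠ p.2}, ∃ (Q : Type) (_ : Group Q) (_ : Finite Q)
      (φ : G →* Q), φ (p.1.1 : G) ≠ φ (p.1.2 : G) := by
    intro p
    obtain ⟨Q, hQ, hF, φ, hφ⟩ := h ((p.1.2 : G)⁻¹ * (p.1.1 : G)) (by
      intro hcon
      apply p.2
      rw [inv_mul_eq_one] at hcon
      exact hcon.symm)
    refine ⟨Q, hQ, hF, φ, fun hcon => hφ ?_⟩
    rw [map_mul, hcon, ← map_mul, inv_mul_cancel, map_one]
  choose Q hQ hF φ hφ using h'
  have hfin : Finite (∀ p, Q p) := Pi.finite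
  let hft : Fintype (∀ p, Q p) := Fintype.ofFinite _
  refine ⟨∀ p, Q p, hft, ⟨1⟩, fun g x p => φ p g * x p, fun x => by funext p; simp, ?_, ?_⟩
  · intro s _ t _
    rw [card_filter_of_all (fun x => by
      funext p
      show φ p s * (φ p t * x p) = φ p (s * t) * x p
      rw [map_mul, mul_assoc])]
    have : (0 : ℝ) ≤ Fintype.card (∀ p, Q p) := Nat.cast_nonneg _
    nlinarith
  · intro s hs t ht hst
    rw [card_filter_of_all (fun x hcon => by
      have := congrFun hcon ⟨(⟨s, hs⟩, ⟨t, ht⟩), hst⟩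
      exact hφ ⟨(⟨s, hs⟩, ⟨t, ht⟩), hst⟩ (mul_right_cancel this))]
    have : (0 : ℝ) ≤ Fintype.card (∀ p, Q p) := Nat.cast_nonneg _
    nlinarith

/-! ### The monoid -/

/-- The disjoint union of `P × G`, `O` and a zero element. -/
inductive Mon (P G O : Type*)
  | u : P → G → Mon P G O
  | c : O → Mon P G O
  | z : Mon P G O

namespace Mon

variable {P G O : Type*} [Monoid P] [Group G] [MulAction P O] [MulAction Gᵐᵒᵖ O]

/-- The multiplication of `Mon`. -/
def mul : Mon P G O → Mon P G O → Mon P G O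
  | u p g, u p' g' => u (p * p') (g * g')
  | u p _, c o => c (p • o)
  | c o, u _ g => c (MulOpposite.op g • o)
  | _, _ => z

instance [SMulCommClass P Gᵐᵒᵖ O] : Monoid (Mon P G O) where
  mul := mul
  one := u 1 1
  mul_assoc := by
    rintro (⟨p, g⟩ | o | _) (⟨p', g'⟩ | o' | _) (⟨p'', g''⟩ | o'' | _) <;>
    first
    | rfl
    | (show u _ _ = u _ _; rw [mul_assoc, mul_assoc])
    | (show c _ = c _; congr 1; simp only [MulOpposite.op_mul, mul_smul, smul_comm])
  one_mul := by
    rintro (⟨p, g⟩ | o | _)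
    · show u _ _ = u _ _; rw [one_mul, one_mul]
    · show c _ = c _; rw [one_smul]
    · rfl
  mul_one := by
    rintro (⟨p, g⟩ | o | _)
    · show u _ _ = u _ _; rw [mul_one, mul_one]
    · show c _ = c _; rw [MulOpposite.op_one, one_smul]
    · rfl

variable [SMulCommClass P Gᵐᵒᵖ O]

theorem one_def : (1 : Mon P G O) = u 1 1 := rfl
@[simp] theorem u_mul_u (p p' : P) (g g' : G) :
    (u p g : Mon P G O) * u p' g' = u (p * p') (g * g') := rfl
@[simp] theorem u_mul_c (p : P) (g : G) (o : O) : (u p g : Mon P G O) * c o = c (p • o) := rfl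
@[simp] theorem c_mul_u (o : O) (p : P) (g : G) :
    (c o : Mon P G O) * u p g = c (MulOpposite.op g • o) := rfl
@[simp] theorem u_mul_z (p : P) (g : G) : (u p g : Mon P G O) * z = z := rfl
@[simp] theorem z_mul (m : Mon P G O) : (z : Mon P G O) * m = z := by
  rcases m with ⟨p, g⟩ | o | _ <;> rfl
@[simp] theorem c_mul_c (o o' : O) : (c o : Mon P G O) * c o' = z := rfl
@[simp] theorem c_mul_z (o : O) : (c o : Mon P G O) * z = z := rfl

/-- The inclusion of the group. -/
def incl : G →* Mon P G O where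
  toFun g := u 1 g
  map_one' := rfl
  map_mul' g g' := by simp

theorem incl_apply (g : G) : (incl g : Mon P G O) = u 1 g := rfl

/-- If the product of three elements is invertible then each factor lies in `P × G`. -/
theorem eq_u_of_mul_eq_one {a m b : Mon P G O} (h : a * m * b = 1)
    (hP : ∀ p q : P, p * q = 1 → p = 1 ∧ q = 1) : ∃ g : G, m = u 1 g := by
  rw [one_def] at h
  rcases a with ⟨p, g⟩ | o | _ <;> rcases m with ⟨p', g'⟩ | o' | _ <;>
    rcases b with ⟨p'', g''⟩ | o'' | _ <;> simp at h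
  have h1 := hP _ _ h.1
  have h2 := hP _ _ h1.1
  exact ⟨g', by rw [h2.2]⟩

end Mon

/-- The `J`-class of the identity: the elements `m` with `M m M = M`. -/
def jOne (M : Type*) [Monoid M] : Set M := {m | ∀ x : M, ∃ a b : M, a * m * b = x}

theorem Mon.isUnit_iff {P G O : Type*} [Monoid P] [Group G] [MulAction P O] [MulAction Gᵐᵒᵖ O]
    [SMulCommClass P Gᵐᵒᵖ O] (hP : ∀ p q : P, p * q = 1 → p = 1 ∧ q = 1) (m : Mon P G O) :
    IsUnit m ↔ ∃ g : G, m = Mon.u 1 g := by
  constructor
  · rintro ⟨v, rfl⟩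
    exact Mon.eq_u_of_mul_eq_one (a := 1) (b := (↑v⁻¹ : Mon P G O)) (by simp) hP
  · rintro ⟨g, rfl⟩
    rw [← Mon.incl_apply]
    exact (Group.isUnit g).map Mon.incl

theorem Mon.jOne_eq {P G O : Type*} [Monoid P] [Group G] [MulAction P O] [MulAction Gᵐᵒᵖ O]
    [SMulCommClass P Gᵐᵒᵖ O] (hP : ∀ p q : P, p * q = 1 → p = 1 ∧ q = 1) :
    jOne (Mon P G O) = {m | IsUnit m} := by
  ext m
  constructor
  · intro hm
    obtain ⟨a, b, hab⟩ := hm 1
    exact (Mon.isUnit_iff hP m).2 (Mon.eq_u_of_mul_eq_one hab hP)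
  · rintro ⟨v, rfl⟩ x
    exact ⟨(↑v⁻¹ : Mon P G O), x, by simp⟩

/-- The pointwise stabiliser, in the group of units acting by right translation, of the orbit
of `x`. -/
def orbitStab (M : Type*) [Monoid M] (x : M) : Subgroup Mˣ where
  carrier := {g | ∀ v : Mˣ, x * v * g = x * v}
  one_mem' := fun v => by simp
  mul_mem' := by
    intro g h hg hh v
    have h1 := hg v
    have h2 := hh v
    rw [Units.val_mul, ← mul_assoc, h1, h2]
  inv_mem' := by
    intro g hg v
    have h1 := hg v
    calc x * v * ↑g⁻¹ = (x * v * g) * ↑g⁻¹ := by rw [h1]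
      _ = x * v := by rw [mul_assoc, Units.mul_inv, mul_one]

theorem mem_orbitStab {M : Type*} [Monoid M] {x : M} {g : Mˣ} :
    g ∈ orbitStab M x ↔ ∀ v : Mˣ, x * v * g = x * v := Iff.rfl

instance orbitStab_normal (M : Type*) [Monoid M] (x : M) : (orbitStab M x).Normal where
  conj_mem := by
    intro g hg h v
    have h1 := hg (v * h)
    rw [Units.val_mul, ← mul_assoc] at h1
    calc x * v * ↑(h * g * h⁻¹) = (x * v * h * g) * ↑h⁻¹ := by
          simp only [Units.val_mul, mul_assoc]
      _ = x * v := by rw [h1, mul_assoc, Units.mul_inv, mul_one]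

end Pool.Agent.H42.Sof
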